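import Pool.Agent.CST.PlD

/-!
# The centre of a place

A place `O` with `h ∈ O` contains the integral closure `Bh h` of `ℚ[h]`; its centre `P = {b | v(b) < 1}` is a
non zero prime ideal. Every element of `K` is `c / s` or `s / c` with `s ∉ P` (the localisation of the Dedekind
domain `Bh h` at `P` is a valuation ring), so `P` determines `O`; a generator of `P` is a uniformizer.
-/

open scoped BigOperators Polynomial
open Polynomial

namespace Pool.Agent.CST

variable {K : Type} [Field K] [CharZero K]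

private theorem PlE_ah {h : K} {O : ValuationSubring K} (hO : IsPl O) (hh : h ∈ O) {x : K}
    (hx : x ∈ Ah h) : x ∈ O := by
  induction hx using Algebra.adjoin_induction with
  | mem x hx =>
    rw [Set.mem_singleton_iff] at hx
    rw [hx]
    exact hh
  | algebraMap r => exact hO.2 r
  | add x y _ _ hx hy => exact add_mem hx hy
  | mul x y _ _ hx hy => exact mul_mem hx hy

theorem bh_le {h : K} {O : ValuationSubring K} (hO : IsPl O) (hh : h ∈ O) (b : Bh h) :
    (b : K) ∈ O := by
  let φ : Ah h →+* O :=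
    { toFun := fun x => ⟨x, PlE_ah hO hh x.2⟩
      map_one' := rfl
      map_mul' := fun _ _ => rfl
      map_zero' := rfl
      map_add' := fun _ _ => rfl }
  obtain ⟨p, hp, hr⟩ := b.2
  have h1 : IsIntegral O (b : K) := by
    refine ⟨p.map φ, hp.map φ, ?_⟩
    rw [eval₂_map]
    exact hr
  obtain ⟨y, hy⟩ := IsIntegrallyClosed.isIntegral_iff.1 h1
  rw [← hy]
  exact y.2

/-- the inclusion of `Bh h` in a place -/
private noncomputable def PlE_inc {h : K} {O : ValuationSubring K} (hO : IsPl O) (hh : h ∈ O) :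
    Bh h →+* O where
  toFun b := ⟨b, bh_le hO hh b⟩
  map_one' := rfl
  map_mul' _ _ := rfl
  map_zero' := rfl
  map_add' _ _ := rfl

private theorem PlE_quot {h : K} (hh : Transcendental ℚ h)
    (hK : FiniteDimensional (IntermediateField.adjoin ℚ {h}) K) (x : K) :
    ∃ a b : Bh h, (b : K) ≠ 0 ∧ x = (a : K) / (b : K) := by
  have := bh_frac hh hK
  obtain ⟨a, b, hb, hx⟩ := IsFractionRing.div_surjective (A := Bh h) x
  refine ⟨a, b, ?_, hx.symm⟩
  have h1 : b ≠ 0 := nonZeroDivisors.ne_zero hb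
  intro h2
  exact h1 (Subtype.ext h2)

theorem exists_center {h : K} (hh : Transcendental ℚ h)
    (hK : FiniteDimensional (IntermediateField.adjoin ℚ {h}) K) {O : ValuationSubring K}
    (hO : IsPl O) (hhO : h ∈ O) : ∃ P : Ideal (Bh h), P.IsPrime ∧ P ≠ ⊥ ∧
      ∀ b : Bh h, O.valuation (b : K) < 1 ↔ b ∈ P := by
  have key : ∀ b : Bh h, O.valuation (b : K) < 1 ↔
      b ∈ (IsLocalRing.maximalIdeal O).comap (PlE_inc hO hhO) := by
    intro b
    rw [Ideal.mem_comap]
    exact (O.valuation_lt_one_iff (PlE_inc hO hhO b)).symm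
  refine ⟨(IsLocalRing.maximalIdeal O).comap (PlE_inc hO hhO), Ideal.comap_isPrime _ _, ?_, key⟩
  intro hbot
  have h1 : ∀ x : K, x ∈ O := by
    intro x
    obtain ⟨a, b, hb, rfl⟩ := PlE_quot hh hK x
    rw [← O.valuation_le_one_iff, map_div₀]
    have h2 : ¬ O.valuation (b : K) < 1 := by
      intro h3
      have h4 := (key b).1 h3
      rw [hbot, Ideal.mem_bot] at h4
      exact hb (by rw [h4]; rfl)
    have h3 : O.valuation (b : K) = 1 :=
      le_antisymm ((O.valuation_le_one_iff _).2 (bh_le hO hhO b)) (not_lt.1 h2)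
    rw [h3, div_one]
    exact (O.valuation_le_one_iff _).2 (bh_le hO hhO a)
  have hdvr := hO.1
  refine IsDiscreteValuationRing.not_isField O ⟨⟨0, 1, zero_ne_one⟩, mul_comm, ?_⟩
  intro a ha
  refine ⟨⟨(a : K)⁻¹, h1 _⟩, Subtype.ext ?_⟩
  exact mul_inv_cancel₀ fun h2 => ha (Subtype.ext h2)

private theorem PlE_tot (R : Type) [CommRing R] [IsDomain R] [IsDiscreteValuationRing R]
    (a b : R) : a ∣ b ∨ b ∣ a := ValuationRing.dvd_total a b

private theorem PlE_dvd {h : K} (hh : Transcendental ℚ h)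
    (hK : FiniteDimensional (IntermediateField.adjoin ℚ {h}) K) {P : Ideal (Bh h)}
    (hP : P.IsPrime) (hP0 : P ≠ ⊥) (a b : Bh h) :
    ∃ c s : Bh h, s ∉ P ∧ (s * b = a * c ∨ s * a = b * c) := by
  have := bh_dedekind hh hK
  have hdom : IsDomain (Localization.AtPrime P) :=
    IsLocalization.isDomain_localization P.primeCompl_le_nonZeroDivisors
  have hd : IsDiscreteValuationRing (Localization.AtPrime P) :=
    IsLocalization.AtPrime.isDiscreteValuationRing_of_dedekind_domain (Bh h) hP0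
      (Localization.AtPrime P)
  have key : ∀ a b : Bh h, algebraMap (Bh h) (Localization.AtPrime P) a ∣
      algebraMap (Bh h) (Localization.AtPrime P) b → ∃ c s : Bh h, s ∉ P ∧ s * b = a * c := by
    rintro a b ⟨z, hz⟩
    obtain ⟨c, s, rfl⟩ := IsLocalization.exists_mk'_eq P.primeCompl z
    refine ⟨c, s, s.2, ?_⟩
    have hinj := IsLocalization.injective (Localization.AtPrime P) P.primeCompl_le_nonZeroDivisors
    apply hinj
    rw [map_mul, map_mul, hz, mul_left_comm, IsLocalization.mk'_spec']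
  rcases PlE_tot (Localization.AtPrime P) (algebraMap (Bh h) (Localization.AtPrime P) a)
    (algebraMap (Bh h) (Localization.AtPrime P) b) with h1 | h1
  · obtain ⟨c, s, hs, h2⟩ := key a b h1
    exact ⟨c, s, hs, Or.inl h2⟩
  · obtain ⟨c, s, hs, h2⟩ := key b a h1
    exact ⟨c, s, hs, Or.inr h2⟩

/-- every element of `K` is `c / s` or `s / c` with `s ∉ P` -/
private theorem PlE_frac {h : K} (hh : Transcendental ℚ h)
    (hK : FiniteDimensional (IntermediateField.adjoin ℚ {h}) K) {P : Ideal (Bh h)}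
    (hP : P.IsPrime) (hP0 : P ≠ ⊥) (x : K) (hx : x ≠ 0) :
    ∃ c s : Bh h, s ∉ P ∧ (c : K) ≠ 0 ∧ (x = (c : K) / (s : K) ∨ x = (s : K) / (c : K)) := by
  obtain ⟨a, b, hb, rfl⟩ := PlE_quot hh hK x
  have ha : (a : K) ≠ 0 := by
    intro h1
    exact hx (by rw [h1, zero_div])
  obtain ⟨c, s, hs, h1 | h1⟩ := PlE_dvd hh hK hP hP0 a b
  · have h2 : (s : K) * b = a * c := congrArg (fun t : Bh h => (t : K)) h1
    have hs0 : (s : K) ≠ 0 := by
      intro h3
      have h4 : s = 0 := Subtype.ext h3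
      exact hs (h4 ▸ P.zero_mem)
    have hc : (c : K) ≠ 0 := by
      intro h3
      rw [h3, mul_zero] at h2
      exact (mul_ne_zero hs0 hb) h2
    refine ⟨c, s, hs, hc, Or.inr ?_⟩
    rw [div_eq_div_iff hb hc]
    exact h2.symm
  · have h2 : (s : K) * a = b * c := congrArg (fun t : Bh h => (t : K)) h1
    have hs0 : (s : K) ≠ 0 := by
      intro h3
      have h4 : s = 0 := Subtype.ext h3
      exact hs (h4 ▸ P.zero_mem)
    have hc : (c : K) ≠ 0 := by
      intro h3
      rw [h3, mul_zero] at h2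
      exact (mul_ne_zero hs0 ha) h2
    refine ⟨c, s, hs, hc, Or.inl ?_⟩
    rw [div_eq_div_iff hb hs0]
    linear_combination h2

private theorem PlE_sub {h : K} (hh : Transcendental ℚ h)
    (hK : FiniteDimensional (IntermediateField.adjoin ℚ {h}) K) {O O' : ValuationSubring K}
    (hO : IsPl O) (hO' : IsPl O') (h1 : h ∈ O) (h2 : h ∈ O')
    (H : ∀ b : Bh h, O.valuation (b : K) < 1 ↔ O'.valuation (b : K) < 1) : O ≤ O' := by
  obtain ⟨P, hP, hP0, hPv⟩ := exists_center hh hK hO h1
  intro x hx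
  by_cases hx0 : x = 0
  · rw [hx0]
    exact zero_mem O'
  obtain ⟨c, s, hs, hc, h3⟩ := PlE_frac hh hK hP hP0 x hx0
  have v1 : ∀ t : Bh h, t ∉ P → O.valuation (t : K) = 1 := fun t ht =>
    le_antisymm ((O.valuation_le_one_iff _).2 (bh_le hO h1 t))
      (not_lt.1 fun h4 => ht ((hPv t).1 h4))
  have v2 : ∀ t : Bh h, t ∉ P → O'.valuation (t : K) = 1 := fun t ht =>
    le_antisymm ((O'.valuation_le_one_iff _).2 (bh_le hO' h2 t))
      (not_lt.1 fun h4 => ht ((hPv t).1 ((H t).2 h4)))
  have hc1 : O.valuation (c : K) ≤ 1 := (O.valuation_le_one_iff _).2 (bh_le hO h1 c)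
  rcases h3 with rfl | rfl
  · rw [← O'.valuation_le_one_iff, map_div₀, v2 s hs, div_one]
    exact (O'.valuation_le_one_iff _).2 (bh_le hO' h2 c)
  · by_cases hcP : c ∈ P
    · exfalso
      have h4 := (hPv c).2 hcP
      have h5 := (O.valuation_le_one_iff _).2 hx
      rw [map_div₀, v1 s hs] at h5
      have h6 : (0 : _) < O.valuation (c : K) := by
        rw [zero_lt_iff]
        exact (Valuation.ne_zero_iff _).2 hc
      rw [div_le_one₀ h6] at h5
      exact absurd h4 (not_lt.2 h5)
    · rw [← O'.valuation_le_one_iff, map_div₀, v2 s hs, v2 c hcP, div_one]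

theorem place_unique {h : K} (hh : Transcendental ℚ h)
    (hK : FiniteDimensional (IntermediateField.adjoin ℚ {h}) K) {O O' : ValuationSubring K}
    (hO : IsPl O) (hO' : IsPl O') (h1 : h ∈ O) (h2 : h ∈ O')
    (H : ∀ b : Bh h, O.valuation (b : K) < 1 ↔ O'.valuation (b : K) < 1) : O = O' :=
  le_antisymm (PlE_sub hh hK hO hO' h1 h2 H) (PlE_sub hh hK hO' hO h2 h1 fun b => (H b).symm)

theorem uniformizer {h : K} (hh : Transcendental ℚ h)
    (hK : FiniteDimensional (IntermediateField.adjoin ℚ {h}) K) {O : ValuationSubring K}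
    (hO : IsPl O) (h1 : h ∈ O) {π : Bh h}
    (H : ∀ b : Bh h, O.valuation (b : K) < 1 ↔ b ∈ Ideal.span {π}) {x : K}
    (hx : O.valuation x < 1) : O.valuation x ≤ O.valuation (π : K) := by
  by_cases hx0 : x = 0
  · rw [hx0, map_zero]
    exact zero_le'
  obtain ⟨P, hP, hP0, hPv⟩ := exists_center hh hK hO h1
  obtain ⟨c, s, hs, hc, h3⟩ := PlE_frac hh hK hP hP0 x hx0
  have v1 : O.valuation (s : K) = 1 :=
    le_antisymm ((O.valuation_le_one_iff _).2 (bh_le hO h1 s))
      (not_lt.1 fun h4 => hs ((hPv s).1 h4))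
  have hc1 : O.valuation (c : K) ≤ 1 := (O.valuation_le_one_iff _).2 (bh_le hO h1 c)
  have h6 : (0 : _) < O.valuation (c : K) := by
    rw [zero_lt_iff]
    exact (Valuation.ne_zero_iff _).2 hc
  rcases h3 with rfl | rfl
  · rw [map_div₀, v1, div_one] at hx ⊢
    obtain ⟨d, hd⟩ := Ideal.mem_span_singleton'.1 ((H c).1 hx)
    rw [← hd]
    have h7 : (((d * π : Bh h)) : K) = (d : K) * (π : K) := rfl
    rw [h7, map_mul]
    have h8 : O.valuation (d : K) ≤ 1 := (O.valuation_le_one_iff _).2 (bh_le hO h1 d)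
    calc O.valuation (d : K) * O.valuation (π : K) ≤ 1 * O.valuation (π : K) :=
          mul_le_mul_left h8 _
      _ = O.valuation (π : K) := one_mul _
  · exfalso
    rw [map_div₀, v1, div_lt_one₀ h6] at hx
    exact absurd hx (not_lt.2 hc1)

end Pool.Agent.CST
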