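import Pool.Agent.CST.Defs

/-!
# Plane models, and transcendental elements of a function field of one variable

`exists_model`: a primitive element of `K / ℚ(g)`, multiplied by an element of `ℤ[g]`, is integral over
`ℤ[g] ≅ ℤ[X]`, which is integrally closed with fraction field `ℚ(g)`; so its minimal polynomial over `ℤ[g]` has
degree `[K : ℚ(g)]`.
`finite_of_transcendental`: the transcendence degree of `K` over `ℚ` is at most one, so `h` is a transcendence basis
and `K = ℚ(h)(g, θ)` is finite over `ℚ(h)`.
-/

open scoped BigOperators Polynomial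
open Polynomial

namespace Pool.Agent.CST

private theorem mod_top {K : Type} [Field K] [CharZero K] {g θ : K}
    (h : IntermediateField.adjoin (IntermediateField.adjoin ℚ {g}) {θ} = ⊤) :
    IntermediateField.adjoin ℚ {g, θ} = ⊤ := by
  have h1 := IntermediateField.adjoin_adjoin_left ℚ {g} {θ}
  rw [h, IntermediateField.restrictScalars_top] at h1
  rw [h1]
  congr 1

theorem finite_of_transcendental {K : Type} [Field K] [CharZero K] {g h : K}
    (hK : FiniteDimensional (IntermediateField.adjoin ℚ {g}) K) (hh : Transcendental ℚ h) :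
    FiniteDimensional (IntermediateField.adjoin ℚ {h}) K := by
  obtain ⟨θ, hθ⟩ := Field.exists_primitive_element (IntermediateField.adjoin ℚ {g}) K
  have htop := mod_top hθ
  have h1 : Algebra.IsAlgebraic (Algebra.adjoin ℚ {g}) K := by
    have h2 : Algebra.IsAlgebraic (IntermediateField.adjoin ℚ {g}) K := inferInstance
    open scoped IntermediateField.algebraAdjoinAdjoin in
    exact (IsFractionRing.comap_isAlgebraic_iff (A := Algebra.adjoin ℚ {g})
      (K := IntermediateField.adjoin ℚ {g}) (C := K)).2 h2
  have h2 : Algebra.trdeg ℚ K ≤ Cardinal.mk Unit := by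
    refine (Algebra.IsAlgebraic.trdeg_le_cardinalMk ℚ {g}).trans ?_
    rw [Cardinal.mk_singleton, Cardinal.mk_unit]
  have h3 : AlgebraicIndependent ℚ (fun _ : Unit => h) :=
    algebraicIndependent_unique_type_iff.2 hh
  have h4 := h3.isTranscendenceBasis_of_trdeg_le_of_finite h2
  have h5 := h4.isAlgebraic_field
  rw [Set.range_const] at h5
  have h6 : IntermediateField.adjoin (IntermediateField.adjoin ℚ {h}) {g, θ} = ⊤ := by
    rw [eq_top_iff]
    intro x _
    have hx : x ∈ IntermediateField.adjoin ℚ {g, θ} := by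
      rw [htop]
      trivial
    have h7 : IntermediateField.adjoin ℚ {g, θ} ≤
        (IntermediateField.adjoin (IntermediateField.adjoin ℚ {h}) {g, θ}).restrictScalars ℚ := by
      rw [IntermediateField.adjoin_le_iff]
      exact IntermediateField.subset_adjoin _ _
    exact h7 hx
  have h7 : FiniteDimensional (IntermediateField.adjoin ℚ {h})
      (IntermediateField.adjoin (IntermediateField.adjoin ℚ {h}) {g, θ}) :=
    IntermediateField.finiteDimensional_adjoin_pair (h5.isAlgebraic g).isIntegral
      (h5.isAlgebraic θ).isIntegral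
  rw [h6] at h7
  exact IntermediateField.topEquiv.toLinearEquiv.finiteDimensional

/-- `ℚ(g)` is the field of fractions of `ℤ[X]` -/
private theorem mod_frac {K : Type} [Field K] [CharZero K] {g : K} (z : K)
    (hz : z ∈ IntermediateField.adjoin ℚ {g}) : ∃ x y : ℤ[X], z = ev g x / ev g y := by
  obtain ⟨r, s, hrs⟩ := (IntermediateField.mem_adjoin_simple_iff ℚ z).1 hz
  have key : ∀ r : ℚ[X], ∃ (d : ℤ) (p : ℤ[X]), d ≠ 0 ∧ ev g p = (d : K) * aeval g r := by
    intro r
    obtain ⟨b, hb1, hb2⟩ := IsLocalization.integerNormalization_spec (nonZeroDivisors ℤ) r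
    refine ⟨b, IsLocalization.integerNormalization (nonZeroDivisors ℤ) r,
      nonZeroDivisors.ne_zero hb1, ?_⟩
    have h1 : ev g (IsLocalization.integerNormalization (nonZeroDivisors ℤ) r) =
        aeval g ((IsLocalization.integerNormalization (nonZeroDivisors ℤ) r).map
          (algebraMap ℤ ℚ)) := by
      rw [ev_apply, aeval_map_algebraMap]
    rw [h1, hb2, map_zsmul, zsmul_eq_mul]
  obtain ⟨d1, p1, hd1, hp1⟩ := key r
  obtain ⟨d2, p2, hd2, hp2⟩ := key s
  refine ⟨C d2 * p1, C d1 * p2, ?_⟩
  have hC : ∀ d : ℤ, ev g (C d) = (d : K) := by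
    intro d
    rw [ev_apply, aeval_C]
    rfl
  have h1 : (d1 : K) ≠ 0 := Int.cast_ne_zero.2 hd1
  have h2 : (d2 : K) ≠ 0 := Int.cast_ne_zero.2 hd2
  rw [map_mul, map_mul, hC, hC, hp1, hp2, hrs]
  by_cases h3 : aeval g s = 0
  · rw [h3]
    simp
  · field_simp

theorem exists_model {K : Type} [Field K] [CharZero K] {g : K} (hg : Transcendental ℚ g)
    (hK : FiniteDimensional (IntermediateField.adjoin ℚ {g}) K) :
    ∃ (θ : K) (f : ℤ[X][X]), Model g θ f := by
  let E := IntermediateField.adjoin ℚ {g}
  have hK' : FiniteDimensional E K := hK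
  have hgE : g ∈ E := IntermediateField.mem_adjoin_simple_self ℚ g
  have hmem : ∀ P : ℤ[X], ev g P ∈ E := by
    intro P
    have h1 : ev g P = aeval g (P.map (algebraMap ℤ ℚ)) := by
      rw [ev_apply, aeval_map_algebraMap]
    rw [h1]
    exact IntermediateField.algebra_adjoin_le_adjoin ℚ {g}
      (aeval_mem_adjoin_singleton ℚ g)
  have hinj : Function.Injective (ev g) := by
    rw [injective_iff_map_eq_zero]
    intro P hP
    have h1 : ev g P = aeval g (P.map (algebraMap ℤ ℚ)) := by
      rw [ev_apply, aeval_map_algebraMap]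
    rw [h1] at hP
    have h2 := (transcendental_iff.1 hg) _ hP
    exact (Polynomial.map_eq_zero_iff (algebraMap ℤ ℚ).injective_int).1 h2
  let evE : ℤ[X] →+* E := (ev g).codRestrict E.toSubring hmem
  let _ : Algebra ℤ[X] E := evE.toAlgebra
  let _ : Algebra ℤ[X] K := (ev g).toAlgebra
  have htw : IsScalarTower ℤ[X] E K := IsScalarTower.of_algebraMap_eq fun _ => rfl
  have hamE : ∀ x : ℤ[X], ((algebraMap ℤ[X] E x : E) : K) = ev g x := fun _ => rfl
  have hamK : ∀ x : ℤ[X], algebraMap ℤ[X] K x = ev g x := fun _ => rfl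
  have hinjE : Function.Injective (algebraMap ℤ[X] E) := by
    intro a b hab
    apply hinj
    rw [← hamE, ← hamE, hab]
  have hfsE : FaithfulSMul ℤ[X] E := (faithfulSMul_iff_algebraMap_injective ℤ[X] E).2 hinjE
  have hfsK : FaithfulSMul ℤ[X] K := (faithfulSMul_iff_algebraMap_injective ℤ[X] K).2 hinj
  have hfrac : IsFractionRing ℤ[X] E := by
    apply IsFractionRing.of_field ℤ[X] E
    intro z
    obtain ⟨x, y, hxy⟩ := mod_frac (z : K) z.2
    refine ⟨x, y, ?_⟩
    apply Subtype.ext
    exact hxy
  obtain ⟨θ0, hθ0⟩ := Field.exists_primitive_element E K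
  have halg : Algebra.IsAlgebraic ℤ[X] K :=
    (IsFractionRing.comap_isAlgebraic_iff (A := ℤ[X]) (K := E) (C := K)).2 inferInstance
  obtain ⟨y, hy0, hy⟩ := (halg.isAlgebraic θ0).exists_integral_multiple
  have hy0' : ev g y ≠ 0 := by
    intro h
    apply hy0
    apply hinj
    rw [h, map_zero]
  have hθtop : IntermediateField.adjoin E {y • θ0} = ⊤ := by
    rw [eq_top_iff, ← hθ0, IntermediateField.adjoin_simple_le_iff]
    have h1 : θ0 = ((algebraMap ℤ[X] E y)⁻¹ : E) • (y • θ0) := by
      rw [Algebra.smul_def, Algebra.smul_def, hamK]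
      rw [map_inv₀]
      have h2 : algebraMap E K (algebraMap ℤ[X] E y) = ev g y := rfl
      rw [h2, ← mul_assoc, inv_mul_cancel₀ hy0', one_mul]
    have h3 : ((algebraMap ℤ[X] E y)⁻¹ : E) • (y • θ0) ∈ IntermediateField.adjoin E {y • θ0} :=
      (IntermediateField.adjoin E {y • θ0}).smul_mem
        (IntermediateField.mem_adjoin_simple_self E (y • θ0))
    rw [← h1] at h3
    exact h3
  have hmp : minpoly E (y • θ0) = (minpoly ℤ[X] (y • θ0)).map (algebraMap ℤ[X] E) :=
    minpoly.isIntegrallyClosed_eq_field_fractions' E hy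
  have hmon : (minpoly ℤ[X] (y • θ0)).Monic := minpoly.monic hy
  refine ⟨y • θ0, minpoly ℤ[X] (y • θ0), ?_⟩
  exact {
    tr := hg
    monic := hmon
    root := by
      have := minpoly.aeval ℤ[X] (y • θ0)
      rw [aeval_def] at this
      exact this
    top := mod_top hθtop
    deg := by
      have h1 := IntermediateField.adjoin.finrank (K := E) (x := y • θ0)
        (Algebra.IsIntegral.isIntegral _)
      rw [hθtop, IntermediateField.finrank_top', hmp, hmon.natDegree_map] at h1
      first
        | exact h1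
        | exact h1.symm
    pos := minpoly.natDegree_pos hy }

end Pool.Agent.CST
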