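import Pool.Agent.CST.PlE
import Pool.Agent.CST.Mod

/-!
# Zeros, poles, constants

The places with `v(h) < 1` contain `h` and are determined by their centres on the integral closure of
`ℚ[h]`, which are prime ideals containing `h ≠ 0`, so there are finitely many. The element `h` is not a
unit of this integral closure, so it has a zero. An element without poles is rational.
-/

open scoped BigOperators Polynomial
open Polynomial

namespace Pool.Agent.CST

variable {K : Type} [Field K] [CharZero K]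

/-- `h` as an element of `ℚ[h]` -/
private noncomputable def plaA (h : K) : Ah h := ⟨h, Algebra.self_mem_adjoin_singleton ℚ h⟩

/-- `h` as an element of the integral closure -/
private noncomputable def plaB (h : K) : Bh h := algebraMap (Ah h) (Bh h) (plaA h)

private theorem plaB_val (h : K) : ((plaB h : Bh h) : K) = h := rfl

private theorem plaB_ne {h : K} (hh : Transcendental ℚ h) : plaB h ≠ 0 := by
  intro e
  apply hh
  have e' : ((plaB h : Bh h) : K) = 0 := by rw [e]; rfl
  rw [plaB_val] at e'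
  rw [e']
  exact isAlgebraic_zero

omit [CharZero K] in
private theorem pla_mem_of_lt {O : ValuationSubring K} {x : K} (hx : O.valuation x < 1) : x ∈ O :=
  (O.valuation_le_one_iff x).1 hx.le

open Classical in
theorem finite_zeros {h : K} (hh : Transcendental ℚ h)
    (hK : FiniteDimensional (IntermediateField.adjoin ℚ {h}) K) :
    {O : ValuationSubring K | IsPl O ∧ O.valuation h < 1}.Finite := by
  have := bh_dedekind hh hK
  have hex : ∀ O : ValuationSubring K, IsPl O ∧ O.valuation h < 1 →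
      ∃ P : Ideal (Bh h), P.IsPrime ∧ P ≠ ⊥ ∧
        ∀ b : Bh h, O.valuation (b : K) < 1 ↔ b ∈ P := fun O hO =>
    exists_center hh hK hO.1 (pla_mem_of_lt hO.2)
  set Φ : ValuationSubring K → Ideal (Bh h) := fun O =>
    if hO : IsPl O ∧ O.valuation h < 1 then (hex O hO).choose else ⊥ with hΦ
  have hΦs : ∀ O, IsPl O ∧ O.valuation h < 1 → (Φ O).IsPrime ∧ Φ O ≠ ⊥ ∧
      ∀ b : Bh h, O.valuation (b : K) < 1 ↔ b ∈ Φ O := by
    intro O hO
    simp only [hΦ, dif_pos hO]
    exact (hex O hO).choose_spec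
  have hfin : {v : IsDedekindDomain.HeightOneSpectrum (Bh h) |
      v.asIdeal ∣ Ideal.span {plaB h}}.Finite := by
    apply Ideal.finite_factors
    rw [Ne, Ideal.zero_eq_bot, Ideal.span_singleton_eq_bot]
    exact plaB_ne hh
  refine Set.Finite.of_finite_image (f := Φ) ((hfin.image fun v => v.asIdeal).subset ?_) ?_
  · rintro _ ⟨O, hO, rfl⟩
    obtain ⟨h1, h2, h3⟩ := hΦs O hO
    refine ⟨⟨Φ O, h1, h2⟩, ?_, rfl⟩
    change Φ O ∣ Ideal.span {plaB h}
    rw [Ideal.dvd_span_singleton, ← h3]
    rw [plaB_val]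
    exact hO.2
  · intro O hO O' hO' e
    obtain ⟨-, -, h3⟩ := hΦs O hO
    obtain ⟨-, -, h3'⟩ := hΦs O' hO'
    refine place_unique hh hK hO.1 hO'.1 (pla_mem_of_lt hO.2) (pla_mem_of_lt hO'.2) fun b => ?_
    rw [h3, h3', e]

private theorem pla_not_unit {h : K} (hh : Transcendental ℚ h) : ¬ IsUnit (plaB h) := by
  intro hu
  have hi : Function.Injective (algebraMap (Ah h) (Bh h)) := by
    intro a b e
    have e' : ((algebraMap (Ah h) (Bh h) a : Bh h) : K) = ((algebraMap (Ah h) (Bh h) b : Bh h) : K) :=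
      by rw [e]
    exact Subtype.ext e'
  have : IsLocalHom (algebraMap (Ah h) (Bh h)) :=
    (algebraMap_isIntegral_iff.2 inferInstance).isLocalHom hi
  have hA : IsUnit (plaA h) := isUnit_of_map_unit (algebraMap (Ah h) (Bh h)) _ hu
  obtain ⟨u, hu⟩ := isUnit_iff_exists_inv.1 hA
  have hu' : h * (u : K) = 1 := congrArg Subtype.val hu
  have hu2 : (u : K) ∈ (aeval h : ℚ[X] →ₐ[ℚ] K).range := by
    rw [← Algebra.adjoin_singleton_eq_range_aeval]
    exact u.2
  obtain ⟨p, hp⟩ := hu2
  apply hh
  refine ⟨X * p - 1, ?_, ?_⟩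
  · intro e
    have := congrArg (Polynomial.eval 0) e
    simp at this
  · have hp' : aeval h p = (u : K) := hp
    rw [map_sub, map_mul, aeval_X, hp', hu', map_one, sub_self]

theorem exists_zero {h : K} (hh : Transcendental ℚ h)
    (hK : FiniteDimensional (IntermediateField.adjoin ℚ {h}) K) :
    ∃ O : ValuationSubring K, IsPl O ∧ O.valuation h < 1 := by
  obtain ⟨P, hP, hPh⟩ := exists_max_ideal_of_mem_nonunits (pla_not_unit hh)
  have hP0 : P ≠ ⊥ := by
    rintro rfl
    exact plaB_ne hh ((Submodule.mem_bot _).1 hPh)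
  obtain ⟨O, hO, hb⟩ := exists_place hh hK P hP.isPrime hP0
  exact ⟨O, hO, ((hb (plaB h)).2).2 hPh⟩

private theorem pla_inv {h : K} (hh : Transcendental ℚ h) : Transcendental ℚ h⁻¹ := by
  intro e
  exact hh (IsAlgebraic.inv_iff.1 e)

private theorem pla_rat {O : ValuationSubring K} (hO : IsPl O) {q : ℚ} (hq : (q : K) ≠ 0) :
    O.valuation (q : K) = 1 := by
  have h1 : O.valuation (q : K) ≤ 1 := (O.valuation_le_one_iff _).2 (hO.2 q)
  have h2 : O.valuation ((q : K)⁻¹) ≤ 1 := (O.valuation_le_one_iff _).2 (by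
    have := hO.2 q⁻¹
    rwa [Rat.cast_inv] at this)
  rw [map_inv₀] at h2
  have h3 : O.valuation (q : K) ≠ 0 := (O.valuation.ne_zero_iff).2 hq
  exact le_antisymm h1 ((inv_le_one₀ (zero_lt_iff.2 h3)).1 h2)

omit [CharZero K] in
private theorem pla_inv_lt {O : ValuationSubring K} {h : K}
    (hv : ¬ O.valuation h ≤ 1) : O.valuation h⁻¹ < 1 := by
  rw [map_inv₀]
  exact inv_lt_one_of_one_lt₀ (not_le.1 hv)

theorem finite_supp (hc : Cst K) {g : K}
    (hK : FiniteDimensional (IntermediateField.adjoin ℚ {g}) K) {h : K} (h0 : h ≠ 0) :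
    {O : ValuationSubring K | IsPl O ∧ O.valuation h ≠ 1}.Finite := by
  by_cases ha : IsAlgebraic ℚ h
  · obtain ⟨q, hq⟩ := hc h ha
    refine Set.Finite.subset Set.finite_empty ?_
    rintro O ⟨hO, hv⟩
    apply hv
    rw [← hq]
    exact pla_rat hO (by rw [hq]; exact h0)
  · have hh : Transcendental ℚ h := ha
    refine ((finite_zeros hh (finite_of_transcendental hK hh)).union
      (finite_zeros (pla_inv hh) (finite_of_transcendental hK (pla_inv hh)))).subset ?_
    rintro O ⟨hO, hv⟩
    by_cases hle : O.valuation h ≤ 1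
    · exact Or.inl ⟨hO, lt_of_le_of_ne hle hv⟩
    · exact Or.inr ⟨hO, pla_inv_lt hle⟩

theorem rat_of_mem (hc : Cst K) {g : K}
    (hK : FiniteDimensional (IntermediateField.adjoin ℚ {g}) K) {h : K}
    (H : ∀ O : ValuationSubring K, IsPl O → h ∈ O) : ∃ q : ℚ, (q : K) = h := by
  by_cases ha : IsAlgebraic ℚ h
  · exact hc h ha
  · have hh : Transcendental ℚ h := ha
    obtain ⟨O, hO, hv⟩ := exists_zero (pla_inv hh) (finite_of_transcendental hK (pla_inv hh))
    have h1 : O.valuation h ≤ 1 := (O.valuation_le_one_iff _).2 (H O hO)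
    have h0 : h ≠ 0 := by
      rintro rfl
      exact hh isAlgebraic_zero
    have h3 : O.valuation h ≠ 0 := (O.valuation.ne_zero_iff).2 h0
    rw [map_inv₀] at hv
    exact absurd hv (not_lt.2 ((one_le_inv₀ (zero_lt_iff.2 h3)).2 h1))

end Pool.Agent.CST
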