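import Pool.Agent.CST.Defs
import Pool.Agent.Helper11.CGen

/-!
# `{g, Φ_n(g)} = 0`

`sy g (g ^ n - 1) = 0` in `K₂ ⊗ ℚ`: `n • sy g (1 - g ^ n) = sy (g ^ n) (1 - g ^ n) = 0`, and `sy g (-1) = 0`. Since
`X ^ n - 1 = ∏ d ∈ n.divisors, cyclotomic d`, strong induction on `n`.
-/

open scoped BigOperators Polynomial
open Polynomial

namespace Pool.Agent.CST

open Pool.Agent.Helper11

variable {K : Type} [Field K] [CharZero K]

private theorem Cyc_neg_one (g : Kˣ) : sy g (-1) = 0 := by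
  have h := sy_zpow_right g (-1) 2
  have e : (-1 : Kˣ) ^ (2 : ℤ) = 1 := by
    rw [zpow_ofNat, neg_one_sq]
  rw [e, sy_one_right] at h
  exact (smul_eq_zero.1 h.symm).resolve_left (by norm_num)

private theorem Cyc_pow (g : Kˣ) {n : ℕ} (hn : 0 < n) (w : Kˣ) (hw : (w : K) = (g : K) ^ n - 1) :
    sy g w = 0 := by
  have e : w = (-1) * (-w) := by
    rw [neg_mul_neg, one_mul]
  have h1 : ((g ^ (n : ℤ) : Kˣ) : K) + ((-w : Kˣ) : K) = 1 := by
    rw [Units.val_neg, hw, zpow_natCast, Units.val_pow_eq_pow_val]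
    ring
  have h2 := sy_steinberg h1
  rw [sy_zpow_left] at h2
  have h3 : sy g (-w) = 0 := (smul_eq_zero.1 h2).resolve_left (by
    rw [Int.cast_natCast]
    exact_mod_cast hn.ne')
  rw [e, sy_mul_right, Cyc_neg_one, h3, add_zero]

theorem sy_cyclotomic (g : Kˣ) (hg : Transcendental ℚ (g : K)) {n : ℕ} (hn : 0 < n) (u : Kˣ)
    (hu : (u : K) = aeval (g : K) (cyclotomic n ℚ)) : sy g u = 0 := by
  have hne : ∀ d : ℕ, aeval (g : K) (cyclotomic d ℚ) ≠ 0 := fun d h =>
    cyclotomic_ne_zero d ℚ ((transcendental_iff.1 hg) _ h)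
  induction n using Nat.strong_induction_on generalizing u with
  | _ n ih =>
    have h1 : u = Units.mk0 _ (hne n) := Units.ext hu
    have h2 : (((∏ d ∈ n.divisors, Units.mk0 _ (hne d) : Kˣ)) : K) = (g : K) ^ n - 1 := by
      rw [Units.coe_prod]
      have h3 := congrArg (aeval (g : K)) (prod_cyclotomic_eq_X_pow_sub_one hn ℚ)
      rw [map_prod, map_sub, map_pow, aeval_X, map_one] at h3
      rw [← h3]
      rfl
    have h4 := Cyc_pow g hn _ h2
    rw [sy_prod_right, Finset.sum_eq_single_of_mem n (Nat.mem_divisors_self n hn.ne')] at h4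
    · rw [h1]
      exact h4
    · intro d hd hdn
      have hd' := Nat.mem_divisors.1 hd
      have hpos : 0 < d := Nat.pos_of_dvd_of_pos hd'.1 hn
      exact ih d (lt_of_le_of_ne (Nat.le_of_dvd hn hd'.1) hdn) hpos _ rfl

theorem sy_neg_one (g : Kˣ) : sy g (-1) = 0 := Cyc_neg_one g

end Pool.Agent.CST
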