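import Pool.Agent.CST.Defs
import Pool.Agent.Helper11.Tame

/-!
# The order of a function at a closed point

`vo O h` is the order of `h` at `O` (zero if `O` is not a closed point).

`vo` is defined by choice from `exists_ord` (Helper11.Tame) for the discrete valuation ring `O`.
-/

open scoped BigOperators Polynomial
open Polynomial

namespace Pool.Agent.CST

open Pool.Agent.Helper11

variable {K : Type} [Field K] [CharZero K]

open Classical in
/-- the order of `h` at the closed point `O` -/
noncomputable def vo (O : ValuationSubring K) (h : Kˣ) : ℤ :=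
  if H : IsPl O then
    haveI := H.1
    (exists_ord O).choose_spec.choose h
  else 0

private theorem ord_spec {O : ValuationSubring K} (hO : IsPl O) : ∃ p : Kˣ, IsOrd O p (vo O) := by
  have := hO.1
  refine ⟨(exists_ord O).choose, ?_⟩
  have h : vo O = (exists_ord O).choose_spec.choose := by
    funext h
    unfold vo
    rw [dif_pos hO]
  rw [h]
  exact (exists_ord O).choose_spec.choose_spec

theorem vo_mul (O : ValuationSubring K) (h k : Kˣ) : vo O (h * k) = vo O h + vo O k := by
  by_cases hO : IsPl O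
  · obtain ⟨p, H⟩ := ord_spec hO
    exact H.mul h k
  · unfold vo
    rw [dif_neg hO, dif_neg hO, dif_neg hO, add_zero]

private theorem ord_one (O : ValuationSubring K) : vo O (1 : Kˣ) = 0 := by
  have h := vo_mul O 1 1
  rw [mul_one] at h
  omega

theorem vo_pos_iff {O : ValuationSubring K} (hO : IsPl O) (h : Kˣ) :
    0 < vo O h ↔ O.valuation (h : K) < 1 := by
  obtain ⟨p, H⟩ := ord_spec hO
  have h1 := H.lt_iff h 1
  rw [ord_one, Units.val_one, map_one] at h1
  exact h1.symm

theorem vo_nonneg_iff {O : ValuationSubring K} (hO : IsPl O) (h : Kˣ) :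
    0 ≤ vo O h ↔ (h : K) ∈ O := by
  obtain ⟨p, H⟩ := ord_spec hO
  have h1 := H.le_iff h 1
  rw [ord_one, Units.val_one, map_one, O.valuation_le_one_iff] at h1
  exact h1.symm

private theorem ord_eq {O : ValuationSubring K} (hO : IsPl O) {h k : Kˣ}
    (hv : O.valuation (h : K) = O.valuation (k : K)) : vo O h = vo O k := by
  obtain ⟨p, H⟩ := ord_spec hO
  have h1 := (H.le_iff h k).1 hv.le
  have h2 := (H.le_iff k h).1 hv.ge
  omega

theorem vo_eq_zero_iff {O : ValuationSubring K} (hO : IsPl O) (h : Kˣ) :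
    vo O h = 0 ↔ O.valuation (h : K) = 1 := by
  constructor
  · intro h0
    have h1 : O.valuation (h : K) ≤ 1 :=
      (O.valuation_le_one_iff _).2 ((vo_nonneg_iff hO h).1 h0.ge)
    refine le_antisymm h1 (not_lt.1 fun h2 => ?_)
    have h3 := (vo_pos_iff hO h).2 h2
    omega
  · intro h1
    rw [← ord_one O]
    refine ord_eq hO ?_
    rw [h1, Units.val_one, map_one]

private theorem ord_pow (O : ValuationSubring K) (h : Kˣ) (n : ℕ) :
    vo O (h ^ n) = n * vo O h := by
  induction n with
  | zero => rw [pow_zero, ord_one, Nat.cast_zero, zero_mul]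
  | succ n ih =>
    rw [pow_succ, vo_mul, ih]
    push_cast
    ring

theorem vo_zpow (O : ValuationSubring K) (h : Kˣ) (n : ℤ) : vo O (h ^ n) = n * vo O h := by
  have h2 : ∀ k : Kˣ, vo O k⁻¹ = -vo O k := by
    intro k
    have h := vo_mul O k k⁻¹
    rw [mul_inv_cancel, ord_one] at h
    omega
  obtain ⟨m, rfl | rfl⟩ := Int.eq_nat_or_neg n
  · rw [zpow_natCast, ord_pow]
  · rw [zpow_neg, zpow_natCast, h2, ord_pow]
    ring

theorem vo_prod (O : ValuationSubring K) {ι : Type} (s : Finset ι) (h : ι → Kˣ) :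
    vo O (∏ i ∈ s, h i) = ∑ i ∈ s, vo O (h i) := by
  classical
  induction s using Finset.induction_on with
  | empty => rw [Finset.prod_empty, Finset.sum_empty, ord_one]
  | insert i s hi ih => rw [Finset.prod_insert hi, Finset.sum_insert hi, vo_mul, ih]

theorem vo_uniform {O : ValuationSubring K} (hO : IsPl O) {p : Kˣ}
    (hp : O.valuation (p : K) < 1)
    (H : ∀ x : K, O.valuation x < 1 → O.valuation x ≤ O.valuation (p : K)) : vo O p = 1 := by
  obtain ⟨t, Ht⟩ := ord_spec hO
  have h1 : vo O t = 1 := by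
    apply Ht.zpow_inj
    rw [← Ht.eq t, zpow_one]
  have h2 := (Ht.le_iff t p).1 (H _ Ht.lt)
  have h3 := (vo_pos_iff hO p).2 hp
  omega

private theorem ord_rat {O : ValuationSubring K} (hO : IsPl O) (q : ℚ) :
    O.valuation (q : K) ≤ 1 := (O.valuation_le_one_iff _).2 (hO.2 q)

theorem vo_ph_neg {O : ValuationSubring K} (hO : IsPl O) {g u : Kˣ} {n : ℕ} (hn : 0 < n)
    (hg : vo O g < 0) (hu : (u : K) = aeval (g : K) (cyclotomic n ℚ)) :
    vo O u = n.totient * vo O g := by
  have _ := hn
  have hg1 : 1 < O.valuation (g : K) := by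
    by_contra h
    have h1 := (vo_nonneg_iff hO g).2 ((O.valuation_le_one_iff _).1 (not_lt.1 h))
    omega
  have hg0 : O.valuation (g : K) ≠ 0 := (zero_lt_one.trans hg1).ne'
  rw [← ord_pow]
  refine ord_eq hO ?_
  have hlc : (cyclotomic n ℚ).coeff n.totient = 1 := by
    have h := cyclotomic.monic n ℚ
    rw [Monic, leadingCoeff, natDegree_cyclotomic] at h
    exact h
  rw [hu, aeval_eq_sum_range, natDegree_cyclotomic, Finset.sum_range_succ, hlc, one_smul,
    Units.val_pow_eq_pow_val]
  refine Valuation.map_add_eq_of_lt_right O.valuation ?_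
  rw [map_pow]
  refine Valuation.map_sum_lt _ (pow_ne_zero _ hg0) ?_
  intro i hi
  rw [Finset.mem_range] at hi
  rw [Rat.smul_def, map_mul, map_pow]
  calc O.valuation (((cyclotomic n ℚ).coeff i : ℚ) : K) * O.valuation (g : K) ^ i
      ≤ 1 * O.valuation (g : K) ^ i := mul_le_mul' (ord_rat hO _) le_rfl
    _ = O.valuation (g : K) ^ i := one_mul _
    _ < O.valuation (g : K) ^ n.totient := pow_lt_pow_right₀ hg1 hi

theorem vo_ph_nonneg {O : ValuationSubring K} (hO : IsPl O) {g u : Kˣ} {n : ℕ}
    (hg : 0 ≤ vo O g) (hu : (u : K) = aeval (g : K) (cyclotomic n ℚ)) : 0 ≤ vo O u := by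
  have hg1 := (vo_nonneg_iff hO g).1 hg
  refine (vo_nonneg_iff hO u).2 ?_
  rw [hu, aeval_eq_sum_range]
  refine sum_mem fun i _ => ?_
  rw [Rat.smul_def]
  exact mul_mem (hO.2 _) (pow_mem hg1 i)

theorem vo_ph_pos {O : ValuationSubring K} (hO : IsPl O) {g u : Kˣ} {n : ℕ} (hn : 0 < n)
    (hg : 0 < vo O g) (hu : (u : K) = aeval (g : K) (cyclotomic n ℚ)) : vo O u = 0 := by
  have hg1 := (vo_pos_iff hO g).1 hg
  rw [vo_eq_zero_iff hO]
  have h0 : O.valuation ((cyclotomic n ℚ).coeff 0 • (g : K) ^ 0) = 1 := by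
    rw [pow_zero, Rat.smul_def, mul_one]
    rcases Nat.lt_or_ge 1 n with h1 | h1
    · rw [cyclotomic_coeff_zero ℚ h1, Rat.cast_one, map_one]
    · have h2 : n = 1 := by omega
      rw [h2, cyclotomic_one, coeff_sub, coeff_X_zero, coeff_one_zero, zero_sub, Rat.cast_neg,
        Rat.cast_one, Valuation.map_neg, map_one]
  rw [hu, aeval_eq_sum_range, Finset.sum_range_succ', Valuation.map_add_eq_of_lt_right O.valuation ?_, h0]
  rw [h0]
  refine Valuation.map_sum_lt _ one_ne_zero ?_
  intro i _
  rw [Rat.smul_def, map_mul, map_pow]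
  calc O.valuation (((cyclotomic n ℚ).coeff (i + 1) : ℚ) : K) * O.valuation (g : K) ^ (i + 1)
      ≤ 1 * O.valuation (g : K) ^ (i + 1) := mul_le_mul' (ord_rat hO _) le_rfl
    _ = O.valuation (g : K) ^ (i + 1) := one_mul _
    _ < 1 := pow_lt_one₀ zero_le hg1 (Nat.succ_ne_zero i)

end Pool.Agent.CST
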