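import Pool.Agent.CST.Defs
import Pool.Agent.ISI.TamB

/-!
# Tame symbols of `{g, h}`

At a place `O` where `g` is a unit an unramified symbol `{g, h}` has `ord h • χ g = 0` (`exists_tameT`), so `h` is
a unit or `g` is a root of unity in the residue field; a constant `c` with `{g, c}` unramified at a zero of `g` is
`1` or `-1`. If `g` is a root of unity in the residue field, `O` lies over `Φ_n(g)` for exactly one `n`.
-/

open scoped BigOperators Polynomial
open Polynomial

namespace Pool.Agent.CST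

open Pool.Agent.Helper11 Pool.Agent.ISI

variable {K : Type} [Field K] [CharZero K]

theorem val_or_torsion {O : ValuationSubring K} (hO : IsPl O) {g h : Kˣ}
    (hz : sy g h ∈ unrM O 2) (hg : O.valuation (g : K) = 1) :
    O.valuation (h : K) = 1 ∨ ∃ m : ℕ, 0 < m ∧ O.valuation ((g : K) ^ m - 1) < 1 := by
  have hdvr := hO.1
  obtain ⟨V, _, _, χ, τ, ord, p, hord, h1, h2, h3⟩ := exists_tameT O
  have hgu : g ∈ O.unitGroup := (O.mem_unitGroup_iff g).2 hg
  have h4 := h2 _ hz
  rw [sy_anti, map_neg, neg_eq_zero, h1 h g hgu] at h4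
  rcases smul_eq_zero.1 h4 with h5 | h5
  · left
    exact (hord.eq_one_iff h).2 (by exact_mod_cast h5)
  · right
    obtain ⟨m, hm, h6⟩ := h3 g hgu h5
    exact ⟨m, Nat.pos_of_ne_zero hm, h6⟩

private theorem Tam_rat {O : ValuationSubring K} (hO : IsPl O) {c : ℚ} (hc : c ≠ 0) :
    O.valuation (c : K) = 1 := by
  refine le_antisymm ((O.valuation_le_one_iff _).2 (hO.2 c)) ?_
  have h1 := (O.valuation_le_one_iff _).2 (hO.2 c⁻¹)
  rw [Rat.cast_inv, map_inv₀] at h1
  have h2 : (0 : _) < O.valuation (c : K) := by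
    rw [zero_lt_iff]
    exact (Valuation.ne_zero_iff _).2 (by exact_mod_cast hc)
  rwa [inv_le_one₀ h2] at h1

theorem const_eq {O : ValuationSubring K} (hO : IsPl O) {g u : Kˣ} {c : ℚ} (hu : (u : K) = c)
    (hz : sy g u ∈ unrM O 2) (hg : O.valuation (g : K) < 1) : u = 1 ∨ u = -1 := by
  have hdvr := hO.1
  obtain ⟨V, _, _, χ, τ, ord, p, hord, h1, h2, h3⟩ := exists_tameT O
  have hc : c ≠ 0 := by
    rintro rfl
    exact u.ne_zero (by rw [hu, Rat.cast_zero])
  have huu : u ∈ O.unitGroup := (O.mem_unitGroup_iff u).2 (by rw [hu]; exact Tam_rat hO hc)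
  have h4 := h2 _ hz
  rw [h1 g u huu] at h4
  have h5 : 0 < ord g := (hord.lt_one_iff g).1 hg
  have h6 : χ u = 0 := by
    rcases smul_eq_zero.1 h4 with h6 | h6
    · exfalso
      have h7 : ord g = 0 := by exact_mod_cast h6
      omega
    · exact h6
  obtain ⟨m, hm, h7⟩ := h3 u huu h6
  have h8 : c ^ m = 1 := by
    by_contra hne
    have h9 := Tam_rat hO (sub_ne_zero.2 hne)
    rw [Rat.cast_sub, Rat.cast_pow, Rat.cast_one, ← hu] at h9
    rw [h9] at h7
    exact lt_irrefl _ h7
  rcases (pow_eq_one_iff_cases.1 h8) with h9 | h9 | h9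
  · exact absurd h9 hm
  · left
    apply Units.ext
    rw [hu, h9, Rat.cast_one, Units.val_one]
  · right
    apply Units.ext
    rw [hu, h9.1, Rat.cast_neg, Rat.cast_one, Units.val_neg, Units.val_one]

/-- the inclusion of the rational numbers -/
private noncomputable def Tam_inc {O : ValuationSubring K} (hO : IsPl O) : ℚ →+* O where
  toFun q := ⟨q, hO.2 q⟩
  map_one' := Subtype.ext Rat.cast_one
  map_mul' _ _ := Subtype.ext (Rat.cast_mul _ _)
  map_zero' := Subtype.ext Rat.cast_zero
  map_add' _ _ := Subtype.ext (Rat.cast_add _ _)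

private theorem Tam_eval {O : ValuationSubring K} (hO : IsPl O) {g : K} (hg : g ∈ O) (P : ℚ[X]) :
    ((P.eval₂ (Tam_inc hO) ⟨g, hg⟩ : O) : K) = aeval g P := by
  have h1 := Polynomial.hom_eval₂ P (Tam_inc hO) O.subtype ⟨g, hg⟩
  have h2 : O.subtype.comp (Tam_inc hO) = algebraMap ℚ K := RingHom.ext_rat _ _
  rw [h2] at h1
  rw [aeval_def]
  exact h1

/-- if `g` is a root of unity in the residue field, then `O` lies over some `Φ_n(g)` -/
theorem exists_cyclotomic {O : ValuationSubring K} (hO : IsPl O) {g : K} (hg : g ∈ O) {m : ℕ}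
    (hm : 0 < m) (h : O.valuation (g ^ m - 1) < 1) :
    ∃ n : ℕ, 0 < n ∧ O.valuation (aeval g (cyclotomic n ℚ)) < 1 := by
  by_contra hne
  push Not at hne
  have h1 : g ^ m - 1 = ∏ d ∈ m.divisors, aeval g (cyclotomic d ℚ) := by
    rw [← map_prod, prod_cyclotomic_eq_X_pow_sub_one hm]
    simp
  rw [h1, map_prod, Finset.prod_eq_one] at h
  · exact lt_irrefl _ h
  · intro d hd
    refine le_antisymm ?_ (hne d (Nat.pos_of_mem_divisors hd))
    rw [← Tam_eval hO hg]
    exact (O.valuation_le_one_iff _).2 (Subtype.property _)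

/-- `g` is a primitive `n`-th root of unity in the residue field for at most one `n` -/
theorem cyclotomic_unique {O : ValuationSubring K} (hO : IsPl O) {g : K} (hg : g ∈ O) {m n : ℕ}
    (hm : 0 < m) (hn : 0 < n) (h1 : O.valuation (aeval g (cyclotomic m ℚ)) < 1)
    (h2 : O.valuation (aeval g (cyclotomic n ℚ)) < 1) : m = n := by
  let ρ := IsLocalRing.residue O
  have hch : CharZero (IsLocalRing.ResidueField O) :=
    charZero_of_injective_ringHom (ρ.comp (Tam_inc hO)).injective
  have key : ∀ k : ℕ, 0 < k → O.valuation (aeval g (cyclotomic k ℚ)) < 1 →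
      IsPrimitiveRoot (ρ ⟨g, hg⟩) k := by
    intro k hk h
    have hk' : NeZero (k : IsLocalRing.ResidueField O) := ⟨by exact_mod_cast hk.ne'⟩
    rw [← Tam_eval hO hg, ← O.valuation_lt_one_iff] at h
    have h3 : ρ ((cyclotomic k ℚ).eval₂ (Tam_inc hO) ⟨g, hg⟩) = 0 :=
      (IsLocalRing.residue_eq_zero_iff _).2 h
    rw [Polynomial.hom_eval₂, eval₂_eq_eval_map, map_cyclotomic] at h3
    exact isRoot_cyclotomic_iff.1 h3
  exact (key m hm h1).unique (key n hn h2)

end Pool.Agent.CST
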