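import Pool.Agent.CST.PlF
import Pool.Agent.CST.PlA
import Pool.Agent.CST.Ord
import Pool.Agent.CST.Cyc
import Pool.Agent.CST.Tam

/-!
# `{g, h}` vanishes if `h` is a unit at the finitely many special points

Section 4 of /team-store/cst97.md. `h` is multiplied by powers of the values of cyclotomic polynomials at `g` and
by a power of `g` until its order is `0` at all closed points; it is then a rational number, equal to
`1` or `-1` by the tame symbol at a zero of `g`.
-/

open scoped BigOperators Polynomial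
open Polynomial

namespace Pool.Agent.CST

open Pool.Agent.Helper11 Pool.Agent.ISI

variable {K : Type} [Field K] [CharZero K]

/-- the elements of `K₂(K) ⊗ ℚ` unramified at all closed points -/
noncomputable def geomM (K : Type) [Field K] [CharZero K] : Submodule ℚ (KMQ K 2) :=
  ⨅ (O : ValuationSubring K) (_ : IsPl O), unrM O 2

/-- the special points: zeros and poles of `g`, and the points where `g` is a root of unity of order
`< n₀` -/
def Spc (g : Kˣ) (n₀ : ℕ) (O : ValuationSubring K) : Prop :=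
  IsPl O ∧ (O.valuation (g : K) ≠ 1 ∨
    ∃ n, 0 < n ∧ n < n₀ ∧ O.valuation (aeval (g : K) (cyclotomic n ℚ)) < 1)

theorem spc_finite (hc : Cst K) {g : Kˣ} (hg : Transcendental ℚ (g : K))
    (hK : FiniteDimensional (IntermediateField.adjoin ℚ {(g : K)}) K) (n₀ : ℕ) :
    {O : ValuationSubring K | Spc g n₀ O}.Finite := by
  have hne : ∀ n, aeval (g : K) (cyclotomic n ℚ) ≠ 0 := fun n h =>
    cyclotomic_ne_zero n ℚ ((transcendental_iff.1 hg) _ h)
  have h1 : ({O : ValuationSubring K | IsPl O ∧ O.valuation (g : K) ≠ 1} ∪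
      ⋃ n ∈ Finset.range n₀, {O : ValuationSubring K | IsPl O ∧
        O.valuation (aeval (g : K) (cyclotomic n ℚ)) ≠ 1}).Finite := by
    refine Set.Finite.union (finite_supp hc hK g.ne_zero) ?_
    exact (Finset.range n₀).finite_toSet.biUnion fun n _ => finite_supp hc hK (hne n)
  refine h1.subset ?_
  rintro O ⟨hO, h2 | ⟨n, -, hn, h2⟩⟩
  · exact Or.inl ⟨hO, h2⟩
  · refine Or.inr ?_
    rw [Set.mem_iUnion₂]
    exact ⟨n, Finset.mem_range.2 hn, hO, h2.ne⟩

private theorem red_inv (O : ValuationSubring K) (h : Kˣ) : vo O h⁻¹ = -vo O h := by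
  have h1 := vo_zpow O h (-1)
  rw [zpow_neg_one] at h1
  rw [h1]
  ring

/-- a rational unit has order zero -/
private theorem red_rat {O : ValuationSubring K} (hO : IsPl O) {z : Kˣ} {q : ℚ}
    (h : (q : K) = z) : vo O z = 0 := by
  have h1 : 0 ≤ vo O z := by
    rw [vo_nonneg_iff hO, ← h]
    exact hO.2 q
  have h2 : 0 ≤ vo O z⁻¹ := by
    rw [vo_nonneg_iff hO, Units.val_inv_eq_inv_val, ← h, ← Rat.cast_inv]
    exact hO.2 q⁻¹
  rw [red_inv] at h2
  omega

theorem sy_eq_zero (hc : Cst K) {g : Kˣ} (hg : Transcendental ℚ (g : K))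
    (hK : FiniteDimensional (IntermediateField.adjoin ℚ {(g : K)}) K) {n₀ : ℕ} (hn₀ : 0 < n₀)
    (H : ∀ n, n₀ ≤ n → ∃ O : ValuationSubring K, IsPl O ∧
      O.valuation (aeval (g : K) (cyclotomic n ℚ)) < 1 ∧
      (∀ O' : ValuationSubring K, IsPl O' →
        O'.valuation (aeval (g : K) (cyclotomic n ℚ)) < 1 → O' = O) ∧
      ∀ x : K, O.valuation x < 1 → O.valuation x ≤ O.valuation (aeval (g : K) (cyclotomic n ℚ)))
    {h : Kˣ} (hh : sy g h ∈ geomM K) (h0 : ∀ O, Spc g n₀ O → vo O h = 0) : sy g h = 0 := by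
  classical
  have hunr : ∀ O : ValuationSubring K, IsPl O → sy g h ∈ unrM O 2 := by
    intro O hO
    unfold geomM at hh
    rw [Submodule.mem_iInf] at hh
    have h1 := hh O
    rw [Submodule.mem_iInf] at h1
    exact h1 hO
  have hne : ∀ n, aeval (g : K) (cyclotomic n ℚ) ≠ 0 := fun n h =>
    cyclotomic_ne_zero n ℚ ((transcendental_iff.1 hg) _ h)
  set u : ℕ → Kˣ := fun n => Units.mk0 _ (hne n) with hu
  have huv : ∀ n, (u n : K) = aeval (g : K) (cyclotomic n ℚ) := fun n => rfl
  choose! On hOn1 hOn2 hOn3 hOn4 using H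
  -- the points where the order of h is not zero
  have hA : ∀ O : ValuationSubring K, IsPl O → vo O h ≠ 0 → ∃ n, n₀ ≤ n ∧ O = On n := by
    intro O hO hv
    have hns : ¬ Spc g n₀ O := fun hs => hv (h0 O hs)
    unfold Spc at hns
    push Not at hns
    obtain ⟨hv1, hv2⟩ := hns hO
    rcases val_or_torsion hO (hunr O hO) hv1 with h2 | ⟨m, hm, h2⟩
    · exact absurd ((vo_eq_zero_iff hO h).2 h2) hv
    · have hgO : (g : K) ∈ O := (O.valuation_le_one_iff _).1 hv1.le
      obtain ⟨n, hn, h3⟩ := exists_cyclotomic hO hgO hm h2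
      have hn0 : n₀ ≤ n := by
        by_contra hcon
        exact absurd h3 (not_lt.2 (hv2 n hn (by omega)))
      exact ⟨n, hn0, hOn3 n hn0 O hO h3⟩
  have hinj : Set.InjOn On {n | n₀ ≤ n} := by
    intro m hm n hn e
    have h1 := hOn1 n hn
    have h2 := hOn2 n hn
    have h3 := hOn2 m hm
    rw [e] at h3
    exact cyclotomic_unique h1 (mem_of_val_lt h1 (by have : n₀ ≤ n := hn; omega) h2)
      (by have : n₀ ≤ m := hm; omega) (by have : n₀ ≤ n := hn; omega) h3 h2
  have hfin : {n | n₀ ≤ n ∧ vo (On n) h ≠ 0}.Finite := by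
    refine Set.Finite.of_finite_image ((finite_supp hc hK h.ne_zero).subset ?_)
      (f := On) (hinj.mono fun n hn => hn.1)
    rintro _ ⟨n, ⟨hn, h1⟩, rfl⟩
    exact ⟨hOn1 n hn, fun h2 => h1 ((vo_eq_zero_iff (hOn1 n hn) h).2 h2)⟩
  set s : Finset ℕ := hfin.toFinset with hs
  have hsm : ∀ n, n ∈ s ↔ n₀ ≤ n ∧ vo (On n) h ≠ 0 := fun n => by
    rw [hs, Set.Finite.mem_toFinset]
    rfl
  set b : ℕ → ℤ := fun n => vo (On n) h with hb
  set h' : Kˣ := h * ∏ n ∈ s, u n ^ (-b n) with hh'
  have hvo : ∀ O, vo O h' = vo O h + ∑ n ∈ s, (-b n) * vo O (u n) := by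
    intro O
    rw [hh', vo_mul, vo_prod]
    congr 1
    exact Finset.sum_congr rfl fun n _ => vo_zpow O _ _
  have hsy : sy g h' = sy g h := by
    rw [hh', sy_mul_right, sy_prod_right, Finset.sum_eq_zero, add_zero]
    intro n hn
    rw [sy_zpow_right, sy_cyclotomic g hg (by have := ((hsm n).1 hn).1; omega) (u n) (huv n),
      smul_zero]
  set r : ℤ := ∑ n ∈ s, (-b n) * (n.totient : ℤ) with hr
  have hspg : ∀ O, IsPl O → vo O g ≠ 0 → vo O h = 0 := fun O hO hv =>
    h0 O ⟨hO, Or.inl fun h1 => hv ((vo_eq_zero_iff hO g).2 h1)⟩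
  -- the order of h'
  have hneg : ∀ O, IsPl O → vo O g < 0 → vo O h' = r * vo O g := by
    intro O hO hv
    rw [hvo, hspg O hO hv.ne, zero_add, hr, Finset.sum_mul]
    refine Finset.sum_congr rfl fun n hn => ?_
    rw [vo_ph_neg hO (by have := ((hsm n).1 hn).1; omega) hv (huv n)]
    ring
  have hpos : ∀ O, IsPl O → 0 < vo O g → vo O h' = 0 := by
    intro O hO hv
    rw [hvo, hspg O hO hv.ne', zero_add]
    refine Finset.sum_eq_zero fun n hn => ?_
    rw [vo_ph_pos hO (by have := ((hsm n).1 hn).1; omega) hv (huv n), mul_zero]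
  have hzer : ∀ O, IsPl O → vo O g = 0 → vo O h' = 0 := by
    intro O hO hv
    have hgO : (g : K) ∈ O := (vo_nonneg_iff hO g).1 hv.ge
    have hun : ∀ n, n₀ ≤ n → vo O (u n) ≠ 0 → O = On n := by
      intro n hn h1
      have h2 := vo_ph_nonneg hO hv.ge (huv n)
      have h3 : O.valuation (u n : K) < 1 := (vo_pos_iff hO _).1 (by omega)
      exact hOn3 n hn O hO h3
    rw [hvo]
    by_cases hex : ∃ m ∈ s, O = On m
    · obtain ⟨m, hm, rfl⟩ := hex
      have hm0 := ((hsm m).1 hm).1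
      have h1 : vo (On m) (u m) = 1 := vo_uniform hO (hOn2 m hm0) (hOn4 m hm0)
      rw [Finset.sum_eq_single m, h1]
      · simp [hb]
      · intro n hn hnm
        have hn0 := ((hsm n).1 hn).1
        have h2 : vo (On m) (u n) = 0 := by
          by_contra h3
          exact hnm (hinj hm0 hn0 (hun n hn0 h3)).symm
        rw [h2, mul_zero]
      · exact fun h2 => absurd hm h2
    · push Not at hex
      have h1 : vo O h = 0 := by
        by_contra h2
        obtain ⟨n, hn, rfl⟩ := hA O hO h2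
        exact hex n ((hsm n).2 ⟨hn, h2⟩) rfl
      rw [h1, zero_add]
      refine Finset.sum_eq_zero fun n hn => ?_
      have h2 : vo O (u n) = 0 := by
        by_contra h3
        exact hex n hn (hun n ((hsm n).1 hn).1 h3)
      rw [h2, mul_zero]
  -- the function z
  set z : Kˣ := h' * g ^ (-r) with hz
  have hvz : ∀ O, vo O z = vo O h' + (-r) * vo O g := fun O => by
    rw [hz, vo_mul, vo_zpow]
  have hvz1 : ∀ O, IsPl O → vo O z = -r * max (vo O g) 0 := by
    intro O hO
    rw [hvz]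
    rcases lt_trichotomy (vo O g) 0 with h1 | h1 | h1
    · rw [hneg O hO h1, max_eq_right h1.le]
      ring
    · rw [hzer O hO h1, h1, max_self]
      ring
    · rw [hpos O hO h1, max_eq_left h1.le]
      ring
  have hzr : ∃ q : ℚ, (q : K) = z := by
    rcases le_total r 0 with h1 | h1
    · refine rat_of_mem hc hK fun O hO => ?_
      rw [← vo_nonneg_iff hO, hvz1 O hO]
      exact mul_nonneg (by omega) (le_max_right _ _)
    · obtain ⟨q, hq⟩ := rat_of_mem hc hK (h := ((z⁻¹ : Kˣ) : K)) fun O hO => by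
        rw [← vo_nonneg_iff hO, red_inv, hvz1 O hO, neg_mul, neg_neg]
        exact mul_nonneg h1 (le_max_right _ _)
      refine ⟨q⁻¹, ?_⟩
      rw [Rat.cast_inv, hq, Units.val_inv_eq_inv_val, inv_inv]
  obtain ⟨q, hq⟩ := hzr
  obtain ⟨O₀, hO₀, hg₀⟩ := exists_zero hg hK
  have hg₁ : 0 < vo O₀ g := (vo_pos_iff hO₀ g).2 hg₀
  have hr0 : r = 0 := by
    have h1 := red_rat hO₀ hq
    rw [hvz1 O₀ hO₀, max_eq_left hg₁.le] at h1
    rcases mul_eq_zero.1 h1 with h2 | h2
    · omega
    · omega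
  have hzh : z = h' := by rw [hz, hr0, neg_zero, zpow_zero, mul_one]
  rw [hzh] at hq
  rw [← hsy]
  rcases const_eq hO₀ hq.symm (by rw [hsy]; exact hunr O₀ hO₀) hg₀ with h1 | h1
  · rw [h1, sy_one_right]
  · rw [h1, sy_neg_one]

end Pool.Agent.CST
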