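import Pool.Agent.CST.Defs

/-!
# Kummer theory: the degree of an `a`-th root

If `F` has a primitive `a`-th root of unity, `γ ^ a = b ∈ F`, `b ≠ 0` and `b` is not a `p`-th power in `F` for any
prime divisor `p` of `a`, then `γ` has degree `a` over `F`. The product of the roots of the minimal polynomial
gives `γ ^ m ∈ F`, `m` the degree.
-/

open scoped BigOperators Polynomial
open Polynomial

namespace Pool.Agent.CST

private theorem Kum_prod {F L : Type} [Field F] [Field L] [Algebra F L] {γ : L} (s : Multiset L)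
    (h : ∀ r ∈ s, ∃ x : F, x ≠ 0 ∧ r = algebraMap F L x * γ) :
    ∃ x : F, x ≠ 0 ∧ s.prod = algebraMap F L x * γ ^ s.card := by
  induction s using Multiset.induction_on with
  | empty => exact ⟨1, one_ne_zero, by simp⟩
  | cons r s ih =>
    obtain ⟨x, hx0, hx⟩ := ih fun r hr => h r (Multiset.mem_cons_of_mem hr)
    obtain ⟨z, hz0, hz⟩ := h r (Multiset.mem_cons_self _ _)
    refine ⟨z * x, mul_ne_zero hz0 hx0, ?_⟩
    rw [Multiset.prod_cons, hx, hz, Multiset.card_cons, map_mul, pow_succ]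
    ring

private theorem Kum_pow {F L : Type} [Field F] [Field L] [Algebra F L] {a : ℕ} (ha : 0 < a) {ξ : F}
    (hξ : IsPrimitiveRoot ξ a) {γ : L} {b : F} (hb : b ≠ 0) (hγ : γ ^ a = algebraMap F L b) :
    ∃ c : F, γ ^ (minpoly F γ).natDegree = algebraMap F L c := by
  have hint : IsIntegral F γ := ⟨X ^ a - C b, monic_X_pow_sub_C b ha.ne', by
    rw [eval₂_sub, eval₂_pow, eval₂_X, eval₂_C, hγ, sub_self]⟩
  have hmon := minpoly.monic hint
  have hdvd : minpoly F γ ∣ X ^ a - C b := minpoly.dvd F γ (by simp [hγ])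
  have hξL : IsPrimitiveRoot (algebraMap F L ξ) a := hξ.map_of_injective (algebraMap F L).injective
  have hγ0 : γ ≠ 0 := by
    rintro rfl
    rw [zero_pow ha.ne'] at hγ
    exact hb ((map_eq_zero (algebraMap F L)).1 hγ.symm)
  have hdvd' : (minpoly F γ).map (algebraMap F L) ∣ X ^ a - C (algebraMap F L b) := by
    have := Polynomial.map_dvd (algebraMap F L) hdvd
    simpa using this
  have hsp : ((minpoly F γ).map (algebraMap F L)).Splits :=
    (X_pow_sub_C_splits_of_isPrimitiveRoot hξL hγ).of_dvd (monic_X_pow_sub_C _ ha.ne').ne_zero hdvd'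
  have hmon' : ((minpoly F γ).map (algebraMap F L)).Monic := hmon.map _
  have hroots : ∀ r ∈ ((minpoly F γ).map (algebraMap F L)).roots, ∃ x : F, x ≠ 0 ∧ r = algebraMap F L x * γ := by
    intro r hr
    have h1 : ((minpoly F γ).map (algebraMap F L)).IsRoot r := (mem_roots hmon'.ne_zero).1 hr
    have h2 : (X ^ a - C (algebraMap F L b)).IsRoot r := h1.dvd hdvd'
    have h3 : r ^ a = algebraMap F L b := by
      have := h2
      rw [IsRoot.def, eval_sub, eval_pow, eval_X, eval_C, sub_eq_zero] at this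
      exact this
    have h4 : (r / γ) ^ a = 1 := by
      rw [div_pow, h3, hγ, div_self]
      exact fun h => hb ((map_eq_zero (algebraMap F L)).1 h)
    have hne : NeZero a := ⟨ha.ne'⟩
    obtain ⟨i, _, hi⟩ := hξL.eq_pow_of_pow_eq_one h4
    refine ⟨ξ ^ i, pow_ne_zero _ (hξ.ne_zero ha.ne'), ?_⟩
    rw [map_pow, hi, div_mul_cancel₀ _ hγ0]
  obtain ⟨x, hx0, hx⟩ := Kum_prod _ hroots
  have h5 := hsp.coeff_zero_eq_prod_roots_of_monic hmon'
  rw [hx, ← hsp.natDegree_eq_card_roots, natDegree_map, coeff_map] at h5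
  refine ⟨((-1) ^ (minpoly F γ).natDegree * x)⁻¹ * (minpoly F γ).coeff 0, ?_⟩
  have hx1 : algebraMap F L x ≠ 0 := fun h => hx0 ((map_eq_zero (algebraMap F L)).1 h)
  rw [map_mul, h5, map_inv₀, map_mul, map_pow, map_neg, map_one]
  have h6 : ((-1 : L)) ^ (minpoly F γ).natDegree ≠ 0 := pow_ne_zero _ (by simp)
  field_simp

private theorem Kum_gcd {F L : Type} [Field F] [Field L] [Algebra F L] {γ : L} (hγ0 : γ ≠ 0) {m a : ℕ} {c b : F}
    (hm : γ ^ m = algebraMap F L c) (ha : γ ^ a = algebraMap F L b) :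
    ∃ x : F, γ ^ (Nat.gcd m a) = algebraMap F L x := by
  refine ⟨c ^ (Nat.gcdA m a) * b ^ (Nat.gcdB m a), ?_⟩
  have h1 : γ ^ (Nat.gcd m a) = γ ^ ((Nat.gcd m a : ℕ) : ℤ) := (zpow_natCast _ _).symm
  rw [h1, Nat.gcd_eq_gcd_ab, zpow_add₀ hγ0, zpow_mul, zpow_mul, zpow_natCast, zpow_natCast, hm, ha, map_mul,
    map_zpow₀, map_zpow₀]

theorem kummer {F L : Type} [Field F] [Field L] [Algebra F L] {a : ℕ} (ha : 0 < a)
    (hξ : ∃ ξ : F, IsPrimitiveRoot ξ a) {γ : L} {b : F} (hb : b ≠ 0)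
    (hγ : γ ^ a = algebraMap F L b) (hp : ∀ p : ℕ, p.Prime → p ∣ a → ∀ c : F, c ^ p ≠ b) :
    (minpoly F γ).natDegree = a := by
  obtain ⟨ξ, hξ⟩ := hξ
  have hγ0 : γ ≠ 0 := by
    rintro rfl
    rw [zero_pow ha.ne'] at hγ
    exact hb ((map_eq_zero (algebraMap F L)).1 hγ.symm)
  have hint : IsIntegral F γ := ⟨X ^ a - C b, monic_X_pow_sub_C b ha.ne', by
    rw [eval₂_sub, eval₂_pow, eval₂_X, eval₂_C, hγ, sub_self]⟩
  have hdvd : minpoly F γ ∣ X ^ a - C b := minpoly.dvd F γ (by simp [hγ])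
  have hle : (minpoly F γ).natDegree ≤ a := by
    have := natDegree_le_of_dvd hdvd (monic_X_pow_sub_C _ ha.ne').ne_zero
    rwa [natDegree_X_pow_sub_C] at this
  have hpos : 0 < (minpoly F γ).natDegree := minpoly.natDegree_pos hint
  obtain ⟨c, hc⟩ := Kum_pow ha hξ hb hγ
  obtain ⟨x, hx⟩ := Kum_gcd hγ0 hc hγ
  obtain ⟨j, hj⟩ := Nat.gcd_dvd_right (minpoly F γ).natDegree a
  have hj1 : j = 1 := by
    by_contra hj1
    obtain ⟨i, hi⟩ := Nat.minFac_dvd j
    refine hp j.minFac (Nat.minFac_prime hj1) ?_ (x ^ i) ?_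
    · exact (Nat.minFac_dvd j).trans ⟨_, by rw [mul_comm]; exact hj⟩
    · apply (algebraMap F L).injective
      rw [← pow_mul, mul_comm i, ← hi, map_pow, ← hx, ← pow_mul, ← hj, hγ]
  rw [hj1, mul_one] at hj
  have h1 : a ∣ (minpoly F γ).natDegree := by
    conv_lhs => rw [hj]
    exact Nat.gcd_dvd_left _ _
  exact le_antisymm hle (Nat.le_of_dvd hpos h1)

end Pool.Agent.CST
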