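import Pool.Agent.CST.Defs

/-!
# If `Geo f` fails then `θ` has a small degree over `ℚ(α, γ)`

A factorisation of `f(X ^ a, ·)` over `E(X)` is moved to the algebraically closed field `L` by an
embedding of `E` and by `X ↦ γ`, `γ ^ a = g`; `θ` is a root of one of the factors, and `α` is a
primitive element of a normal extension of `ℚ` which contains all coefficients needed and a
primitive root of unity of order `a`.
-/

open scoped BigOperators Polynomial
open Polynomial

namespace Pool.Agent.CST

/-- finitely many algebraic numbers lie in a normal extension generated by one element -/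
private theorem low_prim {L : Type} [Field L] [CharZero L] [IsAlgClosed L] (S : Finset L)
    (hS : ∀ x ∈ S, IsAlgebraic ℚ x) :
    ∃ α : L, IsAlgebraic ℚ α ∧ Normal ℚ (IntermediateField.adjoin ℚ {α}) ∧
      ∀ x ∈ S, x ∈ IntermediateField.adjoin ℚ {α} := by
  classical
  set p : ℚ[X] := ∏ x ∈ S, minpoly ℚ x with hp
  have hp0 : p ≠ 0 := by
    rw [hp]
    exact Finset.prod_ne_zero_iff.2 fun x hx => minpoly.ne_zero (hS x hx).isIntegral
  set M : IntermediateField ℚ L := IntermediateField.adjoin ℚ (p.rootSet L) with hM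
  have hspl := IntermediateField.adjoin_rootSet_isSplittingField (K := ℚ) (L := L) (p := p)
    (IsAlgClosed.splits _)
  rw [← hM] at hspl
  have hfin := @IsSplittingField.finiteDimensional ℚ M _ _ (IntermediateField.algebra' M) p hspl
  have hnor := @Normal.of_isSplittingField ℚ _ M _ (IntermediateField.algebra' M) p hspl
  obtain ⟨α, hα⟩ := @Field.exists_primitive_element ℚ M _ _ (IntermediateField.algebra' M) hfin
    inferInstance
  have hαM : IntermediateField.adjoin ℚ {(α : L)} = M := by
    rw [← IntermediateField.lift_adjoin_simple, hα, IntermediateField.lift_top]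
  refine ⟨(α : L), ?_, ?_, ?_⟩
  · have h1 : IsIntegral ℚ (α : L) :=
      (@IsIntegral.of_finite ℚ M _ _ (IntermediateField.algebra' M) hfin α).map M.val
    exact h1.isAlgebraic
  · rw [hαM]
    exact hnor
  · intro x hx
    rw [hαM, hM]
    refine IntermediateField.subset_adjoin ℚ _ ?_
    rw [mem_rootSet]
    refine ⟨hp0, ?_⟩
    rw [hp, map_prod]
    exact Finset.prod_eq_zero hx (minpoly.aeval ℚ x)

/-- the values of a polynomial over `E` at `γ` -/
private theorem low_poly {E L : Type} [Field E] [Field L] [CharZero L] (φ0 : E →+* L) (γ : L)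
    (P : E[X]) (M : IntermediateField ℚ L) (hγ : γ ∈ M)
    (hM : ∀ k ∈ P.support, φ0 (P.coeff k) ∈ M) : P.eval₂ φ0 γ ∈ M := by
  rw [eval₂_eq_sum, Polynomial.sum_def]
  exact sum_mem fun k hk => mul_mem (hM k hk) (pow_mem hγ k)

private theorem low_alg {E L : Type} [Field E] [CharZero E] [Field L] [CharZero L]
    (hE : Algebra.IsAlgebraic ℚ E) (φ0 : E →ₐ[ℚ] L) (x : E) : IsAlgebraic ℚ (φ0 x) :=
  (Algebra.IsAlgebraic.isAlgebraic x).algHom φ0

/-- `γ` is transcendental over the image of `E` -/
private theorem low_inj {K L E : Type} [Field K] [CharZero K] [Field L] [CharZero L] [Algebra K L]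
    [Field E] [CharZero E] (hE : Algebra.IsAlgebraic ℚ E) (φ0 : E →ₐ[ℚ] L) {g : K}
    (hg : Transcendental ℚ g) {γ : L} {a : ℕ} (hγ : γ ^ a = algebraMap K L g) :
    Function.Injective (eval₂RingHom (φ0 : E →+* L) γ) := by
  have hγt : Transcendental ℚ γ := by
    intro h
    have h1 : IsAlgebraic ℚ (algebraMap K L g) := by
      rw [← hγ]
      exact h.pow a
    have h2 : IsAlgebraic ℚ g :=
      (isAlgebraic_algebraMap_iff (algebraMap K L).injective).1 h1
    exact hg h2
  rw [injective_iff_map_eq_zero]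
  intro P hP
  by_contra hP0
  apply hγt
  let _ : Algebra E L := (φ0 : E →+* L).toAlgebra
  have : IsScalarTower ℚ E L := IsScalarTower.of_algebraMap_eq fun q => by
    simp
  have h1 : IsAlgebraic E γ := by
    refine ⟨P, hP0, ?_⟩
    rw [aeval_def]
    exact hP
  exact h1.restrictScalars ℚ

theorem exists_low {K L : Type} [Field K] [CharZero K] [Field L] [CharZero L] [Algebra K L]
    [IsAlgClosed L] {g θ : K} {f : ℤ[X][X]} (hm : Model g θ f) (hf : ¬ Geo f) :
    ∃ (a : ℕ) (γ α : L), 0 < a ∧ γ ^ a = algebraMap K L g ∧ IsAlgebraic ℚ α ∧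
      Normal ℚ (IntermediateField.adjoin ℚ {α}) ∧
      (∃ ξ ∈ IntermediateField.adjoin ℚ {α}, IsPrimitiveRoot ξ a) ∧
      ∃ G : L[X], G.Monic ∧ G.natDegree < f.natDegree ∧
        (∀ i, G.coeff i ∈ IntermediateField.adjoin ℚ {α, γ}) ∧
        G.eval (algebraMap K L θ) = 0 := by
  classical
  unfold Geo at hf
  push Not at hf
  obtain ⟨E, iE, iC, hE, a, ha, hirr⟩ := hf
  obtain ⟨γ, hγ⟩ := IsAlgClosed.exists_pow_nat_eq (algebraMap K L g) ha
  have φ0 : E →ₐ[ℚ] L := IsAlgClosed.lift
  have hinj := low_inj hE φ0 hm.tr hγ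
  set φ : RatFunc E →+* L := IsFractionRing.lift hinj with hφ
  have hφX : φ RatFunc.X = γ := by
    rw [hφ, ← RatFunc.algebraMap_X, IsFractionRing.lift_algebraMap, coe_eval₂RingHom, eval₂_X]
  have hcomp : φ.comp (ev ((RatFunc.X : RatFunc E) ^ a)) = (algebraMap K L).comp (ev g) := by
    refine Polynomial.ringHom_ext (fun n => ?_) ?_
    · simp
    · simp only [RingHom.comp_apply, ev, coe_eval₂RingHom, eval₂_X, map_pow]
      rw [hφX, hγ]
  set F0 : (RatFunc E)[X] := f.map (ev ((RatFunc.X : RatFunc E) ^ a)) with hF0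
  have hF0m : F0.Monic := hm.monic.map _
  have hF0d : F0.natDegree = f.natDegree := hm.monic.natDegree_map _
  have hF0r : (F0.map φ).eval (algebraMap K L θ) = 0 := by
    rw [hF0, Polynomial.map_map, hcomp, eval_map, ← hom_eval₂, hm.root, map_zero]
  have hdec : ∃ G : (RatFunc E)[X], G.Monic ∧ G.natDegree < f.natDegree ∧
      (G.map φ).eval (algebraMap K L θ) = 0 := by
    rw [hF0m.irreducible_iff_natDegree] at hirr
    push Not at hirr
    have h1 : F0 ≠ 1 := by
      intro h
      have h2 := hm.pos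
      rw [← hF0d, h, natDegree_one] at h2
      exact lt_irrefl _ h2
    obtain ⟨G, H, hG, hH, hGH, hG0, hH0⟩ := hirr h1
    have h2 : G.natDegree + H.natDegree = f.natDegree := by
      rw [← hF0d, ← hGH, hG.natDegree_mul hH]
    rw [← hGH, Polynomial.map_mul, eval_mul] at hF0r
    rcases mul_eq_zero.1 hF0r with h | h
    · exact ⟨G, hG, by omega, h⟩
    · exact ⟨H, hH, by omega, h⟩
  obtain ⟨G, hG, hGd, hGr⟩ := hdec
  have ha' : ((a : ℕ) : L) ≠ 0 := Nat.cast_ne_zero.2 ha.ne'
  have : NeZero ((a : ℕ) : L) := ⟨ha'⟩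
  obtain ⟨ξ, hξ⟩ := HasEnoughRootsOfUnity.exists_primitiveRoot L a
  set S : Finset L := {ξ} ∪ (Finset.range (G.natDegree + 1)).biUnion fun i =>
    (G.coeff i).num.support.image (fun k => φ0 ((G.coeff i).num.coeff k)) ∪
    (G.coeff i).denom.support.image (fun k => φ0 ((G.coeff i).denom.coeff k)) with hS
  have hSa : ∀ x ∈ S, IsAlgebraic ℚ x := by
    intro x hx
    rw [hS, Finset.mem_union, Finset.mem_singleton, Finset.mem_biUnion] at hx
    rcases hx with rfl | ⟨i, -, hx⟩
    · have h1 : IsAlgebraic ℚ (x ^ a) := by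
        rw [hξ.pow_eq_one]
        exact isAlgebraic_one
      exact h1.of_pow ha
    · rw [Finset.mem_union, Finset.mem_image, Finset.mem_image] at hx
      rcases hx with ⟨k, -, rfl⟩ | ⟨k, -, rfl⟩
      · exact low_alg hE φ0 _
      · exact low_alg hE φ0 _
  obtain ⟨α, hα1, hα2, hα3⟩ := low_prim S hSa
  refine ⟨a, γ, α, ha, hγ, hα1, hα2, ⟨ξ, hα3 ξ ?_, hξ⟩, G.map φ, hG.map φ, ?_, ?_, hGr⟩
  · rw [hS]
    exact Finset.mem_union_left _ (Finset.mem_singleton_self ξ)
  · rw [hG.natDegree_map]
    exact hGd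
  · intro i
    have hle : IntermediateField.adjoin ℚ {α} ≤ IntermediateField.adjoin ℚ {α, γ} :=
      IntermediateField.adjoin.mono ℚ _ _ (by
        rw [Set.singleton_subset_iff]
        exact Set.mem_insert α _)
    have hγm : γ ∈ IntermediateField.adjoin ℚ {α, γ} :=
      IntermediateField.subset_adjoin ℚ _ (Set.mem_insert_of_mem _ (Set.mem_singleton γ))
    rw [coeff_map]
    by_cases hi : i ≤ G.natDegree
    · have hir : i ∈ Finset.range (G.natDegree + 1) := Finset.mem_range.2 (by omega)
      rw [← RatFunc.num_div_denom (G.coeff i), map_div₀, hφ, IsFractionRing.lift_algebraMap,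
        IsFractionRing.lift_algebraMap, coe_eval₂RingHom]
      refine div_mem ?_ ?_
      · refine low_poly _ _ _ _ hγm fun k hk => hle (hα3 _ ?_)
        rw [hS]
        refine Finset.mem_union_right _ (Finset.mem_biUnion.2 ⟨i, hir, ?_⟩)
        exact Finset.mem_union_left _ (Finset.mem_image.2 ⟨k, hk, rfl⟩)
      · refine low_poly _ _ _ _ hγm fun k hk => hle (hα3 _ ?_)
        rw [hS]
        refine Finset.mem_union_right _ (Finset.mem_biUnion.2 ⟨i, hir, ?_⟩)
        exact Finset.mem_union_right _ (Finset.mem_image.2 ⟨k, hk, rfl⟩)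
    · rw [coeff_eq_zero_of_natDegree_lt (by omega), map_zero]
      exact zero_mem _

end Pool.Agent.CST
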