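import Pool.Agent.CST.Npo
import Pool.Agent.CST.Kum
import Pool.Agent.CST.Low

/-!
# `Geo f` for the plane model of a curve

`degree_count`: over `ℚ(g)` the field `K(α, γ)` has the degree `d * e * a`, where `e` is the degree
of `α` and `d = f.natDegree` (`gge_top`, with `kummer` and `not_pow`); it is contained in the field
generated by `α`, `γ`, `θ`, of degree at most `e * a * G.natDegree` (`gge_step`).
`geo_of_model`: `L = AlgebraicClosure K`, `exists_low`.
-/

open scoped BigOperators Polynomial
open Polynomial

namespace Pool.Agent.CST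

/-- one step of a tower: a root of a monic polynomial over `E` -/
private theorem gge_step {F L : Type*} [Field F] [Field L] [Algebra F L]
    (E : IntermediateField F L) (hE : FiniteDimensional F E) (x : L) (G : L[X]) (hG : G.Monic)
    (hc : ∀ i, G.coeff i ∈ E) (h0 : G.eval x = 0) :
    ∃ E' : IntermediateField F L, FiniteDimensional F E' ∧ E ≤ E' ∧ x ∈ E' ∧
      Module.finrank F E' ≤ Module.finrank F E * G.natDegree := by
  have h1 : G ∈ Polynomial.lifts (algebraMap E L) := by
    rw [Polynomial.lifts_iff_coeff_lifts]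
    exact fun n => ⟨⟨_, hc n⟩, rfl⟩
  obtain ⟨q, hq, hqd, hqm⟩ := Polynomial.lifts_and_natDegree_eq_and_monic h1 hG
  have h2 : aeval x q = 0 := by
    rw [aeval_def, ← eval_map, hq, h0]
  have hint : IsIntegral E x := ⟨q, hqm, h2⟩
  have h3 : (minpoly E x).natDegree ≤ G.natDegree := by
    rw [← hqd]
    exact natDegree_le_of_dvd (minpoly.dvd E x h2) hqm.ne_zero
  have hfd : FiniteDimensional E (IntermediateField.adjoin E {x}) :=
    IntermediateField.adjoin.finiteDimensional hint
  have hfr : Module.Free E (IntermediateField.adjoin E {x}) := Module.Free.of_divisionRing _ _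
  have h4 : Module.finrank F (IntermediateField.adjoin E {x}) =
      Module.finrank F E * (minpoly E x).natDegree := by
    rw [← IntermediateField.adjoin.finrank hint]
    exact (Module.finrank_mul_finrank F E (IntermediateField.adjoin E {x})).symm
  have hfd' : FiniteDimensional F (IntermediateField.adjoin E {x}) :=
    Module.Finite.trans E (IntermediateField.adjoin E {x})
  refine ⟨(IntermediateField.adjoin E {x}).restrictScalars F, hfd', ?_, ?_, ?_⟩
  · intro y hy
    exact (IntermediateField.adjoin E {x}).algebraMap_mem ⟨y, hy⟩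
  · exact IntermediateField.mem_adjoin_simple_self E x
  · exact h4.le.trans (Nat.mul_le_mul_left _ h3)

/-- the degree of `K(α, γ)` over `K` -/
private theorem gge_top {K L : Type} [Field K] [CharZero K] [Field L] [CharZero L] [Algebra K L]
    (hc : Cst K) {g : K} (hg0 : g ≠ 0) (hg : Npw g) {a : ℕ} (ha : 0 < a)
    {γ α : L} (hγ : γ ^ a = algebraMap K L g) (hα : IsAlgebraic ℚ α)
    (hn : Normal ℚ (IntermediateField.adjoin ℚ {α}))
    (hξ : ∃ ξ ∈ IntermediateField.adjoin ℚ {α}, IsPrimitiveRoot ξ a) :
    Module.finrank K (IntermediateField.adjoin K {α, γ}) = (minpoly ℚ α).natDegree * a := by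
  have hαK : IsIntegral K α := hα.isIntegral.tower_top
  have h1 : Module.finrank K (IntermediateField.adjoin K {α}) = (minpoly ℚ α).natDegree := by
    rw [IntermediateField.adjoin.finrank hαK, minpoly_map hc hα, natDegree_map]
  have hsub : ∀ y ∈ IntermediateField.adjoin ℚ {α}, y ∈ IntermediateField.adjoin K {α} := by
    intro y hy
    have h : IntermediateField.adjoin ℚ {α} ≤
        (IntermediateField.adjoin K {α}).restrictScalars ℚ := by
      rw [IntermediateField.adjoin_le_iff, Set.singleton_subset_iff]
      exact IntermediateField.mem_adjoin_simple_self K α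
    exact h hy
  have hint : IsIntegral (IntermediateField.adjoin K {α}) γ := by
    refine ⟨X ^ a - C (algebraMap K _ g), monic_X_pow_sub_C _ ha.ne', ?_⟩
    rw [← aeval_def, map_sub, map_pow, aeval_X, aeval_C, hγ, ← IsScalarTower.algebraMap_apply,
      sub_self]
  have h2 : (minpoly (IntermediateField.adjoin K {α}) γ).natDegree = a := by
    refine kummer ha ?_ (b := algebraMap K _ g) ?_ ?_ ?_
    · obtain ⟨ξ, hξm, hξp⟩ := hξ
      refine ⟨⟨ξ, hsub ξ hξm⟩, ?_⟩
      exact IsPrimitiveRoot.of_map_of_injective (f := algebraMap (IntermediateField.adjoin K {α}) L)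
        hξp (algebraMap (IntermediateField.adjoin K {α}) L).injective
    · exact (_root_.map_ne_zero _).2 hg0
    · rw [hγ, ← IsScalarTower.algebraMap_apply]
    · intro p hp hpa c hcp
      obtain ⟨m, hm⟩ := hpa
      have hm0 : m ≠ 0 := by
        rintro rfl
        rw [mul_zero] at hm
        omega
      obtain ⟨ξ, hξm, hξp⟩ := hξ
      refine not_pow hc hg hg0 hp hα hn ⟨ξ ^ m, pow_mem hξm m,
        hξp.pow ha (by rw [hm, mul_comm])⟩ (h := (c : L)) c.2 ?_
      have h3 := congrArg (algebraMap (IntermediateField.adjoin K {α}) L) hcp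
      rw [map_pow, ← IsScalarTower.algebraMap_apply] at h3
      exact h3
  have h3 : Module.finrank (IntermediateField.adjoin K {α})
      (IntermediateField.adjoin (IntermediateField.adjoin K {α}) {γ}) = a := by
    rw [IntermediateField.adjoin.finrank hint, h2]
  have hfr : Module.Free (IntermediateField.adjoin K {α})
    (IntermediateField.adjoin (IntermediateField.adjoin K {α}) {γ}) :=
    Module.Free.of_divisionRing _ _
  rw [← IntermediateField.adjoin_simple_adjoin_simple, ← h1]
  conv_rhs => rw [← h3]
  exact (Module.finrank_mul_finrank K (IntermediateField.adjoin K {α})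
    (IntermediateField.adjoin (IntermediateField.adjoin K {α}) {γ})).symm

theorem degree_count {K L : Type} [Field K] [CharZero K] [Field L] [CharZero L] [Algebra K L]
    (hc : Cst K) {g θ : K} {f : ℤ[X][X]} (hm : Model g θ f) (hg : Npw g) {a : ℕ} (ha : 0 < a)
    {γ α : L} (hγ : γ ^ a = algebraMap K L g) (hα : IsAlgebraic ℚ α)
    (hn : Normal ℚ (IntermediateField.adjoin ℚ {α}))
    (hξ : ∃ ξ ∈ IntermediateField.adjoin ℚ {α}, IsPrimitiveRoot ξ a) {G : L[X]} (hG : G.Monic)
    (hG' : ∀ i, G.coeff i ∈ IntermediateField.adjoin ℚ {α, γ})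
    (h0 : G.eval (algebraMap K L θ) = 0) : f.natDegree ≤ G.natDegree := by
  have hg0 : g ≠ 0 := by
    rintro rfl
    exact hm.tr isAlgebraic_zero
  have ht := gge_top hc hg0 hg ha hγ hα hn hξ
  have hαi : IsIntegral ℚ α := hα.isIntegral
  have he : 0 < (minpoly ℚ α).natDegree := minpoly.natDegree_pos hαi
  obtain ⟨E1, hf1, -, hα1, hd1⟩ := gge_step
    (⊥ : IntermediateField (IntermediateField.adjoin ℚ {g}) L) inferInstance α
    ((minpoly ℚ α).map (algebraMap ℚ L)) ((minpoly.monic hαi).map _) (fun i => by
      rw [coeff_map, eq_ratCast]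
      exact SubfieldClass.ratCast_mem _ _) (by rw [eval_map, ← aeval_def, minpoly.aeval])
  rw [natDegree_map, IntermediateField.finrank_bot, one_mul] at hd1
  have hgE : ∀ E : IntermediateField (IntermediateField.adjoin ℚ {g}) L,
      algebraMap K L g ∈ E := fun E =>
    E.algebraMap_mem ⟨g, IntermediateField.mem_adjoin_simple_self ℚ g⟩
  obtain ⟨E2, hf2, h12, hγ2, hd2⟩ := gge_step E1 hf1 γ (X ^ a - C (algebraMap K L g))
    (monic_X_pow_sub_C _ ha.ne') (fun i => by
      rw [coeff_sub, coeff_X_pow, coeff_C]
      refine sub_mem ?_ ?_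
      · split_ifs
        · exact one_mem _
        · exact zero_mem _
      · split_ifs
        · exact hgE E1
        · exact zero_mem _) (by rw [eval_sub, eval_pow, eval_X, eval_C, hγ, sub_self])
  rw [natDegree_X_pow_sub_C] at hd2
  obtain ⟨E3, hf3, h23, hθ3, hd3⟩ := gge_step E2 hf2 (algebraMap K L θ) G hG (fun i => by
    have h : IntermediateField.adjoin ℚ {α, γ} ≤ E2.restrictScalars ℚ := by
      rw [IntermediateField.adjoin_le_iff]
      rintro x (rfl | rfl)
      · exact h12 hα1
      · exact hγ2
    exact h (hG' i)) h0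
  have hK : ∀ k : K, algebraMap K L k ∈ E3 := by
    intro k
    have h : IntermediateField.adjoin ℚ {g, θ} ≤
        (E3.restrictScalars ℚ).comap ((Algebra.ofId K L).restrictScalars ℚ) := by
      rw [IntermediateField.adjoin_le_iff]
      rintro x (rfl | rfl)
      · exact hgE E3
      · exact hθ3
    rw [hm.top] at h
    exact h (IntermediateField.mem_top (x := k))
  have hle : ∀ x ∈ IntermediateField.adjoin K {α, γ}, x ∈ E3 := by
    intro x hx
    have h : IntermediateField.adjoin K {α, γ} ≤ E3.toSubfield.toIntermediateField hK := by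
      rw [IntermediateField.adjoin_le_iff]
      rintro y (rfl | rfl)
      · exact h23 (h12 hα1)
      · exact h23 hγ2
    exact h hx
  have h4 : Module.finrank (IntermediateField.adjoin ℚ {g}) (IntermediateField.adjoin K {α, γ}) =
      f.natDegree * ((minpoly ℚ α).natDegree * a) := by
    rw [hm.deg, ← ht]
    exact (Module.finrank_mul_finrank (IntermediateField.adjoin ℚ {g}) K
      (IntermediateField.adjoin K {α, γ})).symm
  have h5 : Module.finrank (IntermediateField.adjoin ℚ {g}) (IntermediateField.adjoin K {α, γ}) ≤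
      Module.finrank (IntermediateField.adjoin ℚ {g}) E3 := by
    refine LinearMap.finrank_le_finrank_of_injective
      (f := ({ toFun := fun x => ⟨x, hle x x.2⟩
               map_add' := fun _ _ => rfl
               map_smul' := fun _ _ => ?_ } : IntermediateField.adjoin K {α, γ}
                →ₗ[IntermediateField.adjoin ℚ {g}] E3)) ?_
    · rfl
    · intro x y hxy
      exact Subtype.ext (congrArg (fun z : E3 => (z : L)) hxy)
  have h6 : f.natDegree * ((minpoly ℚ α).natDegree * a) ≤
      G.natDegree * ((minpoly ℚ α).natDegree * a) := by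
    calc _ ≤ Module.finrank (IntermediateField.adjoin ℚ {g}) E3 := h4 ▸ h5
      _ ≤ Module.finrank (IntermediateField.adjoin ℚ {g}) E2 * G.natDegree := hd3
      _ ≤ ((minpoly ℚ α).natDegree * a) * G.natDegree :=
        Nat.mul_le_mul_right _ (hd2.trans (Nat.mul_le_mul_right _ hd1))
      _ = _ := mul_comm _ _
  exact Nat.le_of_mul_le_mul_right h6 (Nat.mul_pos he ha)

theorem geo_of_model {K : Type} [Field K] [CharZero K] (hc : Cst K) {g θ : K} {f : ℤ[X][X]}
    (hm : Model g θ f) (hg : Npw g) : Geo f := by
  by_contra hf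
  obtain ⟨a, γ, α, ha, hγ, hα, hn, hξ, G, hG, hlt, hG', h0⟩ :=
    exists_low (L := AlgebraicClosure K) hm hf
  exact absurd (degree_count hc hm hg ha hγ hα hn hξ hG hG' h0) (not_le.2 hlt)

end Pool.Agent.CST
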