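import Pool.Agent.CST.Red
import Pool.Agent.CST.Gge

/-!
# The slice `{g, K^*}` of the unramified part of `K₂(K) ⊗ ℚ` is finite-dimensional

`clear_denominators`: every element of the slice has a multiple `{g, h}`. `slice_finite`: an independent finite family
in the slice has at most `S.card` members, where `S` is the finite set of the special points: otherwise a
product `h` of powers of the `h i` has order `0` at the special points, and `{g, h} = 0` by
`sy_eq_zero`.
-/

open scoped BigOperators Polynomial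
open Polynomial

namespace Pool.Agent.CST

open Pool.Agent.Helper11 Pool.Agent.ISI

variable {K : Type} [Field K] [CharZero K]

/-- the span of the symbols `{g, h}`, `h` arbitrary -/
noncomputable def slM (g : Kˣ) : Submodule ℚ (KMQ K 2) :=
  Submodule.span ℚ (Set.range fun h : Kˣ => sy g h)

theorem clear_denominators {g : Kˣ} {z : KMQ K 2} (hz : z ∈ slM g) :
    ∃ (m : ℕ) (h : Kˣ), 0 < m ∧ (m : ℚ) • z = sy g h := by
  unfold slM at hz
  induction hz using Submodule.span_induction with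
  | mem x hx =>
    obtain ⟨h, rfl⟩ := hx
    exact ⟨1, h, one_pos, by rw [Nat.cast_one, one_smul]⟩
  | zero => exact ⟨1, 1, one_pos, by rw [smul_zero, sy_one_right]⟩
  | add x y _ _ hx hy =>
    obtain ⟨m, h, hm, h1⟩ := hx
    obtain ⟨n, k, hn, h2⟩ := hy
    refine ⟨m * n, h ^ (n : ℤ) * k ^ (m : ℤ), Nat.mul_pos hm hn, ?_⟩
    rw [sy_mul_right, sy_zpow_right, sy_zpow_right, ← h1, ← h2, smul_smul, smul_smul, smul_add,
      Int.cast_natCast, Int.cast_natCast, Nat.cast_mul, mul_comm (n : ℚ) (m : ℚ)]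
  | smul a x _ hx =>
    obtain ⟨m, h, hm, h1⟩ := hx
    refine ⟨m * a.den, h ^ a.num, Nat.mul_pos hm a.pos, ?_⟩
    rw [sy_zpow_right, ← h1, smul_smul, smul_smul, Nat.cast_mul]
    congr 1
    rw [mul_assoc, mul_comm (a.den : ℚ) a, Rat.mul_den_eq_num, mul_comm]

private theorem sli_rel {ι : Type} [Fintype ι] {S : Type} [Fintype S]
    (hS : Fintype.card S < Fintype.card ι) (v : ι → S → ℤ) :
    ∃ a : ι → ℤ, (∀ O, ∑ i, a i * v i O = 0) ∧ ∃ i, a i ≠ 0 := by
  have h1 : ¬ LinearIndependent ℚ (fun i : ι => fun O : S => (v i O : ℚ)) := by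
    intro h
    have h2 := h.fintype_card_le_finrank
    rw [Module.finrank_fintype_fun_eq_card] at h2
    omega
  rw [Fintype.not_linearIndependent_iff] at h1
  obtain ⟨c, hc, i0, hi0⟩ := h1
  obtain ⟨b, hb⟩ := IsLocalization.exist_integer_multiples_of_finite (nonZeroDivisors ℤ) c
  have hb' : ∀ i, ∃ a : ℤ, (a : ℚ) = (b : ℤ) * c i := by
    intro i
    obtain ⟨a, ha⟩ := hb i
    refine ⟨a, ?_⟩
    have h3 : algebraMap ℤ ℚ a = (a : ℚ) := eq_intCast _ _
    rw [← h3, ha, zsmul_eq_mul]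
  choose a ha using hb'
  have hb0 : ((b : ℤ) : ℚ) ≠ 0 := by exact_mod_cast nonZeroDivisors.coe_ne_zero b
  refine ⟨a, fun O => ?_, i0, fun h => ?_⟩
  · have h2 := congrFun hc O
    rw [Finset.sum_apply] at h2
    have h3 : ((∑ i, a i * v i O : ℤ) : ℚ) = (b : ℤ) * ∑ i, (c i • fun O : S => (v i O : ℚ)) O := by
      push_cast
      rw [Finset.mul_sum]
      refine Finset.sum_congr rfl fun i _ => ?_
      rw [ha i, Pi.smul_apply, smul_eq_mul, mul_assoc]
    rw [h2, Pi.zero_apply, mul_zero] at h3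
    exact_mod_cast h3
  · have h2 := ha i0
    rw [h, Int.cast_zero] at h2
    rcases mul_eq_zero.1 h2.symm with h3 | h3
    · exact hb0 h3
    · exact hi0 h3

theorem slice_finite (hc : Cst K) {g : Kˣ} (hg : Transcendental ℚ (g : K)) (hp : Npw (g : K))
    (hK : FiniteDimensional (IntermediateField.adjoin ℚ {(g : K)}) K) :
    Module.Finite ℚ ↥(slM g ⊓ geomM K) := by
  classical
  obtain ⟨θ, f, hm⟩ := exists_model hg hK
  obtain ⟨n₀, hn₀, H⟩ := unique_point hm (geo_of_model hc hm hp) hK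
  have hfin := spc_finite hc hg hK n₀
  refine Module.rank_lt_aleph0_iff.1
    (lt_of_le_of_lt (rank_le (n := hfin.toFinset.card) fun s hs => ?_) Cardinal.natCast_lt_aleph0)
  by_contra hcon
  push Not at hcon
  have hch : ∀ z : s, ∃ (m : ℕ) (h : Kˣ), 0 < m ∧
      (m : ℚ) • (((z : ↥(slM g ⊓ geomM K)) : KMQ K 2)) = sy g h :=
    fun z => clear_denominators (Submodule.mem_inf.1 (z : ↥(slM g ⊓ geomM K)).2).1
  choose m h hm0 hmh using hch
  obtain ⟨a, ha, i0, hi0⟩ := sli_rel (ι := s) (S := hfin.toFinset) (by simpa using hcon)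
    (fun z O => vo (O : ValuationSubring K) (h z))
  have h1 : sy g (∏ z : s, h z ^ a z) =
      ((∑ z : s, ((a z : ℚ) * (m z : ℚ)) • (z : ↥(slM g ⊓ geomM K)) : ↥(slM g ⊓ geomM K)) :
        KMQ K 2) := by
    rw [sy_prod_right, Submodule.coe_sum]
    refine Finset.sum_congr rfl fun z _ => ?_
    rw [sy_zpow_right, ← hmh z, smul_smul, Submodule.coe_smul]
  have h2 : sy g (∏ z : s, h z ^ a z) ∈ geomM K := by
    rw [h1]
    exact (Submodule.mem_inf.1 (Subtype.mem _)).2
  have h3 : sy g (∏ z : s, h z ^ a z) = 0 := by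
    refine sy_eq_zero hc hg hK hn₀ H h2 fun O hO => ?_
    rw [vo_prod]
    have h4 := ha ⟨O, hfin.mem_toFinset.2 hO⟩
    rw [← h4]
    exact Finset.sum_congr rfl fun z _ => vo_zpow _ _ _
  rw [h3] at h1
  have h5 : ∑ z : s, ((a z : ℚ) * (m z : ℚ)) • (z : ↥(slM g ⊓ geomM K)) = 0 := by
    apply Subtype.ext
    exact h1.symm
  have h6 := (Fintype.linearIndependent_iff.1 hs) _ h5 i0
  rcases mul_eq_zero.1 h6 with h7 | h7
  · exact hi0 (by exact_mod_cast h7)
  · have := hm0 i0
    have h8 : m i0 = 0 := by exact_mod_cast h7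
    omega

end Pool.Agent.CST
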