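import Pool.Agent.CST.Stm
import Pool.Agent.CST.Sli
import Pool.Agent.ISG.Bri

/-!
# The theorem, with the definitions of the statement

`eK K : K2Q K ≃ₗ[ℚ] KMQ K 2` maps `slice g` into `slM g` and `unramifiedK2 K` into `geomM K`, so
`slice_finite` gives the finiteness of the slice. Integral elements are unramified.
-/

namespace Pool.Agent.CST

open Pool.Agent.ISG Pool.Agent.Helper11 Pool.Agent.ISI

theorem integral_le (K : Type) [Field K] [CharZero K] : integralK2 K ≤ unramifiedK2 K := by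
  unfold unramifiedK2
  refine le_iInf fun O => le_iInf fun hO => le_iInf fun _ => ?_
  unfold integralK2
  exact (iInf_le _ O).trans (iInf_le _ hO)

private theorem fin_span {K : Type} [Field K] (O : ValuationSubring K) (z : ISG.K2Q K)
    (h : z ∈ Submodule.span ℚ
      {z | ∃ u v : Kˣ, u ∈ O.unitGroup ∧ v ∈ O.unitGroup ∧ z = sb u v}) :
    eK K z ∈ unrM O 2 := by
  have h1 := mem_span_iff (fun u v => u ∈ O.unitGroup ∧ v ∈ O.unitGroup) z
  have h2 : {z : ISG.K2Q K | ∃ u v : Kˣ, u ∈ O.unitGroup ∧ v ∈ O.unitGroup ∧ z = sb u v} =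
      {z | ∃ u v : Kˣ, (u ∈ O.unitGroup ∧ v ∈ O.unitGroup) ∧ z = sb u v} := by
    ext z
    simp only [and_assoc]
  rw [h2] at h
  have h3 := h1.1 h
  unfold unrM
  refine Submodule.span_mono ?_ h3
  rintro _ ⟨u, v, ⟨hu, hv⟩, rfl⟩
  refine ⟨![u, v], fun m => ?_, rfl⟩
  fin_cases m
  · exact hu
  · exact hv

private theorem fin_geom {K : Type} [Field K] [CharZero K] {z : ISG.K2Q K}
    (h : z ∈ unramifiedK2 K) : eK K z ∈ geomM K := by
  unfold geomM
  simp only [Submodule.mem_iInf]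
  intro O hO
  refine fin_span O z ?_
  unfold unramifiedK2 at h
  simp only [Submodule.mem_iInf] at h
  exact h O hO.1 hO.2

private theorem fin_slice {K : Type} [Field K] [CharZero K] {g : Kˣ} {z : ISG.K2Q K}
    (h : z ∈ slice g) : eK K z ∈ slM g := by
  have h1 : (slice g).map (eK K).toLinearMap = slM g := by
    unfold slice slM
    rw [Submodule.map_span]
    congr 1
    ext y
    constructor
    · rintro ⟨_, ⟨u, rfl⟩, rfl⟩
      exact ⟨u, rfl⟩
    · rintro ⟨u, rfl⟩
      exact ⟨sb g u, ⟨u, rfl⟩, rfl⟩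
  rw [← h1]
  exact Submodule.mem_map_of_mem h

theorem fin_main {K : Type} [Field K] [CharZero K]
    (hc : ∀ a : K, IsAlgebraic ℚ a → ∃ q : ℚ, (q : K) = a) {g : Kˣ}
    (hg : Transcendental ℚ (g : K))
    (hp : ∀ p : ℕ, p.Prime → ∀ (a : ℚ) (h : K), (g : K) ≠ (a : K) * h ^ p)
    (hK : FiniteDimensional (IntermediateField.adjoin ℚ {(g : K)}) K) :
    Module.Finite ℚ ↥(slice g ⊓ unramifiedK2 K) := by
  have : Module.Finite ℚ ↥(slM g ⊓ geomM K) := slice_finite hc hg hp hK
  have h1 : ∀ z ∈ slice g ⊓ unramifiedK2 K, (eK K).toLinearMap z ∈ slM g ⊓ geomM K :=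
    fun z hz => ⟨fin_slice hz.1, fin_geom hz.2⟩
  refine Module.Finite.of_injective ((eK K).toLinearMap.restrict h1) ?_
  intro x y hxy
  have h2 : eK K (x : ISG.K2Q K) = eK K (y : ISG.K2Q K) := congrArg Subtype.val hxy
  exact Subtype.ext ((eK K).injective h2)

end Pool.Agent.CST
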