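import Pool.Agent.CST.MsA

/-!
# The coefficients of a factor of `f(ζ, X)`

`exists_poly`: an algebraic integer of `ℚ(ζ)` is `P(ζ)`, `P ∈ ℤ[X]`.  `isIntegral_coeff`: the
coefficients of a monic factor of `f(ζ, X)` are algebraic integers.  `coeffs`: they are `P_i(ζ)`, and
all `P_i(z)`, `z` a primitive `n`-th root of unity, are bounded by a constant which depends only
on `f`.
-/

open scoped BigOperators Polynomial
open Polynomial Finset

namespace Pool.Agent.CST

theorem exists_poly {n : ℕ} (hn : 0 < n) {ζ : ℂ} (hζ : IsPrimitiveRoot ζ n) {s : ℂ}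
    (hs : s ∈ Qa ζ) (hi : IsIntegral ℤ s) : ∃ P : ℤ[X], aeval ζ P = s := by
  have : NeZero n := ⟨hn.ne'⟩
  have hint : IsIntegral ℚ ζ := (hζ.isIntegral hn).tower_top
  have hfd : FiniteDimensional ℚ (Qa ζ) := IntermediateField.adjoin.finiteDimensional hint
  have hcyc : IsCyclotomicExtension {n} ℚ (Qa ζ) := by
    change IsCyclotomicExtension {n} ℚ (IntermediateField.adjoin ℚ {ζ}).toSubalgebra
    rw [IntermediateField.adjoin_simple_toSubalgebra_of_isAlgebraic hint.isAlgebraic]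
    exact hζ.adjoin_isCyclotomicExtension ℚ
  have hnf : NumberField (Qa ζ) := { }
  have hζ' : IsPrimitiveRoot (⟨ζ, IntermediateField.mem_adjoin_simple_self ℚ ζ⟩ : Qa ζ) n :=
    IsPrimitiveRoot.coe_submonoidClass_iff.mp hζ
  have hcl := IsCyclotomicExtension.Rat.isIntegralClosure_adjoin_singleton hζ'
  have hi' : IsIntegral ℤ (⟨s, hs⟩ : Qa ζ) := by
    have h1 : (algebraMap (Qa ζ) ℂ) ⟨s, hs⟩ = s := rfl
    rw [← h1] at hi
    exact (isIntegral_algebraMap_iff (algebraMap (Qa ζ) ℂ).injective).1 hi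
  obtain ⟨y, hy⟩ := hcl.isIntegral_iff.1 hi'
  obtain ⟨y, hy2⟩ := y
  have hy3 := hy2
  rw [Algebra.adjoin_singleton_eq_range_aeval] at hy3
  obtain ⟨P, hP⟩ := hy3
  refine ⟨P, ?_⟩
  have h2 : aeval (⟨ζ, IntermediateField.mem_adjoin_simple_self ℚ ζ⟩ : Qa ζ) P = ⟨s, hs⟩ := by
    rw [← hy]
    exact hP
  have h3 := congrArg (algebraMap (Qa ζ) ℂ) h2
  rw [← aeval_algebraMap_apply] at h3
  exact h3

theorem isIntegral_coeff {ζ : ℂ} (hζ : IsIntegral ℤ ζ) {f : ℤ[X][X]} (hf : f.Monic)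
    {G H : ℂ[X]} (hG : G.Monic) (hH : H.Monic) (h : f.map (ev ζ) = G * H) (i : ℕ) :
    IsIntegral ℤ (G.coeff i) := by
  let R := integralClosure ℤ ℂ
  let z : R := ⟨ζ, hζ⟩
  let e : ℤ[X] →+* R := (aeval z : ℤ[X] →ₐ[ℤ] R).toRingHom
  have he : (algebraMap R ℂ).comp e = ev ζ := by
    refine RingHom.ext fun P => ?_
    rw [RingHom.comp_apply, ev_apply]
    change algebraMap R ℂ (aeval z P) = _
    rw [← aeval_algebraMap_apply]
    rfl
  have hd : G ∣ (f.map e).map (algebraMap R ℂ) := by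
    rw [Polynomial.map_map, he, h]
    exact dvd_mul_right _ _
  have hl := integralClosure.mem_lifts_of_monic_of_dvd_map ℂ (hf.map e) hG hd
  rw [lifts_iff_coeff_lifts] at hl
  obtain ⟨y, hy⟩ := hl i
  have hy2 : IsIntegral R (G.coeff i) := by
    rw [← hy]
    exact y.2
  exact isIntegral_trans _ hy2

private theorem cof_lift {n : ℕ} (hn : 0 < n) {ζ : ℂ} (hζ : IsPrimitiveRoot ζ n)
    {f : ℤ[X][X]} (hf : f.Monic) {G H : ℂ[X]} (hG : G.Monic) (hH : H.Monic)
    (h : f.map (ev ζ) = G * H) (hq : ∀ i, G.coeff i ∈ Qa ζ) :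
    ∃ g : ℤ[X][X], g.map (ev ζ) = G ∧ g.natDegree = G.natDegree ∧ g.Monic := by
  refine lifts_and_natDegree_eq_and_monic ?_ hG
  rw [lifts_iff_coeff_lifts]
  intro i
  obtain ⟨P, hP⟩ := exists_poly hn hζ (hq i) (isIntegral_coeff (hζ.isIntegral hn) hf hG hH h i)
  exact ⟨P, by rw [ev_apply, hP]⟩

/-- the sum of the absolute values of the coefficients -/
private noncomputable def cof_A (P : ℤ[X]) : ℝ := ∑ i ∈ range (P.natDegree + 1), |(P.coeff i : ℝ)|

private theorem cof_A_nonneg (P : ℤ[X]) : 0 ≤ cof_A P := sum_nonneg fun _ _ => abs_nonneg _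

private theorem cof_norm_le (P : ℤ[X]) {z : ℂ} (hz : ‖z‖ = 1) : ‖aeval z P‖ ≤ cof_A P := by
  rw [aeval_eq_sum_range]
  refine (norm_sum_le _ _).trans (sum_le_sum fun i _ => ?_)
  rw [zsmul_eq_mul, norm_mul, norm_pow, hz, one_pow, mul_one, Complex.norm_intCast]

private theorem cof_root {f : ℤ[X][X]} (hf : f.Monic) {z : ℂ} (hz : ‖z‖ = 1) {x : ℂ}
    (hx : (f.map (ev z)).IsRoot x) :
    ‖x‖ ≤ (∑ k ∈ range (f.natDegree + 1), cof_A (f.coeff k)) + 1 := by
  have hm : (f.map (ev z)).Monic := hf.map _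
  have h1 := hx.norm_lt_cauchyBound hm.ne_zero
  have h2 : ((cauchyBound (f.map (ev z)) : NNReal) : ℝ) ≤
      (∑ k ∈ range (f.natDegree + 1), cof_A (f.coeff k)) + 1 := by
    unfold cauchyBound
    rw [hm.leadingCoeff, nnnorm_one, div_one, NNReal.coe_add, NNReal.coe_one]
    refine add_le_add_left ?_ 1
    have h3 : 0 ≤ ∑ k ∈ range (f.natDegree + 1), cof_A (f.coeff k) :=
      sum_nonneg fun k _ => cof_A_nonneg _
    have h4 : Finset.sup (range (f.map (ev z)).natDegree) (fun i => ‖(f.map (ev z)).coeff i‖₊) ≤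
        NNReal.mk _ h3 := by
      refine Finset.sup_le fun i hi => ?_
      rw [← NNReal.coe_le_coe, coe_nnnorm, NNReal.coe_mk, coeff_map, ev_apply]
      refine (cof_norm_le _ hz).trans ?_
      refine single_le_sum (f := fun k => cof_A (f.coeff k)) (fun k _ => cof_A_nonneg _) ?_
      rw [hf.natDegree_map, mem_range] at hi
      rw [mem_range]
      omega
    have h5 := NNReal.coe_le_coe.2 h4
    rwa [NNReal.coe_mk] at h5
  exact (le_of_lt (by exact_mod_cast h1)).trans h2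

theorem coeffs (f : ℤ[X][X]) (hf : f.Monic) : ∃ C : ℝ, 0 ≤ C ∧ ∀ (n : ℕ), 0 < n → ∀ ζ : ℂ,
    IsPrimitiveRoot ζ n → ∀ G H : ℂ[X], G.Monic → H.Monic → f.map (ev ζ) = G * H →
    (∀ i, G.coeff i ∈ Qa ζ) → (∀ i, H.coeff i ∈ Qa ζ) →
    ∀ i, ∃ P : ℤ[X], aeval ζ P = G.coeff i ∧ ∀ z : ℂ, IsPrimitiveRoot z n → ‖aeval z P‖ ≤ C := by
  set B : ℝ := (∑ k ∈ range (f.natDegree + 1), cof_A (f.coeff k)) + 1 with hB
  refine ⟨max B 1 ^ f.natDegree * f.natDegree.choose (f.natDegree / 2), ?_, ?_⟩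
  · have h1 : (0 : ℝ) ≤ max B 1 := le_trans zero_le_one (le_max_right _ _)
    exact mul_nonneg (pow_nonneg h1 _) (Nat.cast_nonneg _)
  intro n hn ζ hζ G H hG hH h hGq hHq i
  obtain ⟨g, hgm, hgd, hg⟩ := cof_lift hn hζ hf hG hH h hGq
  obtain ⟨k, hkm, hkd, hk⟩ := cof_lift hn hζ hf hH hG (by rw [h, mul_comm]) hHq
  refine ⟨g.coeff i, by rw [← ev_apply, ← coeff_map, hgm], fun z hz => ?_⟩
  have hfz : f.map (ev z) = g.map (ev z) * k.map (ev z) := by
    have h0 : (f - g * k).map (ev ζ) = 0 := by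
      rw [Polynomial.map_sub, Polynomial.map_mul, hgm, hkm, h, sub_self]
    have h1 : (f - g * k).map (ev z) = 0 := by
      ext j
      rw [coeff_map, ev_apply, coeff_zero]
      refine aeval_eq_zero_of hn hζ hz ?_
      rw [← ev_apply, ← coeff_map, h0, coeff_zero]
    rw [Polynomial.map_sub, Polynomial.map_mul, sub_eq_zero] at h1
    exact h1
  have hz1 : ‖z‖ = 1 := hz.norm'_eq_one hn.ne'
  have hgz : (g.map (ev z)).Monic := hg.map _
  have hkz : (k.map (ev z)).Monic := hk.map _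
  have hdeg : (g.map (ev z)).natDegree ≤ f.natDegree := by
    have h2 := congrArg natDegree hfz
    rw [hgz.natDegree_mul hkz, hf.natDegree_map] at h2
    omega
  have hroots : ∀ x ∈ (map (RingHom.id ℂ) (g.map (ev z))).roots, ‖x‖ ≤ B := by
    intro x hx
    rw [Polynomial.map_id] at hx
    have h3 : (g.map (ev z)).IsRoot x := isRoot_of_mem_roots hx
    refine cof_root hf hz1 ?_
    rw [hfz]
    exact root_mul_right_of_isRoot _ h3
  have h4 := coeff_bdd_of_roots_le (RingHom.id ℂ) hgz (IsAlgClosed.splits _) hdeg hroots i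
  rw [Polynomial.map_id, coeff_map, ev_apply] at h4
  exact h4

end Pool.Agent.CST
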