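import Pool.Agent.CST.Defs

/-!
# Mean squares, lower bound

`aeval_eq_zero_of`: the conjugation principle, from `cyclotomic n ℤ = minpoly ℤ ζ`. The product of the values of `P` at
the primitive `n`-th roots of unity is the resultant of `cyclotomic n ℤ` and `P`, a non zero integer, and `x ≥ 1 + log x`
for the squares of the absolute values.
-/

open scoped BigOperators Polynomial
open Polynomial Finset

namespace Pool.Agent.CST

/-- an integral polynomial vanishing at one primitive `n`-th root of unity vanishes at all -/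
theorem aeval_eq_zero_of {n : ℕ} (hn : 0 < n) {P : ℤ[X]} {ζ z : ℂ} (hζ : IsPrimitiveRoot ζ n)
    (hz : IsPrimitiveRoot z n) (h : aeval ζ P = 0) : aeval z P = 0 := by
  have h1 : minpoly ℤ ζ ∣ P := minpoly.isIntegrallyClosed_dvd (hζ.isIntegral hn) h
  rw [← cyclotomic_eq_minpoly hζ hn, cyclotomic_eq_minpoly hz hn] at h1
  obtain ⟨Q, rfl⟩ := h1
  rw [map_mul, minpoly.aeval, zero_mul]

/-- the product of the values is an integer -/
private theorem MsA_prod {n : ℕ} (hn : 0 < n) (P : ℤ[X]) :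
    ∃ R : ℤ, ∏ z ∈ primitiveRoots n ℂ, aeval z P = (R : ℂ) := by
  have hne : NeZero n := ⟨hn.ne'⟩
  have hne' : NeZero (n : ℂ) := ⟨by exact_mod_cast hn.ne'⟩
  refine ⟨(cyclotomic n ℤ).resultant P (cyclotomic n ℂ).natDegree P.natDegree, ?_⟩
  have h1 := resultant_eq_prod_eval (cyclotomic n ℂ) (P.map (Int.castRingHom ℂ)) P.natDegree
    natDegree_map_le (IsAlgClosed.splits _)
  rw [(cyclotomic.monic n ℂ).leadingCoeff, one_pow, one_mul,
    cyclotomic.roots_eq_primitiveRoots_val] at h1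
  have h2 : (cyclotomic n ℂ).resultant (P.map (Int.castRingHom ℂ)) (cyclotomic n ℂ).natDegree
      P.natDegree = (((cyclotomic n ℤ).resultant P (cyclotomic n ℂ).natDegree P.natDegree : ℤ) : ℂ) := by
    rw [← map_cyclotomic n (Int.castRingHom ℂ), resultant_map_map]
    rfl
  rw [← h2, h1]
  have h3 : ∀ z : ℂ, eval z (P.map (Int.castRingHom ℂ)) = aeval z P := by
    intro z
    rw [eval_map, aeval_def]
    rfl
  simp only [h3]
  rfl

theorem totient_le_Mn {n : ℕ} (hn : 0 < n) {P : ℤ[X]} {ζ : ℂ} (hζ : IsPrimitiveRoot ζ n)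
    (h : aeval ζ P ≠ 0) : (n.totient : ℝ) ≤ Mn n P := by
  have h0 : ∀ z ∈ primitiveRoots n ℂ, aeval z P ≠ 0 := by
    intro z hz h1
    exact h (aeval_eq_zero_of hn ((mem_primitiveRoots hn).1 hz) hζ h1)
  obtain ⟨R, hR⟩ := MsA_prod hn P
  have h1 : R ≠ 0 := by
    intro h2
    rw [h2, Int.cast_zero] at hR
    exact Finset.prod_ne_zero_iff.2 h0 hR
  have h2 : (1 : ℝ) ≤ ∏ z ∈ primitiveRoots n ℂ, ‖aeval z P‖ ^ 2 := by
    rw [Finset.prod_pow, ← norm_prod, hR, Complex.norm_intCast]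
    have h3 : (1 : ℝ) ≤ |(R : ℝ)| := by exact_mod_cast Int.one_le_abs h1
    exact one_le_pow₀ h3
  have h3 : ∀ z ∈ primitiveRoots n ℂ, (1 : ℝ) + Real.log (‖aeval z P‖ ^ 2) ≤ ‖aeval z P‖ ^ 2 := by
    intro z hz
    have h4 : 0 < ‖aeval z P‖ ^ 2 := by
      have := norm_pos_iff.2 (h0 z hz)
      positivity
    have := Real.log_le_sub_one_of_pos h4
    linarith
  have h4 := Finset.sum_le_sum h3
  rw [Finset.sum_add_distrib, Finset.sum_const, hζ.card_primitiveRoots, nsmul_eq_mul, mul_one] at h4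
  have h5 : ∑ z ∈ primitiveRoots n ℂ, Real.log (‖aeval z P‖ ^ 2) =
      Real.log (∏ z ∈ primitiveRoots n ℂ, ‖aeval z P‖ ^ 2) := by
    rw [Real.log_prod]
    intro z hz
    have := norm_pos_iff.2 (h0 z hz)
    positivity
  have h6 := Real.log_nonneg h2
  unfold Mn
  linarith

end Pool.Agent.CST
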