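import Pool.Agent.CST.Defs

/-!
# Dirichlet's theorem on simultaneous approximation, and its use

`dirichlet` is the pigeonhole principle for the boxes `⌊Q * (b j mod L) / L⌋`, `j ∈ J`,
`0 ≤ b ≤ Q ^ |J|`. In `exists_rep`, `η ^ a = ζ` gives `ζ ^ j = (η ^ L) ^ m * η ^ r`, and
`ℚ(ζ ^ l) ⊆ ℚ(η ^ l)` because `ζ ^ l = (η ^ l) ^ a`; the terms with the same `r` are collected.
-/

open scoped BigOperators Polynomial
open Polynomial Finset

namespace Pool.Agent.CST

private theorem dir_box {L Q x y : ℕ} (hL : 0 < L) (h : Q * x / L = Q * y / L) :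
    ((x : ℤ) - y) * Q ≤ L := by
  have h1 : Q * x < L * (Q * x / L + 1) := Nat.lt_mul_div_succ _ hL
  have h2 : L * (Q * y / L) ≤ Q * y := Nat.mul_div_le _ _
  rw [h] at h1
  have h3 : Q * x < Q * y + L := by
    calc Q * x < L * (Q * y / L + 1) := h1
      _ = L * (Q * y / L) + L := by ring
      _ ≤ Q * y + L := Nat.add_le_add_right h2 _
  have h4 : (Q : ℤ) * x < Q * y + L := by exact_mod_cast h3
  have h5 : ((x : ℤ) - y) * Q = Q * x - Q * y := by ring
  rw [h5]
  linarith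

theorem dirichlet (J : Finset ℕ) {L Q : ℕ} (hL : 0 < L) (hQ : 0 < Q) :
    ∃ a : ℕ, 0 < a ∧ a ≤ Q ^ J.card ∧ ∀ j ∈ J, ∃ m r : ℤ, (a * j : ℤ) = L * m + r ∧
      |r| * Q ≤ L := by
  have hbox : ∀ b j : ℕ, Q * (b * j % L) / L < Q := by
    intro b j
    rw [Nat.div_lt_iff_lt_mul hL]
    exact Nat.mul_lt_mul_of_pos_left (Nat.mod_lt _ hL) hQ
  let F : Fin (Q ^ J.card + 1) → (J → Fin Q) := fun b j => ⟨Q * (b.val * j.val % L) / L, hbox _ _⟩
  have hcard : Fintype.card (J → Fin Q) < Fintype.card (Fin (Q ^ J.card + 1)) := by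
    rw [Fintype.card_fun, Fintype.card_fin, Fintype.card_fin, Fintype.card_coe]
    exact Nat.lt_succ_self _
  obtain ⟨b, b', hne, hF⟩ := Fintype.exists_ne_map_eq_of_card_lt F hcard
  have key : ∀ u v : Fin (Q ^ J.card + 1), u.val < v.val → F u = F v →
      ∃ a : ℕ, 0 < a ∧ a ≤ Q ^ J.card ∧ ∀ j ∈ J, ∃ m r : ℤ, (a * j : ℤ) = L * m + r ∧
        |r| * Q ≤ L := by
    intro u v huv hE
    refine ⟨v.val - u.val, Nat.sub_pos_of_lt huv, ?_, fun j hj => ?_⟩
    · have h1 := v.isLt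
      omega
    · have h2 : Q * (u.val * j % L) / L = Q * (v.val * j % L) / L := by
        have h3 := congrFun hE ⟨j, hj⟩
        exact congrArg Fin.val h3
      refine ⟨((v.val * j / L : ℕ) : ℤ) - ((u.val * j / L : ℕ) : ℤ),
        ((v.val * j % L : ℕ) : ℤ) - ((u.val * j % L : ℕ) : ℤ), ?_, ?_⟩
      · have h4 : ((v.val * j : ℕ) : ℤ) = (L : ℤ) * ((v.val * j / L : ℕ) : ℤ) +
            ((v.val * j % L : ℕ) : ℤ) := by
          exact_mod_cast (Nat.div_add_mod (v.val * j) L).symm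
        have h5 : ((u.val * j : ℕ) : ℤ) = (L : ℤ) * ((u.val * j / L : ℕ) : ℤ) +
            ((u.val * j % L : ℕ) : ℤ) := by
          exact_mod_cast (Nat.div_add_mod (u.val * j) L).symm
        rw [Nat.cast_sub huv.le]
        push_cast at h4 h5 ⊢
        linarith
      · rcases abs_cases (((v.val * j % L : ℕ) : ℤ) - ((u.val * j % L : ℕ) : ℤ)) with
          ⟨h6, _⟩ | ⟨h6, _⟩
        · rw [h6]
          exact dir_box hL h2.symm
        · rw [h6, neg_sub]
          exact dir_box hL h2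
  rcases Nat.lt_or_ge b.val b'.val with h | h
  · exact key b b' h hF
  · rcases Nat.eq_or_lt_of_le h with h' | h'
    · exact (hne (Fin.ext h'.symm)).elim
    · exact key b' b h' hF.symm

/-- finitely many sparse numbers: after one substitution `ζ = η ^ a`, `a ≤ 8 ^ (k R)`, all have
representations with small exponents -/
theorem exists_rep {l R k : ℕ} (hl : 0 < l) {ζ : ℂ} (hζ : ζ ≠ 0) (s : Fin k → ℂ)
    (hs : ∀ i, Sparse l R ζ (s i)) :
    ∃ a : ℕ, 0 < a ∧ a ≤ 8 ^ (k * R) ∧ ∀ η : ℂ, η ^ a = ζ → ∀ i, Rep l η (s i) := by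
  choose J e hJ he hse using hs
  obtain ⟨a, ha, ha2, hd⟩ := dirichlet (Finset.univ.biUnion J) (L := l) (Q := 8) hl (by norm_num)
  have hcard : (Finset.univ.biUnion J).card ≤ k * R := by
    calc (Finset.univ.biUnion J).card ≤ ∑ i : Fin k, (J i).card := Finset.card_biUnion_le
      _ ≤ ∑ _i : Fin k, R := Finset.sum_le_sum fun i _ => hJ i
      _ = k * R := by rw [Finset.sum_const, Finset.card_univ, Fintype.card_fin, smul_eq_mul]
  refine ⟨a, ha, ha2.trans (Nat.pow_le_pow_right (by norm_num) hcard), fun η hη i => ?_⟩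
  have hη0 : η ≠ 0 := by
    rintro rfl
    rw [zero_pow ha.ne'] at hη
    exact hζ hη.symm
  have hd' : ∀ j : ℕ, ∃ m r : ℤ, j ∈ J i → (a * j : ℤ) = l * m + r ∧ |r| * 8 ≤ l := by
    intro j
    by_cases hj : j ∈ J i
    · obtain ⟨m, r, h1, h2⟩ := hd j (Finset.mem_biUnion.2 ⟨i, Finset.mem_univ _, hj⟩)
      exact ⟨m, r, fun _ => ⟨h1, by exact_mod_cast h2⟩⟩
    · exact ⟨0, 0, fun h => (hj h).elim⟩
  choose m r hmr using hd'
  have hle : Qa (ζ ^ l) ≤ Qa (η ^ l) := by
    rw [IntermediateField.adjoin_le_iff, Set.singleton_subset_iff]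
    have h1 : ζ ^ l = (η ^ l) ^ a := by rw [← hη, ← pow_mul, ← pow_mul, mul_comm]
    rw [h1]
    exact pow_mem (IntermediateField.mem_adjoin_simple_self ℚ (η ^ l)) a
  refine ⟨(J i).image r, fun q => ∑ j ∈ (J i).filter fun j => r j = q, e i j * (η ^ l) ^ m j,
    ?_, ?_, ?_⟩
  · intro q hq
    obtain ⟨j, hj, rfl⟩ := Finset.mem_image.1 hq
    exact (hmr j hj).2
  · intro q
    refine sum_mem fun j _ => mul_mem (hle (he i j)) ?_
    exact zpow_mem (IntermediateField.mem_adjoin_simple_self ℚ (η ^ l)) (m j)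
  · have h2 : ∀ j ∈ J i, e i j * ζ ^ j = e i j * (η ^ l) ^ m j * η ^ r j := by
      intro j hj
      have h3 : ζ ^ j = η ^ ((a * j : ℤ)) := by
        rw [← hη, ← pow_mul]
        exact_mod_cast (zpow_natCast η (a * j)).symm
      rw [h3, (hmr j hj).1, zpow_add₀ hη0, zpow_mul, zpow_natCast, mul_assoc]
    rw [hse i, Finset.sum_congr rfl h2]
    rw [← Finset.sum_fiberwise_of_maps_to (g := r) (t := (J i).image r)
      fun j hj => Finset.mem_image_of_mem r hj]
    refine Finset.sum_congr rfl fun q _ => ?_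
    rw [Finset.sum_mul]
    refine Finset.sum_congr rfl fun j hj => ?_
    rw [(Finset.mem_filter.1 hj).2]

end Pool.Agent.CST
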