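import Pool.Agent.CST.Lau

/-!
# A factorisation with small representations contradicts `Geo`

The factorisation is lifted to Laurent polynomials (`lift_factor`) and mapped to the rational functions over `ℚ(η ^ l)`.
-/

open scoped BigOperators Polynomial LaurentPolynomial
open Polynomial Finset

namespace Pool.Agent.CST

theorem not_factor {N l a d : ℕ} (hN : 0 < N) (hl : Spl l N) {η : ℂ}
    (hη : IsPrimitiveRoot η N) (ha : 0 < a) (f : ℤ[X][X]) (hf0 : Geo f)
    (hd : ∀ i, (f.coeff i).natDegree ≤ d) (hl1 : 16 ≤ l) (hl2 : 8 * a * d ≤ l)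
    (G H : ℂ[X]) (hG : G.Monic) (hH : H.Monic) (hf : f.map (ev (η ^ a)) = G * H)
    (hG' : ∀ i, Rep l η (G.coeff i)) (hH' : ∀ i, Rep l η (H.coeff i)) :
    G.natDegree = 0 ∨ H.natDegree = 0 := by
  have hη0 : η ≠ 0 := hη.ne_zero hN.ne'
  obtain ⟨G', H', hGm, hHm, hGd, hHd, hfac⟩ :=
    lift_factor hN hl hη (Units.mk0 η hη0) rfl f hd hl1 hl2 G H hG hH hf hG' hH'
  set y : ℂ := η ^ l with hy
  have hyi : IsIntegral ℚ y := by
    have h1 : η ^ N = 1 := hη.pow_eq_one
    refine ⟨X ^ N - 1, monic_X_pow_sub_C 1 hN.ne', ?_⟩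
    rw [eval₂_sub, eval₂_pow, eval₂_X, eval₂_one, hy, ← pow_mul, mul_comm, pow_mul, h1, one_pow, sub_self]
  have halg : Algebra.IsAlgebraic ℚ (Qa y) :=
    IntermediateField.isAlgebraic_adjoin fun x hx => by
      rw [Set.mem_singleton_iff] at hx
      rw [hx]
      exact hyi
  let φ : (Qa y)[T;T⁻¹] →+* RatFunc (Qa y) :=
    LaurentPolynomial.eval₂ (algebraMap (Qa y) (RatFunc (Qa y))) (Units.mk0 RatFunc.X RatFunc.X_ne_zero)
  have hφ : φ.comp (tsub y a) = ev ((RatFunc.X : RatFunc (Qa y)) ^ a) := by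
    refine Polynomial.ringHom_ext' (RingHom.ext_int _ _) ?_
    rw [RingHom.comp_apply, tsub, coe_eval₂RingHom, eval₂_X, ev, coe_eval₂RingHom, eval₂_X]
    change LaurentPolynomial.eval₂ _ _ (LaurentPolynomial.T (a : ℤ)) = _
    rw [LaurentPolynomial.eval₂_T, zpow_natCast, Units.val_pow_eq_pow_val, Units.val_mk0]
  have hirr : Irreducible (f.map (ev ((RatFunc.X : RatFunc (Qa y)) ^ a))) := hf0 (Qa y) halg a ha
  rw [← hφ, ← Polynomial.map_map, hfac, Polynomial.map_mul] at hirr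
  rcases hirr.isUnit_or_isUnit rfl with h1 | h1
  · left
    have h2 := (hGm.map φ).eq_one_of_isUnit h1
    rw [← hGd, ← hGm.natDegree_map φ, h2, natDegree_one]
  · right
    have h2 := (hHm.map φ).eq_one_of_isUnit h1
    rw [← hHd, ← hHm.natDegree_map φ, h2, natDegree_one]

end Pool.Agent.CST
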