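import Pool.Agent.CST.Defs

/-!
# Large numbers have a large `l` with `Spl l n`

`l = n / r`, `r` the product of the prime factors of `n`, or `l` a large prime factor of `n` whose square does not
divide `n`. `spl_mul`: multiplying `n` by `a < l` keeps `Spl`.
-/

open scoped BigOperators Polynomial
open Polynomial Finset

namespace Pool.Agent.CST

private theorem Lrg_sq {n p : ℕ} (hn : n ≠ 0) (hp : p ∈ n.primeFactors) (h : p ∣ n / p) :
    p ∣ n / ∏ q ∈ n.primeFactors, q := by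
  have hpp : p.Prime := Nat.prime_of_mem_primeFactors hp
  have hpn : p ∣ n := Nat.dvd_of_mem_primeFactors hp
  obtain ⟨k, hk⟩ := h
  have h1 : n = p * (p * k) := by
    rw [← hk, Nat.mul_div_cancel' hpn]
  obtain ⟨l, hl⟩ := Nat.prod_primeFactors_dvd n
  have hr : ∏ q ∈ n.primeFactors, q = p * ∏ q ∈ n.primeFactors.erase p, q :=
    (Finset.mul_prod_erase _ (fun q => q) hp).symm
  have hr0 : 0 < ∏ q ∈ n.primeFactors, q :=
    Finset.prod_pos fun q hq => (Nat.prime_of_mem_primeFactors hq).pos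
  have h2 : n / ∏ q ∈ n.primeFactors, q = l := Nat.div_eq_of_eq_mul_right hr0 hl
  rw [h2]
  have h3 : p * k = (∏ q ∈ n.primeFactors.erase p, q) * l := by
    have h4 : p * (p * k) = p * ((∏ q ∈ n.primeFactors.erase p, q) * l) := by
      rw [← h1, ← mul_assoc, ← hr, ← hl]
    exact Nat.eq_of_mul_eq_mul_left hpp.pos h4
  have h5 : p ∣ (∏ q ∈ n.primeFactors.erase p, q) * l := ⟨k, h3.symm⟩
  rcases hpp.dvd_mul.1 h5 with h6 | h6
  · obtain ⟨q, hq, hpq⟩ := (Prime.dvd_finsetProd_iff hpp.prime _).1 h6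
    obtain ⟨hq1, hq2⟩ := Finset.mem_erase.1 hq
    exact absurd ((Nat.prime_dvd_prime_iff_eq hpp (Nat.prime_of_mem_primeFactors hq2)).1 hpq).symm hq1
  · exact h6

theorem exists_spl (B : ℕ) : ∃ n₀ : ℕ, ∀ n, n₀ ≤ n → ∃ l, B ≤ l ∧ Spl l n := by
  refine ⟨B * B.factorial + 1, fun n hn => ?_⟩
  have hn0 : n ≠ 0 := by omega
  have hrn : (∏ q ∈ n.primeFactors, q) ∣ n := Nat.prod_primeFactors_dvd n
  have hr0 : 0 < ∏ q ∈ n.primeFactors, q :=
    Finset.prod_pos fun q hq => (Nat.prime_of_mem_primeFactors hq).pos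
  have hl0 : 0 < n / ∏ q ∈ n.primeFactors, q := Nat.div_pos (Nat.le_of_dvd (by omega) hrn) hr0
  have hln : (n / ∏ q ∈ n.primeFactors, q) ∣ n := Nat.div_dvd_of_dvd hrn
  by_cases hB : B ≤ n / ∏ q ∈ n.primeFactors, q
  · refine ⟨_, hB, hl0, hln, Or.inl fun p hp hpl => ?_⟩
    rw [Nat.div_div_self hrn hn0]
    exact Finset.dvd_prod_of_mem (fun q => q) (Nat.mem_primeFactors.2 ⟨hp, hpl.trans hln, hn0⟩)
  · have hex : ∃ p ∈ n.primeFactors, B ≤ p := by
      by_contra hcon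
      push Not at hcon
      have h1 : (∏ q ∈ n.primeFactors, q) ∣ B.factorial := by
        refine Finset.prod_primes_dvd _ (fun q hq => (Nat.prime_of_mem_primeFactors hq).prime) ?_
        intro q hq
        exact Nat.dvd_factorial (Nat.prime_of_mem_primeFactors hq).pos (hcon q hq).le
      have h2 := Nat.le_of_dvd (Nat.factorial_pos B) h1
      have h3 : n = (n / ∏ q ∈ n.primeFactors, q) * ∏ q ∈ n.primeFactors, q :=
        (Nat.div_mul_cancel hrn).symm
      have h4 : (n / ∏ q ∈ n.primeFactors, q) * ∏ q ∈ n.primeFactors, q ≤ B * B.factorial :=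
        Nat.mul_le_mul (by omega) h2
      omega
    obtain ⟨p, hp, hBp⟩ := hex
    have hpp : p.Prime := Nat.prime_of_mem_primeFactors hp
    refine ⟨p, hBp, hpp.pos, Nat.dvd_of_mem_primeFactors hp, Or.inr ⟨hpp, fun h => ?_⟩⟩
    have h1 := Nat.le_of_dvd hl0 (Lrg_sq hn0 hp h)
    omega

theorem spl_mul {l n a : ℕ} (hn : 0 < n) (h : Spl l n) (ha : 0 < a) (hal : a < l) :
    Spl l (a * n) := by
  obtain ⟨h1, h2, h3⟩ := h
  refine ⟨h1, h2.mul_left a, ?_⟩
  rw [Nat.mul_div_assoc a h2]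
  rcases h3 with h3 | ⟨h3, h4⟩
  · exact Or.inl fun p hp hpl => (h3 p hp hpl).mul_left a
  · refine Or.inr ⟨h3, fun h5 => ?_⟩
    rcases h3.dvd_mul.1 h5 with h6 | h6
    · exact absurd (Nat.le_of_dvd ha h6) (by omega)
    · exact h4 h6

end Pool.Agent.CST
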