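import Pool.Agent.CST.Spa
import Pool.Agent.CST.Dir
import Pool.Agent.CST.Fac
import Pool.Agent.CST.Cof
import Pool.Agent.CST.Lrg

/-!
# Hilbert irreducibility over roots of unity

If `f` is monic in `X` and irreducible after all the substitutions `t = z ^ a` (`Geo`), then `f(ζ, X)` has
no factorisation over `ℚ(ζ)` into monic factors of positive degree, for every root of unity `ζ` of
sufficiently large order.
-/

open scoped BigOperators Polynomial
open Polynomial Finset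

namespace Pool.Agent.CST

/-- every primitive `n`-th root of unity is the `a`-th power of a primitive `(a n)`-th root of
unity (`ζ = exp (2 π i k / n)`, `k` prime to `n`; choose `k' ≡ k` modulo `n` prime to `a n`,
`Nat.chineseRemainder` / `ZMod.unitsMap_surjective`) -/
theorem exists_root {n a : ℕ} (hn : 0 < n) (ha : 0 < a) {ζ : ℂ} (hζ : IsPrimitiveRoot ζ n) :
    ∃ η : ℂ, IsPrimitiveRoot η (a * n) ∧ η ^ a = ζ := by
  have han : 0 < a * n := Nat.mul_pos ha hn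
  have : NeZero (a * n) := ⟨han.ne'⟩
  have : NeZero n := ⟨hn.ne'⟩
  have hω := Complex.isPrimitiveRoot_exp (a * n) han.ne'
  set ω : ℂ := Complex.exp (2 * Real.pi * Complex.I / ((a * n : ℕ) : ℂ)) with hωdef
  have hωa : IsPrimitiveRoot (ω ^ a) n := hω.pow han rfl
  obtain ⟨k, hkn, hkc, hk⟩ := hωa.isPrimitiveRoot_iff.1 hζ
  obtain ⟨v, hv⟩ := ZMod.unitsMap_surjective (Dvd.intro_left a rfl : n ∣ a * n)
    (ZMod.unitOfCoprime k hkc)
  have hcop : (v : ZMod (a * n)).val.Coprime (a * n) := ZMod.val_coe_unit_coprime v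
  have hmod : (v : ZMod (a * n)).val ≡ k [MOD n] := by
    rw [← ZMod.natCast_eq_natCast_iff]
    have h1 := congrArg (Units.val) hv
    rw [ZMod.coe_unitOfCoprime] at h1
    rw [← h1, ZMod.unitsMap_val, ZMod.natCast_val]
  refine ⟨ω ^ (v : ZMod (a * n)).val, hω.pow_of_coprime _ hcop, ?_⟩
  rw [← pow_mul, mul_comm, pow_mul, ← hk]
  rw [← pow_mod_orderOf (ω ^ a) (v : ZMod (a * n)).val, ← pow_mod_orderOf (ω ^ a) k,
    ← hωa.eq_orderOf]
  exact congrArg _ hmod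

private theorem Chi_rep_zero (l : ℕ) (η : ℂ) : Rep l η 0 :=
  ⟨∅, fun _ => 0, fun r hr => absurd hr (Finset.notMem_empty r), fun _ => zero_mem _, by simp⟩

theorem chi (f : ℤ[X][X]) (hf : f.Monic) (hG : Geo f) : ∃ n₀ : ℕ, ∀ n, n₀ ≤ n → ∀ ζ : ℂ,
    IsPrimitiveRoot ζ n → ∀ G H : ℂ[X], G.Monic → H.Monic → f.map (ev ζ) = G * H →
    (∀ i, G.coeff i ∈ Qa ζ) → (∀ i, H.coeff i ∈ Qa ζ) → G.natDegree = 0 ∨ H.natDegree = 0 := by
  obtain ⟨C, hC0, hC⟩ := coeffs f hf
  set R : ℕ := ⌈2 * C ^ 2⌉₊ with hR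
  set D : ℕ := f.natDegree with hD
  obtain ⟨A, hA⟩ : ∃ A : ℕ, A = 8 ^ (2 * (D + 1) * R) := ⟨_, rfl⟩
  set d : ℕ := f.support.sup (fun i => (f.coeff i).natDegree) with hd
  have hdd : ∀ i, (f.coeff i).natDegree ≤ d := by
    intro i
    by_cases hi : i ∈ f.support
    · exact Finset.le_sup (f := fun i => (f.coeff i).natDegree) hi
    · rw [notMem_support_iff.1 hi, natDegree_zero]
      exact Nat.zero_le _
  obtain ⟨E, hE⟩ : ∃ E : ℕ, E = 8 * A * d := ⟨_, rfl⟩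
  obtain ⟨T, hT⟩ : ∃ T : ℕ, T = ⌊4 * C ^ 2⌋₊ + 1 := ⟨_, rfl⟩
  obtain ⟨n₁, hn₁⟩ := exists_spl (16 + E + T + (A + 1))
  refine ⟨n₁ + 1, ?_⟩
  intro n hn ζ hζ G H hGm hHm hfac hGc hHc
  have hn0 : 0 < n := by omega
  obtain ⟨l, hBl, hspl⟩ := hn₁ n (by omega)
  have hl0 : 0 < l := hspl.1
  have hl4 : 4 * C ^ 2 < l := by
    have h1 := Nat.lt_floor_add_one (4 * C ^ 2)
    have h2 : ((⌊4 * C ^ 2⌋₊ : ℝ) + 1) ≤ l := by
      have h3 : ⌊4 * C ^ 2⌋₊ + 1 ≤ l := by
        rw [← hT]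
        omega
      exact_mod_cast h3
    linarith
  have hR2 : 2 * C ^ 2 ≤ R := Nat.le_ceil _
  have hζ0 : ζ ≠ 0 := hζ.ne_zero hn0.ne'
  have hGs : ∀ i, Sparse l R ζ (G.coeff i) := by
    intro i
    obtain ⟨P, hP, hPz⟩ := hC n hn0 ζ hζ G H hGm hHm hfac hGc hHc i
    rw [← hP]
    exact sparse hn0 hspl hζ P hC0 hPz hl4 hR2
  have hHs : ∀ i, Sparse l R ζ (H.coeff i) := by
    intro i
    obtain ⟨P, hP, hPz⟩ := hC n hn0 ζ hζ H G hHm hGm (by rw [hfac, mul_comm]) hHc hGc i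
    rw [← hP]
    exact sparse hn0 hspl hζ P hC0 hPz hl4 hR2
  obtain ⟨a, ha0, haA, ha⟩ := exists_rep (l := l) (R := R) (k := 2 * (D + 1)) hl0 hζ0
    (fun i : Fin (2 * (D + 1)) =>
      if (i : ℕ) < D + 1 then G.coeff (i : ℕ) else H.coeff ((i : ℕ) - (D + 1)))
    (by
      intro i
      split_ifs
      · exact hGs _
      · exact hHs _)
  obtain ⟨η, hη, hηa⟩ := exists_root hn0 ha0 hζ
  have hdeg : G.natDegree + H.natDegree = D := by
    rw [← hGm.natDegree_mul hHm, ← hfac, hf.natDegree_map]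
  have hGr : ∀ i, Rep l η (G.coeff i) := by
    intro i
    by_cases hi : i < D + 1
    · have h1 := ha η hηa (⟨i, by omega⟩ : Fin (2 * (D + 1)))
      simpa [hi] using h1
    · rw [coeff_eq_zero_of_natDegree_lt (by omega)]
      exact Chi_rep_zero l η
  have hHr : ∀ i, Rep l η (H.coeff i) := by
    intro i
    by_cases hi : i < D + 1
    · have h1 := ha η hηa (⟨i + (D + 1), by omega⟩ : Fin (2 * (D + 1)))
      have h2 : ¬ (i + (D + 1) < D + 1) := by omega
      have h3 : i + (D + 1) - (D + 1) = i := by omega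
      simp only [if_neg h2, h3] at h1
      exact h1
    · rw [coeff_eq_zero_of_natDegree_lt (by omega)]
      exact Chi_rep_zero l η
  rw [← hA] at haA
  have haln : a < l := by omega
  have hspl' : Spl l (a * n) := spl_mul hn0 hspl ha0 haln
  refine not_factor (Nat.mul_pos ha0 hn0) hspl' hη ha0 f hG hdd (by omega) ?_ G H hGm hHm
    (by rw [hηa]; exact hfac) hGr hHr
  have h5 : 8 * a * d ≤ 8 * A * d := Nat.mul_le_mul_right d (Nat.mul_le_mul_left 8 haA)
  rw [← hE] at h5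
  omega

end Pool.Agent.CST
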