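import Pool.Agent.CST.Defs

/-!
# The integral closure of `ℚ[h]`

`Ah h = ℚ[h]` is a quotient of `ℚ[X]`, hence a principal ideal ring; its fraction field is `ℚ(h)`, and
`K / ℚ(h)` is finite and separable, so that the integral closure `Bh h` of `Ah h` in `K` is a Dedekind
domain with fraction field `K`. For a non zero prime `P` of `Bh h` the valuation ring of the `P`-adic
valuation of `K` is a place of `K`, with `v(b) < 1 ↔ b ∈ P` on `Bh h` (`exists_place`).
-/

open scoped BigOperators Polynomial
open Polynomial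

namespace Pool.Agent.CST

variable {K : Type} [Field K] [CharZero K]

/-- `ℚ[h]` -/
noncomputable abbrev Ah (h : K) : Subalgebra ℚ K := Algebra.adjoin ℚ {h}

/-- the integral closure of `ℚ[h]` in `K` -/
noncomputable abbrev Bh (h : K) : Subalgebra (Ah h) K := integralClosure (Ah h) K

theorem ah_pid {h : K} (hh : Transcendental ℚ h) : IsPrincipalIdealRing (Ah h) := by
  have _ := hh
  refine IsPrincipalIdealRing.of_surjective
    (aeval (⟨h, Algebra.self_mem_adjoin_singleton ℚ h⟩ : Ah h) : ℚ[X] →ₐ[ℚ] Ah h).toRingHom ?_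
  rintro ⟨x, hx⟩
  have hx' : x ∈ Algebra.adjoin ℚ {h} := hx
  rw [Algebra.adjoin_singleton_eq_range_aeval] at hx'
  obtain ⟨p, hp⟩ := hx'
  refine ⟨p, Subtype.ext ?_⟩
  have e := aeval_algHom_apply (Ah h).val ⟨h, Algebra.self_mem_adjoin_singleton ℚ h⟩ p
  exact e.symm.trans hp

open scoped IntermediateField.algebraAdjoinAdjoin in
theorem bh_dedekind {h : K} (hh : Transcendental ℚ h)
    (hK : FiniteDimensional (IntermediateField.adjoin ℚ {h}) K) : IsDedekindDomain (Bh h) := by
  have := ah_pid hh
  have := hK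
  exact integralClosure.isDedekindDomain (A := Ah h) (K := IntermediateField.adjoin ℚ {h}) (L := K)

open scoped IntermediateField.algebraAdjoinAdjoin in
theorem bh_frac {h : K} (hh : Transcendental ℚ h)
    (hK : FiniteDimensional (IntermediateField.adjoin ℚ {h}) K) : IsFractionRing (Bh h) K := by
  have := ah_pid hh
  have := hK
  exact integralClosure.isFractionRing_of_finite_extension (A := Ah h)
    (IntermediateField.adjoin ℚ {h}) K

theorem exists_place {h : K} (hh : Transcendental ℚ h)
    (hK : FiniteDimensional (IntermediateField.adjoin ℚ {h}) K) (P : Ideal (Bh h))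
    (hP : P.IsPrime) (hP0 : P ≠ ⊥) : ∃ O : ValuationSubring K, IsPl O ∧
      ∀ b : Bh h, (b : K) ∈ O ∧ (O.valuation (b : K) < 1 ↔ b ∈ P) := by
  have := bh_dedekind hh hK
  have := bh_frac hh hK
  let v : IsDedekindDomain.HeightOneSpectrum (Bh h) := ⟨P, hP, hP0⟩
  have hmem : ∀ b : Bh h, (b : K) ∈ (v.valuation K).valuationSubring := fun b =>
    (Valuation.mem_valuationSubring_iff _ _).2 (v.valuation_le_one b)
  refine ⟨(v.valuation K).valuationSubring, ⟨?_, fun q => ?_⟩, fun b => ⟨hmem b, ?_⟩⟩
  · exact (v.valuation K).valuationSubring_isDiscreteValuationRing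
  · have := hmem (algebraMap (Ah h) (Bh h) (algebraMap ℚ (Ah h) q))
    have e : (q : K) = ((algebraMap (Ah h) (Bh h) (algebraMap ℚ (Ah h) q) : Bh h) : K) :=
      (eq_ratCast (algebraMap ℚ K) q).symm
    rw [e]
    exact this
  · rw [← (Valuation.isEquiv_valuation_valuationSubring (v.valuation K)).lt_one_iff_lt_one]
    exact v.valuation_lt_one_iff_mem b

end Pool.Agent.CST
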