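import Pool.Agent.CST.Defs

/-!
# Linear independence of the powers of a root of unity over `ℚ(η ^ l)`

The degree of `η` over `ℚ(η ^ l)` is `φ(N) / φ(N / l)`, at least `l - 1`. A relation with exponents in an
interval of length `l - 1` is, after multiplication by a power of `η`, a polynomial relation of small degree.
-/

open scoped BigOperators Polynomial
open Polynomial Finset

namespace Pool.Agent.CST

private theorem deg_totient {m l : ℕ} (hm : 0 < m) (h : ∀ p, p.Prime → p ∣ l → p ∣ m)
    (hl : 0 < l) : (m * l).totient = l * m.totient := by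
  have h1 : (m * l).primeFactors = m.primeFactors := by
    rw [Nat.primeFactors_mul hm.ne' hl.ne', Finset.union_eq_left]
    intro p hp
    rw [Nat.mem_primeFactors] at hp ⊢
    exact ⟨hp.1, h p hp.1 hp.2.1, hm.ne'⟩
  have h2 := Nat.totient_mul_prod_primeFactors (m * l)
  have h3 := Nat.totient_mul_prod_primeFactors m
  rw [h1] at h2
  have hpos : 0 < ∏ p ∈ m.primeFactors, p :=
    Finset.prod_pos fun p hp => (Nat.prime_of_mem_primeFactors hp).pos
  apply Nat.eq_of_mul_eq_mul_right hpos
  rw [h2, mul_assoc l, h3]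
  ring

private theorem deg_finrank {n : ℕ} (hn : 0 < n) {z : ℂ} (hz : IsPrimitiveRoot z n) :
    Module.finrank ℚ (Qa z) = n.totient := by
  rw [IntermediateField.adjoin.finrank (hz.isIntegral hn).tower_top,
    ← Polynomial.cyclotomic_eq_minpoly_rat hz hn, natDegree_cyclotomic]

theorem degree_ge {N l : ℕ} (hN : 0 < N) (hl : Spl l N) {η : ℂ} (hη : IsPrimitiveRoot η N) :
    l - 1 ≤ (minpoly (Qa (η ^ l)) η).natDegree := by
  obtain ⟨hl0, ⟨m, hm⟩, hcase⟩ := hl
  have hm0 : 0 < m := by
    rcases Nat.eq_zero_or_pos m with h | h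
    · rw [h, mul_zero] at hm
      omega
    · exact h
  have hNl : N / l = m := by rw [hm, Nat.mul_div_cancel_left _ hl0]
  have hy : IsPrimitiveRoot (η ^ l) m := hη.pow hN hm
  have hint : IsIntegral (Qa (η ^ l)) η := ((hη.isIntegral hN).tower_top)
  have h1 : Module.finrank (Qa (η ^ l)) (IntermediateField.adjoin (Qa (η ^ l)) {η}) =
      (minpoly (Qa (η ^ l)) η).natDegree := IntermediateField.adjoin.finrank hint
  have h2 := Module.finrank_mul_finrank ℚ (Qa (η ^ l))
    (IntermediateField.adjoin (Qa (η ^ l)) {η})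
  have h3 : (IntermediateField.adjoin (Qa (η ^ l)) {η}).restrictScalars ℚ = Qa η := by
    have h30 : (IntermediateField.adjoin (Qa (η ^ l)) {η}).restrictScalars ℚ =
        IntermediateField.adjoin ℚ {η ^ l, η} :=
      IntermediateField.adjoin_simple_adjoin_simple ℚ (η ^ l) η
    rw [h30]
    apply le_antisymm
    · rw [IntermediateField.adjoin_le_iff]
      rintro z (rfl | hz)
      · exact pow_mem (IntermediateField.mem_adjoin_simple_self ℚ η) l
      · rw [Set.mem_singleton_iff] at hz
        rw [hz]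
        exact IntermediateField.mem_adjoin_simple_self ℚ η
    · rw [IntermediateField.adjoin_le_iff, Set.singleton_subset_iff]
      exact IntermediateField.subset_adjoin ℚ _ (Or.inr rfl)
  have h4 : Module.finrank ℚ (IntermediateField.adjoin (Qa (η ^ l)) {η}) = N.totient := by
    have h5 : Module.finrank ℚ ((IntermediateField.adjoin (Qa (η ^ l)) {η}).restrictScalars ℚ) =
        N.totient := by rw [h3, deg_finrank hN hη]
    exact h5
  rw [h4, deg_finrank hm0 hy, h1] at h2
  have hφ : 0 < m.totient := Nat.totient_pos.2 hm0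
  rcases hcase with hc | ⟨hp, hnd⟩
  · rw [hNl] at hc
    have h5 := deg_totient hm0 hc hl0
    rw [mul_comm m l, ← hm, ← h2, mul_comm] at h5
    have h6 := Nat.eq_of_mul_eq_mul_right hφ h5
    omega
  · rw [hNl] at hnd
    have hcop : Nat.Coprime l m := (Nat.Prime.coprime_iff_not_dvd hp).2 hnd
    rw [hm, Nat.totient_mul hcop, Nat.totient_prime hp, mul_comm] at h2
    have h6 := Nat.eq_of_mul_eq_mul_right hφ h2
    omega

theorem indep {N l : ℕ} (hN : 0 < N) (hl : Spl l N) {η : ℂ} (hη : IsPrimitiveRoot η N)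
    (c : ℤ → ℂ) (hc : ∀ r, c r ∈ Qa (η ^ l)) (I : Finset ℤ) (s : ℤ)
    (hI : ∀ r ∈ I, s ≤ r ∧ r < s + ((l : ℤ) - 1)) (h0 : ∑ r ∈ I, c r * η ^ r = 0) :
    ∀ r ∈ I, c r = 0 := by
  have hη0 : η ≠ 0 := hη.ne_zero hN.ne'
  set p : (Qa (η ^ l))[X] := ∑ r ∈ I, monomial (r - s).toNat ⟨c r, hc r⟩ with hp
  have hev : aeval η p = 0 := by
    have h1 : aeval η p = η ^ (-s) * ∑ r ∈ I, c r * η ^ r := by
      rw [hp, map_sum, Finset.mul_sum]
      refine Finset.sum_congr rfl fun r hr => ?_
      rw [aeval_monomial]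
      have h2 : η ^ (r - s).toNat = η ^ (-s) * η ^ r := by
        rw [← zpow_natCast, Int.toNat_of_nonneg (by have := (hI r hr).1; omega), ← zpow_add₀ hη0]
        congr 1
        ring
      rw [h2]
      change c r * _ = _
      ring
    rw [h1, h0, mul_zero]
  intro r hr
  have hcoeff : p.coeff (r - s).toNat = ⟨c r, hc r⟩ := by
    rw [hp, finsetSum_coeff, Finset.sum_eq_single r]
    · rw [coeff_monomial, if_pos rfl]
    · intro r' hr' hne
      rw [coeff_monomial, if_neg]
      intro h
      have h1 := (hI r hr).1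
      have h2 := (hI r' hr').1
      omega
    · exact fun h => absurd hr h
  by_contra hcr
  have hp0 : p ≠ 0 := by
    intro h
    rw [h, coeff_zero] at hcoeff
    exact hcr (congrArg Subtype.val hcoeff).symm
  have h1 := natDegree_le_natDegree (minpoly.degree_le_of_ne_zero (Qa (η ^ l)) η hp0 hev)
  have h2 := degree_ge hN hl hη
  have h3 : p.natDegree < l - 1 := by
    have h4 : ∀ r ∈ I, (monomial (r - s).toNat (⟨c r, hc r⟩ : Qa (η ^ l))).natDegree ≤ l - 2 := by
      intro r hr
      refine (natDegree_monomial_le _).trans ?_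
      have h5 := hI r hr
      omega
    have h5 : p.natDegree ≤ l - 2 := natDegree_sum_le_of_forall_le I _ h4
    have h6 := hI r hr
    omega
  omega

end Pool.Agent.CST
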