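import Pool.Agent.CST.PlD
import Pool.Agent.CST.Chi

/-!
# `Φ_n(g)` generates a maximal ideal of the integral closure of `ℚ[g]`

Let `κ = Ah g ⧸ (Φ_n(g))`, it embeds into `ℂ` with image `ℚ(ζ)`, `ζ` a primitive `n`-th root of unity. By `chi` the
polynomial `f(ζ, X)` is irreducible over `ℚ(ζ)`, hence its transport is irreducible over `κ`. The ring
`Bh g ⧸ Φ_n(g) Bh g` has dimension `[K : ℚ(g)]` over `κ`, so it is equal to the image of the field `κ[X] ⧸ (f)`.
-/

open scoped BigOperators Polynomial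
open Polynomial

namespace Pool.Agent.CST

variable {K : Type} [Field K] [CharZero K]

/-- `Φ_n(g)`, an element of `Bh g` -/
noncomputable def phB (g : K) (n : ℕ) : Bh g :=
  algebraMap (Ah g) (Bh g) ⟨aeval g (cyclotomic n ℚ), aeval_mem_adjoin_singleton ℚ g⟩

theorem phB_val (g : K) (n : ℕ) : ((phB g n : Bh g) : K) = aeval g (cyclotomic n ℚ) := rfl

section abstract_part

attribute [local instance] Ideal.Quotient.field

set_option linter.deprecated false in
private theorem PlC_max {A B F L : Type} [CommRing A] [IsDedekindDomain A] [CommRing B] [IsDomain B]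
    [Algebra A B] [Field F] [Field L] [Algebra A F] [IsFractionRing A F] [Algebra B L] [IsFractionRing B L]
    [Algebra F L] [Algebra A L] [IsScalarTower A F L] [IsScalarTower A B L] [Module.Finite A B]
    (p : Ideal A) [hp : p.IsMaximal] (h : A[X]) (hm : h.Monic) (hd : h.natDegree = Module.finrank F L)
    (h0 : 0 < h.natDegree) (θ : B) (hθ : h.eval₂ (algebraMap A B) θ = 0)
    (hi : Irreducible (h.map (Ideal.Quotient.mk p))) : (p.map (algebraMap A B)).IsMaximal := by
  have hfr : Module.finrank (A ⧸ p) (B ⧸ p.map (algebraMap A B)) = Module.finrank F L :=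
    Ideal.finrank_quotient_map p F L
  have hpos : 0 < Module.finrank (A ⧸ p) (B ⧸ p.map (algebraMap A B)) := by
    rw [hfr, ← hd]
    exact h0
  have : Module.Finite (A ⧸ p) (B ⧸ p.map (algebraMap A B)) := Module.finite_of_finrank_pos hpos
  have : Nontrivial (B ⧸ p.map (algebraMap A B)) := Module.nontrivial_of_finrank_pos hpos
  have : Fact (Irreducible (h.map (Ideal.Quotient.mk p))) := ⟨hi⟩
  have hr : (h.map (Ideal.Quotient.mk p)).eval₂ (algebraMap (A ⧸ p) (B ⧸ p.map (algebraMap A B)))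
      (Ideal.Quotient.mk _ θ) = 0 := by
    rw [eval₂_map]
    have h1 : (algebraMap (A ⧸ p) (B ⧸ p.map (algebraMap A B))).comp (Ideal.Quotient.mk p) =
        (Ideal.Quotient.mk (p.map (algebraMap A B))).comp (algebraMap A B) := by
      ext x
      rfl
    rw [h1, ← hom_eval₂, hθ, map_zero]
  let ρ : AdjoinRoot (h.map (Ideal.Quotient.mk p)) →ₐ[A ⧸ p] (B ⧸ p.map (algebraMap A B)) :=
    AdjoinRoot.liftAlgHom _ (Algebra.ofId _ _) (Ideal.Quotient.mk _ θ) hr
  have hinj : Function.Injective ρ := ρ.toRingHom.injective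
  have hfin : FiniteDimensional (A ⧸ p) (AdjoinRoot (h.map (Ideal.Quotient.mk p))) :=
    (AdjoinRoot.powerBasis hi.ne_zero).finite
  have hfr2 : Module.finrank (A ⧸ p) (AdjoinRoot (h.map (Ideal.Quotient.mk p))) =
      Module.finrank (A ⧸ p) (B ⧸ p.map (algebraMap A B)) := by
    rw [(AdjoinRoot.powerBasis hi.ne_zero).finrank, AdjoinRoot.powerBasis_dim, hfr, ← hd,
      hm.natDegree_map]
  have hsur : Function.Surjective ρ :=
    (LinearMap.injective_iff_surjective_of_finrank_eq_finrank (f := ρ.toLinearMap) hfr2).1 hinj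
  refine Ideal.Quotient.maximal_of_isField _ ?_
  exact (RingEquiv.ofBijective ρ.toRingHom ⟨hinj, hsur⟩).symm.toMulEquiv.isField
    (Field.toIsField (AdjoinRoot (h.map (Ideal.Quotient.mk p))))

end abstract_part

section conc

open scoped IntermediateField.algebraAdjoinAdjoin

private theorem PlC_finite {g : K} (hg : Transcendental ℚ g)
    (hK : FiniteDimensional (IntermediateField.adjoin ℚ {g}) K) : Module.Finite (Ah g) (Bh g) := by
  have := ah_pid hg
  exact IsIntegralClosure.finite (Ah g) (IntermediateField.adjoin ℚ {g}) K (Bh g)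

/-- the coefficients -/
private noncomputable def PlC_al (g : K) : ℤ[X] →+* Ah g :=
  Polynomial.eval₂RingHom (Int.castRingHom (Ah g)) ⟨g, Algebra.self_mem_adjoin_singleton ℚ g⟩

private theorem PlC_al_comp (g : K) : (algebraMap (Ah g) K).comp (PlC_al g) = ev g := by
  refine Polynomial.ringHom_ext' (RingHom.ext_int _ _) ?_
  rw [RingHom.comp_apply, PlC_al, ev, coe_eval₂RingHom, coe_eval₂RingHom, eval₂_X, eval₂_X]
  rfl

theorem span_maximal {g θ : K} {f : ℤ[X][X]} (hm : Model g θ f) (hG : Geo f)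
    (hK : FiniteDimensional (IntermediateField.adjoin ℚ {g}) K) :
    ∃ n₀ : ℕ, ∀ n, n₀ ≤ n → (Ideal.span {phB g n}).IsMaximal := by
  obtain ⟨n₀, hn₀⟩ := chi f hm.monic hG
  refine ⟨max n₀ 1, fun n hn => ?_⟩
  have hn1 : n₀ ≤ n := (le_max_left _ _).trans hn
  have hn2 : 1 ≤ n := (le_max_right _ _).trans hn
  have : NeZero n := ⟨by omega⟩
  obtain ⟨ζ, hζ⟩ : ∃ ζ : ℂ, IsPrimitiveRoot ζ n := ⟨_, Complex.isPrimitiveRoot_exp n (by omega)⟩
  have hg := hm.tr
  have := ah_pid hg
  have := bh_frac hg hK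
  have := PlC_finite hg hK
  let e : ℚ[X] ≃ₐ[ℚ] Ah g := Polynomial.algEquivOfTranscendental ℚ g hg
  let φ : Ah g →+* ℂ := ((aeval ζ : ℚ[X] →ₐ[ℚ] ℂ).comp e.symm.toAlgHom).toRingHom
  have hφ : ∀ q : ℚ[X], φ (e q) = aeval ζ q := fun q => by
    change aeval ζ (e.symm (e q)) = _
    rw [AlgEquiv.symm_apply_apply]
  have hex : e X = ⟨g, Algebra.self_mem_adjoin_singleton ℚ g⟩ :=
    Polynomial.algEquivOfTranscendental_apply_X ℚ g hg
  have hφg : φ ⟨g, Algebra.self_mem_adjoin_singleton ℚ g⟩ = ζ := by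
    rw [← hex, hφ, aeval_X]
  have hφal : φ.comp (PlC_al g) = ev ζ := by
    refine Polynomial.ringHom_ext' (RingHom.ext_int _ _) ?_
    rw [RingHom.comp_apply, PlC_al, ev, coe_eval₂RingHom, coe_eval₂RingHom, eval₂_X, eval₂_X, hφg]
  set P : Ah g := ⟨aeval g (cyclotomic n ℚ), aeval_mem_adjoin_singleton ℚ g⟩ with hP
  have heP : e (cyclotomic n ℚ) = P := by
    apply Subtype.ext
    change ((aeval (⟨g, Algebra.self_mem_adjoin_singleton ℚ g⟩ : Ah g) (cyclotomic n ℚ) : Ah g) : K) = _
    rw [hP]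
    exact (Polynomial.aeval_subalgebra_coe _ _ _)
  have hPi : Irreducible P := by
    rw [← heP, MulEquiv.irreducible_iff e]
    exact cyclotomic.irreducible_rat (by omega)
  have hmax : (Ideal.span {P}).IsMaximal := PrincipalIdealRing.isMaximal_of_irreducible hPi
  have hker : ∀ x ∈ Ideal.span {P}, φ x = 0 := by
    intro x hx
    obtain ⟨y, rfl⟩ := Ideal.mem_span_singleton'.1 hx
    rw [map_mul, ← heP, hφ]
    have h1 : aeval ζ (cyclotomic n ℚ) = 0 := by
      rw [aeval_def, eval₂_eq_eval_map, map_cyclotomic]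
      exact (isRoot_cyclotomic_iff.2 hζ)
    rw [h1, mul_zero]
  letI := Ideal.Quotient.field (Ideal.span {P})
  let φb : Ah g ⧸ Ideal.span {P} →+* ℂ := Ideal.Quotient.lift (Ideal.span {P}) φ hker
  have hφb : φb.comp (Ideal.Quotient.mk (Ideal.span {P})) = φ := RingHom.ext fun x => rfl
  have hQa : ∀ x, φb x ∈ Qa ζ := by
    intro x
    obtain ⟨a, rfl⟩ := Ideal.Quotient.mk_surjective x
    have h1 : φb (Ideal.Quotient.mk (Ideal.span {P}) a) = aeval ζ (e.symm a) := by
      rw [← hφ, AlgEquiv.apply_symm_apply]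
      rfl
    rw [h1]
    exact (IntermediateField.algebra_adjoin_le_adjoin ℚ {ζ}) (aeval_mem_adjoin_singleton ℚ ζ)
  have hθi : IsIntegral (Ah g) θ := by
    refine ⟨f.map (PlC_al g), hm.monic.map _, ?_⟩
    rw [eval₂_map, PlC_al_comp]
    exact hm.root
  have hirr : Irreducible ((f.map (PlC_al g)).map (Ideal.Quotient.mk (Ideal.span {P}))) := by
    have hmon : ((f.map (PlC_al g)).map (Ideal.Quotient.mk (Ideal.span {P}))).Monic :=
      (hm.monic.map _).map _
    rw [hmon.irreducible_iff_natDegree]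
    refine ⟨fun h1 => ?_, fun G H hG' hH' hGH => ?_⟩
    · have h2 := congrArg natDegree h1
      rw [(hm.monic.map _).natDegree_map, hm.monic.natDegree_map, natDegree_one] at h2
      have := hm.pos
      omega
    · have h3 : f.map (ev ζ) = G.map φb * H.map φb := by
        rw [← Polynomial.map_mul, hGH, Polynomial.map_map, Polynomial.map_map, hφb, hφal]
      have h4 := hn₀ n hn1 ζ hζ (G.map φb) (H.map φb) (hG'.map _) (hH'.map _) h3
        (fun i => by rw [coeff_map]; exact hQa _) (fun i => by rw [coeff_map]; exact hQa _)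
      rwa [natDegree_map, natDegree_map] at h4
  have hfin := PlC_max (A := Ah g) (B := Bh g) (F := IntermediateField.adjoin ℚ {g}) (L := K) (Ideal.span {P})
    (f.map (PlC_al g)) (hm.monic.map _) (by rw [hm.monic.natDegree_map]; exact hm.deg)
    (by rw [hm.monic.natDegree_map]; exact hm.pos) ⟨θ, hθi⟩ (by
      apply Subtype.ext
      have h5 : ((algebraMap (Bh g) K) (eval₂ (algebraMap (Ah g) (Bh g)) ⟨θ, hθi⟩ (f.map (PlC_al g)))) = 0 := by
        rw [hom_eval₂, eval₂_map]
        have h6 : ((algebraMap (Bh g) K).comp (algebraMap (Ah g) (Bh g))).comp (PlC_al g) = ev g :=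
          PlC_al_comp g
        rw [h6]
        exact hm.root
      exact h5) hirr
  rw [Ideal.map_span, Set.image_singleton] at hfin
  exact hfin

end conc

end Pool.Agent.CST
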