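import Pool.Agent.CST.PlC
import Pool.Agent.CST.PlE

/-!
# Exactly one closed point over `Φ_n(g)`

`Φ_n(g)` generates a maximal ideal of `Bh g` for large `n`; a place where its value is less than one contains
`g`, because `g` is integral over the valuation ring, and is determined by its centre.
-/

open scoped BigOperators Polynomial
open Polynomial

namespace Pool.Agent.CST

variable {K : Type} [Field K] [CharZero K]

private theorem plf_eval (R : Type) [CommRing R] [Algebra R K] (g : K) (n : ℕ) :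
    eval₂ (algebraMap R K) g (cyclotomic n R) = aeval g (cyclotomic n ℚ) := by
  rw [aeval_def, ← eval_map, ← eval_map, map_cyclotomic, map_cyclotomic]

theorem mem_of_val_lt {g : K} {O : ValuationSubring K} (hO : IsPl O) {n : ℕ} (hn : 0 < n)
    (h : O.valuation (aeval g (cyclotomic n ℚ)) < 1) : g ∈ O := by
  have h1 : aeval g (cyclotomic n ℚ) ∈ O := (O.valuation_le_one_iff _).1 h.le
  have h2 : IsIntegral O g := by
    refine ⟨cyclotomic n O - C ⟨aeval g (cyclotomic n ℚ), h1⟩, ?_, ?_⟩
    · refine (cyclotomic.monic n O).sub_of_left ?_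
      refine lt_of_le_of_lt degree_C_le ?_
      rw [degree_cyclotomic]
      exact_mod_cast Nat.totient_pos.2 hn
    · rw [eval₂_sub, plf_eval O g n, eval₂_C]
      exact sub_self _
  obtain ⟨y, hy⟩ := IsIntegrallyClosed.isIntegral_iff.1 h2
  rw [← hy]
  exact y.2

theorem unique_point {g θ : K} {f : ℤ[X][X]} (hm : Model g θ f) (hG : Geo f)
    (hK : FiniteDimensional (IntermediateField.adjoin ℚ {g}) K) :
    ∃ n₀ : ℕ, 0 < n₀ ∧ ∀ n, n₀ ≤ n → ∃ O : ValuationSubring K, IsPl O ∧
      O.valuation (aeval g (cyclotomic n ℚ)) < 1 ∧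
      (∀ O' : ValuationSubring K, IsPl O' →
        O'.valuation (aeval g (cyclotomic n ℚ)) < 1 → O' = O) ∧
      ∀ x : K, O.valuation x < 1 → O.valuation x ≤ O.valuation (aeval g (cyclotomic n ℚ)) := by
  obtain ⟨n₀, h0⟩ := span_maximal hm hG hK
  refine ⟨n₀ + 1, Nat.succ_pos _, fun n hn => ?_⟩
  have hmax := h0 n (by omega)
  have hn0 : 0 < n := by omega
  have hne : phB g n ≠ 0 := by
    intro h
    have h1 : aeval g (cyclotomic n ℚ) = 0 := by
      rw [← phB_val, h]
      rfl
    exact cyclotomic_ne_zero n ℚ ((transcendental_iff.1 hm.tr) _ h1)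
  have hb : Ideal.span {phB g n} ≠ ⊥ := by
    rw [Ne, Ideal.span_singleton_eq_bot]
    exact hne
  obtain ⟨O, hO, hOb⟩ := exists_place hm.tr hK _ hmax.isPrime hb
  have h1 : O.valuation (aeval g (cyclotomic n ℚ)) < 1 :=
    (hOb (phB g n)).2.2 (Ideal.mem_span_singleton_self _)
  have hgO := mem_of_val_lt hO hn0 h1
  refine ⟨O, hO, h1, fun O' hO' h2 => ?_, fun x hx => ?_⟩
  · have hgO' := mem_of_val_lt hO' hn0 h2
    obtain ⟨P', hP', -, hc⟩ := exists_center hm.tr hK hO' hgO'
    have h3 : phB g n ∈ P' := (hc _).1 h2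
    have h4 : Ideal.span {phB g n} = P' :=
      hmax.eq_of_le hP'.ne_top ((Ideal.span_singleton_le_iff_mem _).2 h3)
    refine place_unique hm.tr hK hO' hO hgO' hgO fun b => ?_
    rw [hc, (hOb b).2, h4]
  · exact uniformizer hm.tr hK hO hgO (π := phB g n) (fun b => (hOb b).2) hx

end Pool.Agent.CST
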