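import Pool.Agent.CST.Defs

/-!
# Algebraic numbers keep their degree over `K`

`minpoly K α` divides `(minpoly ℚ α).map`, is monic, so its coefficients are integral over
`ℚ` (`integralClosure.mem_lifts_of_monic_of_dvd_map` with `R = ℚ`), hence algebraic over `ℚ`, hence
rational (`Cst K`): `minpoly K α = q.map`, `q` monic, `aeval α q = 0`, so `minpoly ℚ α ∣ q`, and the
degrees agree.
-/

open scoped BigOperators Polynomial
open Polynomial

namespace Pool.Agent.CST

theorem minpoly_map {K L : Type} [Field K] [CharZero K] [Field L] [CharZero L] [Algebra K L]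
    (hc : Cst K) {α : L} (hα : IsAlgebraic ℚ α) :
    minpoly K α = (minpoly ℚ α).map (algebraMap ℚ K) := by
  have hi : IsIntegral ℚ α := hα.isIntegral
  have hiK : IsIntegral K α := hi.tower_top
  have hdvd : minpoly K α ∣ (minpoly ℚ α).map (algebraMap ℚ K) := minpoly.dvd_map_of_isScalarTower ℚ K α
  have hl := integralClosure.mem_lifts_of_monic_of_dvd_map K (minpoly.monic hi)
    (minpoly.monic hiK) hdvd
  have hl2 : minpoly K α ∈ Polynomial.lifts (algebraMap ℚ K) := by
    rw [Polynomial.lifts_iff_coeff_lifts] at hl ⊢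
    intro n
    obtain ⟨a, ha⟩ := hl n
    have h1 : IsAlgebraic ℚ ((minpoly K α).coeff n) := by
      rw [← ha]
      have h2 : IsIntegral ℚ (a : K) := a.2
      exact h2.isAlgebraic
    obtain ⟨q, hq⟩ := hc _ h1
    refine ⟨q, ?_⟩
    rw [← hq]
    simp
  obtain ⟨q, hq1, hq2, hq3⟩ := Polynomial.lifts_and_degree_eq_and_monic hl2 (minpoly.monic hiK)
  have hz : aeval α q = 0 := by
    have h1 : aeval α (minpoly K α) = 0 := minpoly.aeval K α
    rw [← hq1] at h1
    rw [← h1, aeval_map_algebraMap]
  have h4 : minpoly ℚ α ∣ q := minpoly.dvd ℚ α hz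
  have h5 : (minpoly ℚ α).map (algebraMap ℚ K) ∣ minpoly K α := by
    rw [← hq1]
    exact Polynomial.map_dvd _ h4
  exact Polynomial.eq_of_monic_of_associated (minpoly.monic hiK)
    ((minpoly.monic hi).map _) (associated_of_dvd_dvd hdvd h5)

end Pool.Agent.CST
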