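import Pool.Agent.CST.Defs

/-!
# Few unequal pairs: one value is taken almost always

The average over `i` of the number of `j` with `c j ≠ c i` is twice the number of unequal pairs divided by `p`.
-/

open scoped BigOperators Polynomial
open Polynomial Finset

namespace Pool.Agent.CST

private theorem Cmb_sum (c : ℕ → ℂ) (p : ℕ) :
    ∑ i ∈ range p, ((range p).filter fun j => c j ≠ c i).card =
      2 * ((range p ×ˢ range p).filter fun x => x.1 < x.2 ∧ c x.1 ≠ c x.2).card := by
  have hU : ((range p ×ˢ range p).filter fun x => x.1 < x.2 ∧ c x.1 ≠ c x.2).card =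
      ∑ i ∈ range p, ∑ j ∈ range p, (if i < j ∧ c i ≠ c j then 1 else 0) := by
    rw [Finset.card_filter, Finset.sum_product]
  have hV : ∑ i ∈ range p, ∑ j ∈ range p, (if j < i ∧ c j ≠ c i then 1 else 0) =
      ∑ i ∈ range p, ∑ j ∈ range p, (if i < j ∧ c i ≠ c j then 1 else 0) := by
    rw [Finset.sum_comm]
  have h1 : ∀ i j : ℕ, (if c j ≠ c i then 1 else 0) =
      (if i < j ∧ c i ≠ c j then 1 else 0) + (if j < i ∧ c j ≠ c i then 1 else 0) := by
    intro i j
    rcases lt_trichotomy i j with h | h | h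
    · by_cases he : c j = c i
      · simp [he]
      · have he' : c i ≠ c j := fun e => he e.symm
        simp [he, he', h, not_lt_of_gt h]
    · subst h
      simp
    · by_cases he : c j = c i
      · simp [he]
      · have he' : c i ≠ c j := fun e => he e.symm
        simp [he, he', h, not_lt_of_gt h]
  have h2 : ∑ i ∈ range p, ((range p).filter fun j => c j ≠ c i).card =
      ∑ i ∈ range p, ∑ j ∈ range p, ((if i < j ∧ c i ≠ c j then 1 else 0) +
        (if j < i ∧ c j ≠ c i then 1 else 0)) := by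
    refine Finset.sum_congr rfl fun i _ => ?_
    rw [Finset.card_filter]
    exact Finset.sum_congr rfl fun j _ => h1 i j
  rw [h2, hU]
  simp only [Finset.sum_add_distrib]
  rw [hV]
  ring

theorem exists_value {p : ℕ} {M : ℝ} (c : ℕ → ℂ) (hp : 0 < p) (hM0 : 0 ≤ M) (hM : 4 * M < p)
    (h : ((((range p ×ˢ range p).filter fun x => x.1 < x.2 ∧ c x.1 ≠ c x.2).card : ℕ) : ℝ) ≤
      (p - 1) * M) :
    ∃ j₀ ∈ range p, ((((range p).filter fun j => c j ≠ c j₀).card : ℕ) : ℝ) ≤ 2 * M := by
  have h1 : ∑ i ∈ range p, ((((range p).filter fun j => c j ≠ c i).card : ℕ) : ℝ) ≤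
      ∑ _i ∈ range p, 2 * M := by
    have h2 := Cmb_sum c p
    have h3 : ∑ i ∈ range p, ((((range p).filter fun j => c j ≠ c i).card : ℕ) : ℝ) =
        2 * ((((range p ×ˢ range p).filter fun x => x.1 < x.2 ∧ c x.1 ≠ c x.2).card : ℕ) : ℝ) := by
      exact_mod_cast h2
    rw [h3, Finset.sum_const, Finset.card_range, nsmul_eq_mul]
    have hp' : (1 : ℝ) ≤ p := by exact_mod_cast hp
    nlinarith
  exact Finset.exists_le_of_sum_le (Finset.nonempty_range_iff.2 hp.ne') h1

end Pool.Agent.CST
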