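import Pool.Agent.CST.Dec
import Pool.Agent.CST.MsA

/-!
# Mean squares of a decomposed polynomial, second case (`n = p * m`, `p` prime, `p ∤ m`)

Let `q * p ≡ 1` modulo `m`. For a primitive `m`-th root of unity `y` the solutions of `z ^ p = y` are
`y ^ q`, of order `m`, and `p - 1` primitive `n`-th roots of unity. The sum of `‖P(z)‖ ^ 2` over the latter is
`∑_{i < j} ‖c_i - c_j‖ ^ 2`, with `c_j = y ^ (q j) * aeval y (dec p P j)`, by `parseval` and an elementary identity.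
The differences are the values of integral polynomials at `y`; use `totient_le_Mn` for each of them.
-/

open scoped BigOperators Polynomial
open Polynomial Finset

namespace Pool.Agent.CST

private theorem MsC_inv {p m : ℕ} (hp : p.Prime) (hm : 0 < m) (hpm : ¬ p ∣ m) :
    ∃ q : ℕ, q * p ≡ 1 [MOD m] := by
  have hco : Nat.Coprime p m := (Nat.Prime.coprime_iff_not_dvd hp).2 hpm
  rcases Nat.lt_or_ge 1 m with h | h
  · obtain ⟨q, _, hq⟩ := Nat.exists_mul_mod_eq_one_of_coprime hco h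
    exact ⟨q, by rw [Nat.ModEq, mul_comm, hq, Nat.mod_eq_of_lt h]⟩
  · have h1 : m = 1 := by omega
    rw [h1]
    exact ⟨1, Nat.modEq_one⟩

private theorem MsC_pow {p m q : ℕ} (hq : q * p ≡ 1 [MOD m]) {y : ℂ} (hy : y ^ m = 1) :
    (y ^ q) ^ p = y := by
  rw [← pow_mul, pow_eq_pow_of_modEq hq hy, pow_one]

/-- the sum over the pairs `i < j` as a double sum -/
private theorem MsC_pairs (p : ℕ) (f : ℕ → ℕ → ℝ) :
    ∑ x ∈ (range p ×ˢ range p).filter (fun x => x.1 < x.2), f x.1 x.2 =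
      ∑ j ∈ range p, ∑ i ∈ range j, f i j := by
  rw [Finset.sum_filter, Finset.sum_product_right]
  refine Finset.sum_congr rfl fun j hj => ?_
  have hj' := Finset.mem_range.1 hj
  rw [← Finset.sum_filter]
  have h1 : (range p).filter (fun i => i < j) = range j := by
    ext i
    rw [Finset.mem_filter, Finset.mem_range, Finset.mem_range]
    constructor
    · exact fun h => h.2
    · exact fun h => ⟨h.trans hj', h⟩
  rw [h1]

private theorem MsC_id (p : ℕ) (c : ℕ → ℂ) :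
    (p : ℝ) * ∑ j ∈ range p, ‖c j‖ ^ 2 - ‖∑ j ∈ range p, c j‖ ^ 2 =
      ∑ x ∈ (range p ×ˢ range p).filter (fun x => x.1 < x.2), ‖c x.1 - c x.2‖ ^ 2 := by
  rw [MsC_pairs p fun i j => ‖c i - c j‖ ^ 2]
  induction p with
  | zero => simp
  | succ p ih =>
    rw [Finset.sum_range_succ (fun j => ∑ i ∈ range j, ‖c i - c j‖ ^ 2), ← ih, Finset.sum_range_succ,
      Finset.sum_range_succ]
    have h1 : ∑ i ∈ range p, ‖c i - c p‖ ^ 2 = ∑ i ∈ range p, ‖c i‖ ^ 2 + p * ‖c p‖ ^ 2 -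
        2 * ((∑ i ∈ range p, c i) * (starRingEnd ℂ) (c p)).re := by
      rw [Finset.sum_mul, Complex.re_sum, Finset.mul_sum]
      have h2 : ∀ i ∈ range p, ‖c i - c p‖ ^ 2 = ‖c i‖ ^ 2 + ‖c p‖ ^ 2 -
          2 * (c i * (starRingEnd ℂ) (c p)).re := by
        intro i _
        rw [← Complex.normSq_eq_norm_sq, ← Complex.normSq_eq_norm_sq, ← Complex.normSq_eq_norm_sq,
          Complex.normSq_sub]
      rw [Finset.sum_congr rfl h2, Finset.sum_sub_distrib, Finset.sum_add_distrib, Finset.sum_const,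
        Finset.card_range, nsmul_eq_mul]
    have h3 : ‖∑ j ∈ range p, c j + c p‖ ^ 2 = ‖∑ j ∈ range p, c j‖ ^ 2 + ‖c p‖ ^ 2 +
        2 * ((∑ i ∈ range p, c i) * (starRingEnd ℂ) (c p)).re := by
      rw [← Complex.normSq_eq_norm_sq, ← Complex.normSq_eq_norm_sq, ← Complex.normSq_eq_norm_sq,
        Complex.normSq_add]
    rw [h1, h3]
    push_cast
    ring

private theorem MsC_fibre {p m q : ℕ} (hp : p.Prime) (hm : 0 < m) (hpm : ¬ p ∣ m)
    (hq : q * p ≡ 1 [MOD m]) {y : ℂ} (hy : IsPrimitiveRoot y m) :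
    (primitiveRoots (p * m) ℂ).filter (fun z => z ^ p = y) = (nthRoots p y).toFinset.erase (y ^ q) := by
  have hn : 0 < p * m := Nat.mul_pos hp.pos hm
  have hw := MsC_pow hq hy.pow_eq_one
  have hy0 : y ≠ 0 := hy.ne_zero hm.ne'
  ext z
  rw [Finset.mem_filter, mem_primitiveRoots hn, Finset.mem_erase, Multiset.mem_toFinset,
    mem_nthRoots hp.pos]
  constructor
  · rintro ⟨h1, h2⟩
    refine ⟨fun h3 => ?_, h2⟩
    have h4 : z ^ m = 1 := by rw [h3, ← pow_mul, mul_comm, pow_mul, hy.pow_eq_one, one_pow]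
    have h5 := Nat.le_of_dvd hm (h1.dvd_of_pow_eq_one m h4)
    have h6 := hp.two_le
    nlinarith
  · rintro ⟨h1, h2⟩
    refine ⟨?_, h2⟩
    have hw0 : y ^ q ≠ 0 := pow_ne_zero _ hy0
    have h3 : (z / y ^ q) ^ p = 1 := by
      rw [div_pow, h2, hw, div_self hy0]
    have h4 : z / y ^ q ≠ 1 := fun h => h1 ((div_eq_one_iff_eq hw0).1 h)
    have hfp : Fact p.Prime := ⟨hp⟩
    have h5 : orderOf (z / y ^ q) = p := orderOf_eq_prime h3 h4
    have h6 : orderOf (y ^ q) = m := by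
      refine Nat.dvd_antisymm (orderOf_dvd_of_pow_eq_one ?_) ?_
      · rw [← pow_mul, mul_comm, pow_mul, hy.pow_eq_one, one_pow]
      · refine hy.dvd_of_pow_eq_one _ ?_
        have h7 : (y ^ q) ^ (p * orderOf (y ^ q)) = 1 := by
          rw [mul_comm, pow_mul, pow_orderOf_eq_one, one_pow]
        rw [pow_mul, hw] at h7
        exact h7
    have h8 : orderOf (y ^ q * (z / y ^ q)) = m * p := by
      rw [(Commute.all _ _).orderOf_mul_eq_mul_orderOf_of_coprime, h5, h6]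
      rw [h5, h6]
      exact ((Nat.Prime.coprime_iff_not_dvd hp).2 hpm).symm
    rw [mul_div_cancel₀ _ hw0] at h8
    have h9 := IsPrimitiveRoot.orderOf z
    rw [h8, mul_comm] at h9
    exact h9

private theorem MsC_mem (y : ℂ) (Q : ℤ[X]) : aeval y Q ∈ Qa y := by
  rw [aeval_eq_sum_range]
  refine sum_mem fun i _ => ?_
  exact zsmul_mem (pow_mem (IntermediateField.mem_adjoin_simple_self ℚ y) i) _

/-- the difference of two coefficients -/
private noncomputable def MsC_R (p q : ℕ) (P : ℤ[X]) (i j : ℕ) : ℤ[X] :=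
  X ^ (q * i) * dec p P i - X ^ (q * j) * dec p P j

private theorem MsC_aeval (p q : ℕ) (P : ℤ[X]) (i j : ℕ) (y : ℂ) :
    aeval y (MsC_R p q P i j) = (y ^ q) ^ i * aeval y (dec p P i) - (y ^ q) ^ j * aeval y (dec p P j) := by
  unfold MsC_R
  rw [map_sub, map_mul, map_mul, map_pow, map_pow, aeval_X, pow_mul, pow_mul]

private theorem MsC_sum {p m q : ℕ} (hp : p.Prime) (hm : 0 < m) (hpm : ¬ p ∣ m)
    (hq : q * p ≡ 1 [MOD m]) (P : ℤ[X]) :
    Mn (p * m) P = ∑ x ∈ (range p ×ˢ range p).filter (fun x => x.1 < x.2), Mn m (MsC_R p q P x.1 x.2) := by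
  have hn : 0 < p * m := Nat.mul_pos hp.pos hm
  unfold Mn
  rw [Finset.sum_comm]
  have hmap : ∀ z ∈ primitiveRoots (p * m) ℂ, z ^ p ∈ primitiveRoots m ℂ := by
    intro z hz
    rw [mem_primitiveRoots hm]
    exact ((mem_primitiveRoots hn).1 hz).pow hn rfl
  rw [← Finset.sum_fiberwise_of_maps_to hmap]
  refine Finset.sum_congr rfl fun y hy => ?_
  have hy' := (mem_primitiveRoots hm).1 hy
  have hy1 : ‖y‖ = 1 := hy'.norm'_eq_one hm.ne'
  have hw := MsC_pow hq hy'.pow_eq_one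
  have hw1 : ‖y ^ q‖ = 1 := by rw [norm_pow, hy1, one_pow]
  rw [MsC_fibre hp hm hpm hq hy']
  have hmem : y ^ q ∈ (nthRoots p y).toFinset := by
    rw [Multiset.mem_toFinset, mem_nthRoots hp.pos, hw]
  rw [Finset.sum_erase_eq_sub hmem]
  have h1 : ∀ z ∈ (nthRoots p y).toFinset, ‖aeval z P‖ ^ 2 =
      ‖∑ j ∈ range p, z ^ j * aeval y (dec p P j)‖ ^ 2 := by
    intro z hz
    rw [Multiset.mem_toFinset, mem_nthRoots hp.pos] at hz
    rw [aeval_dec hp.pos P z, hz]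
  rw [Finset.sum_congr rfl h1, parseval hp.pos hy1, h1 _ hmem]
  have h2 : ∑ j ∈ range p, ‖aeval y (dec p P j)‖ ^ 2 =
      ∑ j ∈ range p, ‖(y ^ q) ^ j * aeval y (dec p P j)‖ ^ 2 := by
    refine Finset.sum_congr rfl fun j _ => ?_
    rw [norm_mul, norm_pow, hw1, one_pow, one_mul]
  rw [h2, MsC_id p fun j => (y ^ q) ^ j * aeval y (dec p P j)]
  refine Finset.sum_congr rfl fun x _ => ?_
  rw [MsC_aeval]

theorem pairs {p m : ℕ} (hp : p.Prime) (hm : 0 < m) (hpm : ¬ p ∣ m) {ζ : ℂ}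
    (hζ : IsPrimitiveRoot ζ (p * m)) (P : ℤ[X]) {C : ℝ}
    (hC : ∀ z : ℂ, IsPrimitiveRoot z (p * m) → ‖aeval z P‖ ≤ C) :
    ∃ (w : ℂ) (c : ℕ → ℂ), w ∈ Qa (ζ ^ p) ∧ w ≠ 0 ∧ (∀ j, c j ∈ Qa (ζ ^ p)) ∧
      IsPrimitiveRoot (ζ / w) p ∧ aeval ζ P = ∑ j ∈ range p, (ζ / w) ^ j * c j ∧
      ((((range p ×ˢ range p).filter fun x => x.1 < x.2 ∧ c x.1 ≠ c x.2).card : ℕ) : ℝ) ≤
        (p - 1) * C ^ 2 := by
  classical
  obtain ⟨q, hq⟩ := MsC_inv hp hm hpm
  have hn : 0 < p * m := Nat.mul_pos hp.pos hm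
  have hy : IsPrimitiveRoot (ζ ^ p) m := hζ.pow hn rfl
  have hy0 : ζ ^ p ≠ 0 := hy.ne_zero hm.ne'
  have hw := MsC_pow hq hy.pow_eq_one
  have hw0 : (ζ ^ p) ^ q ≠ 0 := pow_ne_zero _ hy0
  have hwm : (ζ ^ p) ^ q ∈ Qa (ζ ^ p) := pow_mem (IntermediateField.mem_adjoin_simple_self ℚ _) q
  refine ⟨(ζ ^ p) ^ q, fun j => ((ζ ^ p) ^ q) ^ j * aeval (ζ ^ p) (dec p P j), hwm, hw0,
    fun j => mul_mem (pow_mem hwm j) (MsC_mem _ _), ?_, ?_, ?_⟩
  · have h3 : (ζ / (ζ ^ p) ^ q) ^ p = 1 := by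
      rw [div_pow, hw, div_self hy0]
    have h4 : ζ / (ζ ^ p) ^ q ≠ 1 := by
      intro h
      have h5 := (div_eq_one_iff_eq hw0).1 h
      have h6 : ζ ^ m = 1 := by
        rw [h5, ← pow_mul, mul_comm, pow_mul, hy.pow_eq_one, one_pow]
      have h7 := Nat.le_of_dvd hm (hζ.dvd_of_pow_eq_one m h6)
      have h8 := hp.two_le
      nlinarith
    have hfp : Fact p.Prime := ⟨hp⟩
    have h5 : orderOf (ζ / (ζ ^ p) ^ q) = p := orderOf_eq_prime h3 h4
    have h9 := IsPrimitiveRoot.orderOf (ζ / (ζ ^ p) ^ q)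
    rw [h5] at h9
    exact h9
  · rw [aeval_dec hp.pos P ζ]
    refine Finset.sum_congr rfl fun j _ => ?_
    rw [div_pow, ← mul_assoc, div_mul_cancel₀ _ (pow_ne_zero _ hw0)]
  · have hφ : (0 : ℝ) < m.totient := by exact_mod_cast Nat.totient_pos.2 hm
    have h1 : Mn (p * m) P ≤ ((p * m).totient : ℝ) * C ^ 2 := by
      unfold Mn
      calc ∑ z ∈ primitiveRoots (p * m) ℂ, ‖aeval z P‖ ^ 2
          ≤ ∑ z ∈ primitiveRoots (p * m) ℂ, C ^ 2 := by
            refine Finset.sum_le_sum fun z hz => ?_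
            exact pow_le_pow_left₀ (norm_nonneg _) (hC z ((mem_primitiveRoots hn).1 hz)) 2
        _ = ((p * m).totient : ℝ) * C ^ 2 := by
            rw [Finset.sum_const, hζ.card_primitiveRoots, nsmul_eq_mul]
    have h2 : ((p * m).totient : ℝ) = (p - 1) * m.totient := by
      rw [Nat.totient_mul ((Nat.Prime.coprime_iff_not_dvd hp).2 hpm), Nat.totient_prime hp]
      push_cast [Nat.cast_sub hp.one_lt.le]
      ring
    rw [MsC_sum hp hm hpm hq P] at h1
    have h3 : ((((range p ×ˢ range p).filter fun x => x.1 < x.2 ∧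
        ((ζ ^ p) ^ q) ^ x.1 * aeval (ζ ^ p) (dec p P x.1) ≠
        ((ζ ^ p) ^ q) ^ x.2 * aeval (ζ ^ p) (dec p P x.2)).card : ℕ) : ℝ) * m.totient ≤
        ∑ x ∈ (range p ×ˢ range p).filter (fun x => x.1 < x.2), Mn m (MsC_R p q P x.1 x.2) := by
      rw [← nsmul_eq_mul, ← Finset.sum_const, ← Finset.filter_filter]
      refine (Finset.sum_le_sum fun x hx => ?_).trans
        (Finset.sum_le_sum_of_subset_of_nonneg (Finset.filter_subset _ _) fun x _ _ => ?_)
      · have h4 := (Finset.mem_filter.1 hx).2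
        refine totient_le_Mn hm hy ?_
        rw [MsC_aeval]
        exact sub_ne_zero.2 h4
      · exact Finset.sum_nonneg fun z _ => by positivity
    rw [h2] at h1
    have h5 := h3.trans h1
    have h6 : ((p : ℝ) - 1) * m.totient * C ^ 2 = (p - 1) * C ^ 2 * m.totient := by ring
    rw [h6] at h5
    exact le_of_mul_le_mul_right h5 hφ

end Pool.Agent.CST
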