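import Pool.Agent.CST.MsB
import Pool.Agent.CST.MsC
import Pool.Agent.CST.Cmb

/-!
# Sparse representations

First case of `Spl`: in `P(ζ) = ∑ j < l, ζ ^ j * P_j(ζ ^ l)` every non zero `P_j(ζ ^ l)` contributes
at least `φ(n/l)` to `∑_j Mn (n/l) (dec l P j) = Mn n P / l ≤ φ(n/l) C ^ 2`, so there are at most
`C ^ 2` of them. Second case, `p = l` prime: `P(ζ) = ∑ θ ^ j * c j = ∑ θ ^ j * (c j - c j₀)` with
`θ = ζ / w` a primitive `p`-th root of unity, at most `2 C ^ 2` terms do not vanish.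
-/

open scoped BigOperators Polynomial
open Polynomial Finset

namespace Pool.Agent.CST

private theorem spa_aeval_mem (z : ℂ) (Q : ℤ[X]) : aeval z Q ∈ Qa z := by
  rw [aeval_eq_sum_range]
  refine sum_mem fun i _ => zsmul_mem (pow_mem ?_ i) _
  exact IntermediateField.mem_adjoin_simple_self ℚ z

private theorem spa_Mn_le {n : ℕ} (hn : 0 < n) (P : ℤ[X]) {C : ℝ}
    (hC : ∀ z : ℂ, IsPrimitiveRoot z n → ‖aeval z P‖ ≤ C) {ζ : ℂ} (hζ : IsPrimitiveRoot ζ n) :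
    Mn n P ≤ n.totient * C ^ 2 := by
  unfold Mn
  have h1 : ∑ z ∈ primitiveRoots n ℂ, ‖aeval z P‖ ^ 2 ≤ ∑ _z ∈ primitiveRoots n ℂ, C ^ 2 :=
    Finset.sum_le_sum fun z hz =>
      pow_le_pow_left₀ (norm_nonneg _) (hC z ((mem_primitiveRoots hn).1 hz)) 2
  rw [Finset.sum_const, hζ.card_primitiveRoots, nsmul_eq_mul] at h1
  exact h1

private theorem spa_Mn_nonneg (n : ℕ) (P : ℤ[X]) : 0 ≤ Mn n P :=
  Finset.sum_nonneg fun _ _ => sq_nonneg _

private theorem spa_first {n l : ℕ} (hn : 0 < n) (hl0 : 0 < l) (hl : l ∣ n)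
    (hp : ∀ p, p.Prime → p ∣ l → p ∣ n / l) {ζ : ℂ} (hζ : IsPrimitiveRoot ζ n)
    (P : ℤ[X]) {C : ℝ} (hC : ∀ z : ℂ, IsPrimitiveRoot z n → ‖aeval z P‖ ≤ C)
    {R : ℕ} (hR : 2 * C ^ 2 ≤ R) : Sparse l R ζ (aeval ζ P) := by
  classical
  have hm : 0 < n / l := Nat.div_pos (Nat.le_of_dvd hn hl) hl0
  have hζl : IsPrimitiveRoot (ζ ^ l) (n / l) := hζ.pow hn (Nat.mul_div_cancel' hl).symm
  set J : Finset ℕ := (range l).filter fun j => aeval (ζ ^ l) (dec l P j) ≠ 0 with hJ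
  refine ⟨J, fun j => aeval (ζ ^ l) (dec l P j), ?_, fun j => spa_aeval_mem _ _, ?_⟩
  · have h1 : ∑ _j ∈ J, ((n / l).totient : ℝ) ≤ ∑ j ∈ range l, Mn (n / l) (dec l P j) := by
      refine (Finset.sum_le_sum fun j hj =>
        totient_le_Mn hm hζl (Finset.mem_filter.1 hj).2).trans ?_
      exact Finset.sum_le_sum_of_subset_of_nonneg (Finset.filter_subset _ _)
        fun j _ _ => spa_Mn_nonneg _ _
    rw [Finset.sum_const, nsmul_eq_mul] at h1
    have h2 := spa_Mn_le hn P hC hζ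
    rw [Mn_eq hn hl hp P, totient_mul_of hn hl hp, Nat.cast_mul, mul_assoc] at h2
    have hlr : (0 : ℝ) < l := by exact_mod_cast hl0
    have h3 : ∑ j ∈ range l, Mn (n / l) (dec l P j) ≤ (n / l).totient * C ^ 2 :=
      le_of_mul_le_mul_left h2 hlr
    have hφ : (0 : ℝ) < (n / l).totient := by exact_mod_cast Nat.totient_pos.2 hm
    have h4 : (J.card : ℝ) ≤ C ^ 2 := by
      refine le_of_mul_le_mul_left (a := ((n / l).totient : ℝ)) ?_ hφ
      rw [mul_comm]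
      exact h1.trans h3
    have h5 : (J.card : ℝ) ≤ R := by nlinarith [sq_nonneg C]
    exact_mod_cast h5
  · rw [aeval_dec hl0 P ζ, hJ, Finset.sum_filter]
    refine Finset.sum_congr rfl fun j _ => ?_
    split_ifs with h
    · rw [mul_comm]
    · rw [not_not.1 h, mul_zero]

private theorem spa_second {p m : ℕ} (hp : p.Prime) (hm : 0 < m) (hpm : ¬ p ∣ m) {ζ : ℂ}
    (hζ : IsPrimitiveRoot ζ (p * m)) (P : ℤ[X]) {C : ℝ}
    (hC : ∀ z : ℂ, IsPrimitiveRoot z (p * m) → ‖aeval z P‖ ≤ C)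
    (hlC : 4 * C ^ 2 < p) {R : ℕ} (hR : 2 * C ^ 2 ≤ R) : Sparse p R ζ (aeval ζ P) := by
  classical
  obtain ⟨w, c, hw, hw0, hc, hθ, hP, hcard⟩ := pairs hp hm hpm hζ P hC
  obtain ⟨j₀, _, hj⟩ := exists_value c hp.pos (sq_nonneg C) hlC hcard
  set J : Finset ℕ := (range p).filter fun j => c j ≠ c j₀ with hJ
  refine ⟨J, fun j => (c j - c j₀) * w⁻¹ ^ j, ?_, fun j => ?_, ?_⟩
  · have h5 : (J.card : ℝ) ≤ R := hj.trans hR
    exact_mod_cast h5
  · exact mul_mem (sub_mem (hc _) (hc _)) (pow_mem (inv_mem hw) _)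
  · have h0 : ∑ j ∈ range p, (ζ / w) ^ j = 0 := hθ.geom_sum_eq_zero hp.one_lt
    have h1 : aeval ζ P = ∑ j ∈ range p, (ζ / w) ^ j * (c j - c j₀) := by
      have h2 : ∑ j ∈ range p, (ζ / w) ^ j * (c j - c j₀) =
          ∑ j ∈ range p, (ζ / w) ^ j * c j - (∑ j ∈ range p, (ζ / w) ^ j) * c j₀ := by
        rw [Finset.sum_mul, ← Finset.sum_sub_distrib]
        exact Finset.sum_congr rfl fun j _ => by ring
      rw [h2, h0, zero_mul, sub_zero]
      exact hP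
    rw [h1, hJ, Finset.sum_filter]
    refine Finset.sum_congr rfl fun j _ => ?_
    split_ifs with h
    · change (ζ / w) ^ j * (c j - c j₀) = (c j - c j₀) * w⁻¹ ^ j * ζ ^ j
      rw [div_eq_mul_inv, mul_pow]
      ring
    · rw [not_not.1 h, sub_self, mul_zero]

theorem sparse {n l : ℕ} (hn : 0 < n) (hl : Spl l n) {ζ : ℂ} (hζ : IsPrimitiveRoot ζ n)
    (P : ℤ[X]) {C : ℝ} (hC0 : 0 ≤ C) (hC : ∀ z : ℂ, IsPrimitiveRoot z n → ‖aeval z P‖ ≤ C)
    (hlC : 4 * C ^ 2 < l) {R : ℕ} (hR : 2 * C ^ 2 ≤ R) : Sparse l R ζ (aeval ζ P) := by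
  obtain ⟨hl0, hln, h | ⟨hp, hpm⟩⟩ := hl
  · exact spa_first hn hl0 hln h hζ P hC hR
  · have hm : 0 < n / l := Nat.div_pos (Nat.le_of_dvd hn hln) hl0
    have hnm : n = l * (n / l) := (Nat.mul_div_cancel' hln).symm
    refine spa_second hp hm hpm (ζ := ζ) ?_ P (C := C) ?_ hlC hR
    · rw [← hnm]
      exact hζ
    · rw [← hnm]
      exact hC

end Pool.Agent.CST
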