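import Pool.Agent.CST.Defs

/-!
# The decomposition of a polynomial by the exponents modulo `l`

`aeval_dec`: `P(z) = ∑ j < l, z ^ j * (dec l P j)(z ^ l)`, by writing the exponents as `i * l + j`.
`parseval`: for `‖y‖ = 1` the solutions of `z ^ l = y` are `ω ^ x * α`, with `ω` a primitive `l`-th
root of unity; the characters `x ↦ ω ^ (j x)`, `j < l`, are orthogonal.
`card_nthRoots'`: for `y ≠ 0` there are `l` solutions.
-/

open scoped BigOperators Polynomial
open Polynomial Finset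

namespace Pool.Agent.CST

private theorem dec_sum_range_mul (f : ℕ → ℂ) (N l : ℕ) :
    ∑ k ∈ range (N * l), f k = ∑ i ∈ range N, ∑ j ∈ range l, f (i * l + j) := by
  induction N with
  | zero => simp
  | succ N ih => rw [Nat.succ_mul, Finset.sum_range_add, ih, Finset.sum_range_succ]

theorem aeval_dec {l : ℕ} (hl : 0 < l) (P : ℤ[X]) (z : ℂ) :
    aeval z P = ∑ j ∈ range l, z ^ j * aeval (z ^ l) (dec l P j) := by
  have h1 : aeval z P = ∑ k ∈ range ((P.natDegree + 1) * l), (P.coeff k : ℂ) * z ^ k := by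
    rw [aeval_eq_sum_range' (n := (P.natDegree + 1) * l)
      (lt_of_lt_of_le (Nat.lt_succ_self _) (Nat.le_mul_of_pos_right _ hl))]
    refine Finset.sum_congr rfl fun k _ => ?_
    rw [zsmul_eq_mul]
  rw [h1, dec_sum_range_mul, Finset.sum_comm]
  refine Finset.sum_congr rfl fun j _ => ?_
  rw [dec, map_sum, Finset.mul_sum]
  refine Finset.sum_congr rfl fun i _ => ?_
  rw [aeval_monomial, ← pow_mul, pow_add]
  simp only [eq_intCast]
  rw [mul_comm i l]
  ring

private theorem dec_nthRoots {l : ℕ} (hl : 0 < l) {y : ℂ} (hy : y ≠ 0) :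
    ∃ (ζ α : ℂ), IsPrimitiveRoot ζ l ∧ α ^ l = y ∧
      (nthRoots l y).toFinset = (range l).image (fun x => ζ ^ x * α) ∧
      Set.InjOn (fun x => ζ ^ x * α) (range l : Set ℕ) := by
  obtain ⟨α, hα⟩ := IsAlgClosed.exists_pow_nat_eq y hl
  have hζ := Complex.isPrimitiveRoot_exp l hl.ne'
  have hα0 : α ≠ 0 := by
    rintro rfl
    apply hy
    rw [← hα, zero_pow hl.ne']
  refine ⟨_, α, hζ, hα, ?_, ?_⟩
  · rw [hζ.nthRoots_eq hα]
    ext z
    simp
  · intro a ha b hb hab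
    have ha' : a < l := by simpa using ha
    have hb' : b < l := by simpa using hb
    exact hζ.pow_inj ha' hb' (mul_right_cancel₀ hα0 hab)

theorem parseval {l : ℕ} (hl : 0 < l) {y : ℂ} (hy : ‖y‖ = 1) (c : ℕ → ℂ) :
    ∑ z ∈ (nthRoots l y).toFinset, ‖∑ j ∈ range l, z ^ j * c j‖ ^ 2 =
      l * ∑ j ∈ range l, ‖c j‖ ^ 2 := by
  have hy0 : y ≠ 0 := by
    rintro rfl
    simp at hy
  obtain ⟨ζ, α, hζ, hα, him, hinj⟩ := dec_nthRoots hl hy0
  rw [him, Finset.sum_image hinj]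
  have hα1 : ‖α‖ = 1 := by
    have h := congrArg norm hα
    rw [norm_pow, hy] at h
    exact (pow_eq_one_iff_of_nonneg (norm_nonneg _) hl.ne').1 h
  have hζ1 : ‖ζ‖ = 1 := hζ.norm'_eq_one hl.ne'
  have hcc : ∀ w : ℂ, (((‖w‖ ^ 2 : ℝ)) : ℂ) = w * (starRingEnd ℂ) w := by
    intro w
    rw [Complex.mul_conj, Complex.normSq_eq_norm_sq]
  have hζc : ζ * (starRingEnd ℂ) ζ = 1 := by
    rw [← hcc, hζ1]; simp
  have hαc : α * (starRingEnd ℂ) α = 1 := by
    rw [← hcc, hα1]; simp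
  have horth : ∀ j ∈ range l, ∀ k ∈ range l,
      ∑ x ∈ range l, ((ζ ^ j * (starRingEnd ℂ) ζ ^ k) ^ x) = if j = k then (l : ℂ) else 0 := by
    intro j hj k hk
    rw [Finset.mem_range] at hj hk
    split_ifs with hjk
    · subst hjk
      rw [← mul_pow, hζc]
      simp
    · have hw1 : ζ ^ j * (starRingEnd ℂ) ζ ^ k ≠ 1 := by
        intro h
        apply hjk
        apply hζ.pow_inj hj hk
        calc ζ ^ j = ζ ^ j * (ζ * (starRingEnd ℂ) ζ) ^ k := by rw [hζc]; simp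
          _ = (ζ ^ j * (starRingEnd ℂ) ζ ^ k) * ζ ^ k := by rw [mul_pow]; ring
          _ = ζ ^ k := by rw [h, one_mul]
      have hwl : (ζ ^ j * (starRingEnd ℂ) ζ ^ k) ^ l = 1 := by
        rw [mul_pow, ← pow_mul, ← pow_mul, mul_comm j l, mul_comm k l, pow_mul, pow_mul,
          ← map_pow, hζ.pow_eq_one]
        simp
      rw [geom_sum_eq hw1, hwl]
      simp
  apply Complex.ofReal_injective
  push_cast
  have h1 : ∀ x ∈ range l, ((‖∑ j ∈ range l, (ζ ^ x * α) ^ j * c j‖ : ℂ)) ^ 2 =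
      ∑ j ∈ range l, ∑ k ∈ range l, ((ζ ^ j * (starRingEnd ℂ) ζ ^ k) ^ x) *
        ((α ^ j * c j) * (starRingEnd ℂ) (α ^ k * c k)) := by
    intro x _
    have := hcc (∑ j ∈ range l, (ζ ^ x * α) ^ j * c j)
    push_cast at this
    rw [this, map_sum, Finset.sum_mul_sum]
    refine Finset.sum_congr rfl fun j _ => Finset.sum_congr rfl fun k _ => ?_
    simp only [map_mul, map_pow]
    rw [mul_pow, mul_pow, mul_pow, ← pow_mul, ← pow_mul, ← pow_mul, ← pow_mul,
      mul_comm x j, mul_comm x k]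
    ring
  rw [Finset.sum_congr rfl h1, Finset.sum_comm, Finset.mul_sum]
  refine Finset.sum_congr rfl fun j hj => ?_
  rw [Finset.sum_comm]
  have h2 : ∀ k ∈ range l, ∑ x ∈ range l, ((ζ ^ j * (starRingEnd ℂ) ζ ^ k) ^ x) *
        ((α ^ j * c j) * (starRingEnd ℂ) (α ^ k * c k)) =
      if j = k then (l : ℂ) * ((α ^ j * c j) * (starRingEnd ℂ) (α ^ k * c k)) else 0 := by
    intro k hk
    rw [← Finset.sum_mul, horth j hj k hk]
    split_ifs <;> simp
  rw [Finset.sum_congr rfl h2, Finset.sum_ite_eq, if_pos hj]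
  have h3 := hcc (c j)
  push_cast at h3
  rw [h3]
  simp only [map_mul, map_pow]
  calc (l : ℂ) * (α ^ j * c j * ((starRingEnd ℂ) α ^ j * (starRingEnd ℂ) (c j)))
      = (l : ℂ) * ((α * (starRingEnd ℂ) α) ^ j * (c j * (starRingEnd ℂ) (c j))) := by
        rw [mul_pow]; ring
    _ = _ := by rw [hαc]; simp

theorem card_nthRoots' {l : ℕ} (hl : 0 < l) {y : ℂ} (hy : y ≠ 0) :
    (nthRoots l y).toFinset.card = l := by
  obtain ⟨ζ, α, _, _, him, hinj⟩ := dec_nthRoots hl hy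
  rw [him, Finset.card_image_of_injOn hinj, Finset.card_range]

end Pool.Agent.CST
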