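import Mathlib

/-!
# Common definitions of the project CST (MP_a09a03_nt, EveryCurve)

Paper proof: /team-store/cst97.md.
-/

open scoped BigOperators Polynomial
open Polynomial

namespace Pool.Agent.CST

/-- evaluation of integral polynomials at `z` -/
noncomputable def ev {F : Type*} [Field F] (z : F) : ℤ[X] →+* F :=
  Polynomial.eval₂RingHom (Int.castRingHom F) z

theorem ev_apply {F : Type*} [Field F] (z : F) (P : ℤ[X]) : ev z P = aeval z P := by
  rw [ev, coe_eval₂RingHom, aeval_def]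
  rfl

/-- `f(t, X)` is irreducible over `E(z)` after every substitution `t = z ^ a`, for all fields `E`
algebraic over `ℚ`. -/
def Geo (f : ℤ[X][X]) : Prop :=
  ∀ (E : Type) [Field E] [CharZero E], Algebra.IsAlgebraic ℚ E → ∀ a : ℕ, 0 < a →
    Irreducible (f.map (ev ((RatFunc.X : RatFunc E) ^ a)))

/-- the sum of `‖P(z)‖ ^ 2` over the primitive `n`-th roots of unity -/
noncomputable def Mn (n : ℕ) (P : ℤ[X]) : ℝ := ∑ z ∈ primitiveRoots n ℂ, ‖aeval z P‖ ^ 2

/-- the part of `P` with exponents congruent to `j` modulo `l`: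
`P = ∑ j < l, X ^ j * (dec l P j)(X ^ l)` -/
noncomputable def dec (l : ℕ) (P : ℤ[X]) (j : ℕ) : ℤ[X] :=
  ∑ i ∈ Finset.range (P.natDegree + 1), monomial i (P.coeff (i * l + j))

/-- `ℚ(z)` inside `ℂ` -/
noncomputable abbrev Qa (z : ℂ) : IntermediateField ℚ ℂ := IntermediateField.adjoin ℚ {z}

/-- `s` is a combination of at most `R` powers of `ζ`, with coefficients in `ℚ(ζ ^ l)` -/
def Sparse (l R : ℕ) (ζ s : ℂ) : Prop :=
  ∃ (J : Finset ℕ) (e : ℕ → ℂ), J.card ≤ R ∧ (∀ j, e j ∈ Qa (ζ ^ l)) ∧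
    s = ∑ j ∈ J, e j * ζ ^ j

/-- `s` is a combination of the powers `η ^ r`, `|r| ≤ l / 8`, with coefficients in
`ℚ(η ^ l)` -/
def Rep (l : ℕ) (η s : ℂ) : Prop :=
  ∃ (I : Finset ℤ) (c : ℤ → ℂ), (∀ r ∈ I, |r| * 8 ≤ l) ∧ (∀ r, c r ∈ Qa (η ^ l)) ∧
    s = ∑ r ∈ I, c r * η ^ r

/-- the two situations: every prime factor of `l` divides `n / l`, or `l` is a prime which does not
divide `n / l` -/
def Spl (l n : ℕ) : Prop :=
  0 < l ∧ l ∣ n ∧ ((∀ p, p.Prime → p ∣ l → p ∣ n / l) ∨ (l.Prime ∧ ¬ l ∣ n / l))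

section places

variable {K : Type} [Field K]

/-- the closed points of the curve with function field `K`: the discrete valuation rings of `K`
which contain the rational numbers -/
def IsPl [CharZero K] (O : ValuationSubring K) : Prop :=
  IsDiscreteValuationRing O ∧ ∀ q : ℚ, (q : K) ∈ O

/-- every element of `K` algebraic over `ℚ` is rational -/
def Cst (K : Type) [Field K] [CharZero K] : Prop :=
  ∀ a : K, IsAlgebraic ℚ a → ∃ q : ℚ, (q : K) = a

/-- `g` is not of the form `a * h ^ p`, `a` rational, `p` prime -/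
def Npw {K : Type} [Field K] [CharZero K] (g : K) : Prop :=
  ∀ p : ℕ, p.Prime → ∀ (a : ℚ) (h : K), g ≠ (a : K) * h ^ p

/-- a plane model over the line with coordinate `g`: `K = ℚ(g)(θ)`, `f(g, θ) = 0`, `f` monic of
degree `[K : ℚ(g)]` -/
structure Model [CharZero K] (g θ : K) (f : ℤ[X][X]) : Prop where
  tr : Transcendental ℚ g
  monic : f.Monic
  root : f.eval₂ (ev g) θ = 0
  top : IntermediateField.adjoin ℚ {g, θ} = ⊤
  deg : f.natDegree = Module.finrank (IntermediateField.adjoin ℚ {g}) K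
  pos : 0 < f.natDegree

end places

end Pool.Agent.CST
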