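import Pool.Agent.CST.Deg

/-!
# Lifting a factorisation to Laurent polynomials

`E = ℚ(η ^ l)`, `LaurentPolynomial E`, evaluation `T ↦ η`.

`laur_zero`: a Laurent polynomial `D` over `E` with exponents of absolute value `≤ l / 4` and
`D(η) = 0` is zero (`indep`). `lift_factor`: the coefficients of `G` and `H` are represented by Laurent
polynomials over `E` with exponents of absolute value `≤ l / 8`, the leading ones by `1`; every
coefficient of `f(T ^ a, X) - G' H'` has exponents of absolute value `≤ l / 4` and vanishes at `η`.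
-/

open scoped BigOperators Polynomial LaurentPolynomial
open Polynomial Finset

namespace Pool.Agent.CST

/-- evaluation of Laurent polynomials over `ℚ(y)` at a non zero complex number -/
noncomputable def lev (y : ℂ) (η : ℂˣ) : (Qa y)[T;T⁻¹] →+* ℂ :=
  LaurentPolynomial.eval₂ (algebraMap (Qa y) ℂ) η

/-- the coefficients of `f`, with `t` replaced by `T ^ a` -/
noncomputable def tsub (y : ℂ) (a : ℕ) : ℤ[X] →+* (Qa y)[T;T⁻¹] :=
  Polynomial.eval₂RingHom (Int.castRingHom _) (LaurentPolynomial.T (a : ℤ))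

theorem laur_lev_CT (y : ℂ) (u : ℂˣ) (c : Qa y) (r : ℤ) :
    lev y u (LaurentPolynomial.C c * LaurentPolynomial.T r) = (c : ℂ) * (u : ℂ) ^ r := by
  rw [lev, LaurentPolynomial.eval₂_C_mul_T]
  simp

theorem laur_sum {y : ℂ} (D : (Qa y)[T;T⁻¹]) :
    D = ∑ r ∈ D.coeff.support, LaurentPolynomial.C (D.coeff r) * LaurentPolynomial.T r := by
  conv_lhs => rw [← AddMonoidAlgebra.sum_coeff_single D]
  rw [Finsupp.sum]
  refine Finset.sum_congr rfl fun r _ => ?_
  exact LaurentPolynomial.single_eq_C_mul_T _ _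

theorem laur_lev_apply (y : ℂ) (u : ℂˣ) (D : (Qa y)[T;T⁻¹]) :
    lev y u D = ∑ r ∈ D.coeff.support, ((D.coeff r : Qa y) : ℂ) * (u : ℂ) ^ r := by
  conv_lhs => rw [laur_sum D]
  rw [map_sum]
  exact Finset.sum_congr rfl fun r _ => laur_lev_CT y u _ r

/-- the exponents of `D` have absolute value at most `k / 8` -/
def LauB {y : ℂ} (k : ℤ) (D : (Qa y)[T;T⁻¹]) : Prop := ∀ r, D.coeff r ≠ 0 → |r| * 8 ≤ k

theorem laur_zero {N l : ℕ} (hN : 0 < N) (hl : Spl l N) {η : ℂ}
    (hη : IsPrimitiveRoot η N) (u : ℂˣ) (hu : (u : ℂ) = η) (hl1 : 16 ≤ l)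
    (D : (Qa (η ^ l))[T;T⁻¹]) (hD : LauB (2 * l) D) (h0 : lev (η ^ l) u D = 0) : D = 0 := by
  classical
  rw [laur_lev_apply, hu] at h0
  have h1 : ∀ r ∈ D.coeff.support, ((D.coeff r : Qa (η ^ l)) : ℂ) = 0 := by
    refine indep hN hl hη (fun r => ((D.coeff r : Qa (η ^ l)) : ℂ)) (fun r => (D.coeff r).2)
      D.coeff.support (-((l : ℤ) / 4)) ?_ h0
    intro r hr
    have := hD r (Finsupp.mem_support_iff.mp hr)
    have h2 : |r| ≤ (l : ℤ) / 4 := by omega
    rw [abs_le] at h2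
    constructor
    · exact h2.1
    · omega
  refine LaurentPolynomial.ext fun r => ?_
  by_contra hne
  have hr : r ∈ D.coeff.support := Finsupp.mem_support_iff.mpr hne
  exact (Finsupp.mem_support_iff.mp hr) (Subtype.ext (h1 r hr))

theorem laur_CT {y : ℂ} {k : ℤ} (c : Qa y) {r : ℤ} (hr : |r| * 8 ≤ k) :
    LauB k (LaurentPolynomial.C c * LaurentPolynomial.T r) := by
  intro s hs
  rw [← LaurentPolynomial.single_eq_C_mul_T, AddMonoidAlgebra.coeff_single] at hs
  have : s = r := by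
    by_contra h
    exact hs (Finsupp.single_eq_of_ne (Ne.symm (fun h' => h h'.symm)))
  rwa [this]

theorem laur_Bzero {y : ℂ} {k : ℤ} : LauB k (0 : (Qa y)[T;T⁻¹]) := by
  intro r hr
  simp at hr

theorem laur_add {y : ℂ} {k : ℤ} {D D' : (Qa y)[T;T⁻¹]} (h : LauB k D) (h' : LauB k D') :
    LauB k (D + D') := by
  intro r hr
  rw [AddMonoidAlgebra.coeff_add, Finsupp.add_apply] at hr
  by_cases h1 : D.coeff r = 0
  · refine h' r fun h2 => hr ?_
    rw [h1, h2, add_zero]
  · exact h r h1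

theorem laur_neg {y : ℂ} {k : ℤ} {D : (Qa y)[T;T⁻¹]} (h : LauB k D) :
    LauB k (-D) := by
  intro r hr
  refine h r fun h1 => hr ?_
  rw [AddMonoidAlgebra.coeff_neg, Finsupp.neg_apply, h1, neg_zero]

theorem laur_finsum {y : ℂ} {k : ℤ} {ι : Type*} (s : Finset ι) (D : ι → (Qa y)[T;T⁻¹])
    (h : ∀ i ∈ s, LauB k (D i)) : LauB k (∑ i ∈ s, D i) := by
  classical
  induction s using Finset.induction_on with
  | empty => rw [Finset.sum_empty]; exact laur_Bzero
  | insert a s ha ih =>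
    rw [Finset.sum_insert ha]
    exact laur_add (h a (Finset.mem_insert_self a s))
      (ih fun i hi => h i (Finset.mem_insert_of_mem hi))

theorem laur_mul {y : ℂ} {k : ℤ} {D D' : (Qa y)[T;T⁻¹]} (h : LauB k D) (h' : LauB k D') :
    LauB (2 * k) (D * D') := by
  classical
  intro r hr
  have h1 : r ∈ (D * D').coeff.support := Finsupp.mem_support_iff.mpr hr
  have h2 := AddMonoidAlgebra.support_coeff_mul_subset D D' h1
  obtain ⟨a, ha, b, hb, hab⟩ := Finset.mem_add.mp h2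
  have h3 := h a (Finsupp.mem_support_iff.mp ha)
  have h4 := h' b (Finsupp.mem_support_iff.mp hb)
  have h5 : |r| ≤ |a| + |b| := by rw [← hab]; exact abs_add_le a b
  omega

theorem laur_mono {y : ℂ} {k k' : ℤ} (hk : k ≤ k') {D : (Qa y)[T;T⁻¹]} (h : LauB k D) :
    LauB k' D := fun r hr => (h r hr).trans hk

theorem laur_one {y : ℂ} {k : ℤ} (hk : 0 ≤ k) : LauB k (1 : (Qa y)[T;T⁻¹]) := by
  have := laur_CT (k := k) (1 : Qa y) (r := 0) (by simpa using hk)
  rwa [LaurentPolynomial.T_zero, mul_one, map_one] at this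

theorem laur_rep {l : ℕ} {η s : ℂ} (u : ℂˣ) (hu : (u : ℂ) = η) (h : Rep l η s) :
    ∃ D : (Qa (η ^ l))[T;T⁻¹], LauB l D ∧ lev (η ^ l) u D = s := by
  obtain ⟨I, c, hI, hc, hs⟩ := h
  refine ⟨∑ r ∈ I, LaurentPolynomial.C (⟨c r, hc r⟩ : Qa (η ^ l)) * LaurentPolynomial.T r,
    laur_finsum _ _ fun r hr => laur_CT _ (hI r hr), ?_⟩
  rw [map_sum, hs]
  refine Finset.sum_congr rfl fun r _ => ?_
  rw [laur_lev_CT, hu]

theorem laur_lift {l : ℕ} {η : ℂ} (u : ℂˣ) (hu : (u : ℂ) = η) (G : ℂ[X]) (hG : G.Monic)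
    (hG' : ∀ i, Rep l η (G.coeff i)) :
    ∃ G' : ((Qa (η ^ l))[T;T⁻¹])[X], G'.Monic ∧ G'.natDegree = G.natDegree ∧
      (∀ i, LauB l (G'.coeff i)) ∧ G'.map (lev (η ^ l) u) = G := by
  classical
  choose g hg1 hg2 using fun i => laur_rep u hu (hG' i)
  set n := G.natDegree with hn
  have hlt : (∑ i ∈ Finset.range n, C (g i) * X ^ i : ((Qa (η ^ l))[T;T⁻¹])[X]).degree < n := by
    rw [← Polynomial.mem_degreeLT]
    refine Submodule.sum_mem _ fun i hi => ?_
    rw [Polynomial.mem_degreeLT]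
    refine lt_of_le_of_lt (Polynomial.degree_C_mul_X_pow_le _ _) ?_
    exact_mod_cast Finset.mem_range.mp hi
  refine ⟨X ^ n + ∑ i ∈ Finset.range n, C (g i) * X ^ i, ?_, ?_, ?_, ?_⟩
  · exact Polynomial.monic_X_pow_add hlt
  · refine Polynomial.natDegree_eq_of_degree_eq_some ?_
    rw [Polynomial.degree_add_eq_left_of_degree_lt]
    · exact Polynomial.degree_X_pow n
    · rw [Polynomial.degree_X_pow]; exact hlt
  · intro i
    rw [Polynomial.coeff_add, Polynomial.coeff_X_pow, Polynomial.finsetSum_coeff]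
    refine laur_add ?_ (laur_finsum _ _ fun j _ => ?_)
    · split_ifs
      · exact laur_one (by positivity)
      · exact laur_Bzero
    · rw [Polynomial.coeff_C_mul_X_pow]
      split_ifs
      · exact hg1 j
      · exact laur_Bzero
  · rw [Polynomial.map_add, Polynomial.map_pow, Polynomial.map_X, Polynomial.map_sum]
    conv_rhs => rw [G.as_sum_range_C_mul_X_pow, Finset.sum_range_succ, ← hn]
    have hlc : G.coeff n = 1 := hG
    rw [hlc, map_one, one_mul, add_comm]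
    congr 1
    refine Finset.sum_congr rfl fun i _ => ?_
    rw [Polynomial.map_mul, Polynomial.map_C, Polynomial.map_pow, Polynomial.map_X, hg2]

theorem laur_tsub {l a d : ℕ} (y : ℂ) (hl2 : 8 * a * d ≤ l) (p : ℤ[X]) (hp : p.natDegree ≤ d) :
    LauB l (tsub y a p) := by
  rw [tsub, Polynomial.coe_eval₂RingHom, Polynomial.eval₂_eq_sum_range]
  refine laur_finsum _ _ fun j hj => ?_
  have hj' : j ≤ d := by
    have := Finset.mem_range.mp hj
    omega
  have e1 : (Int.castRingHom ((Qa y)[T;T⁻¹])) (p.coeff j) =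
      LaurentPolynomial.C ((p.coeff j : Qa y)) := by
    rw [map_intCast]; rfl
  rw [e1, LaurentPolynomial.T_pow]
  refine laur_CT _ ?_
  have h1 : ((j : ℤ) * (a : ℤ)) * 8 ≤ l := by
    have h2 : j * a ≤ d * a := Nat.mul_le_mul_right a hj'
    have h3 : (j * a) * 8 ≤ l := by nlinarith
    exact_mod_cast h3
  rw [abs_of_nonneg (by positivity)]
  exact h1

theorem laur_lev_tsub (y : ℂ) (u : ℂˣ) (a : ℕ) :
    (lev y u).comp (tsub y a) = ev ((u : ℂ) ^ a) := by
  refine Polynomial.ringHom_ext (fun n => ?_) ?_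
  · simp
  · rw [RingHom.comp_apply, tsub, Polynomial.coe_eval₂RingHom, Polynomial.eval₂_X, ev,
      Polynomial.coe_eval₂RingHom, Polynomial.eval₂_X, lev, LaurentPolynomial.eval₂_T]
    simp

theorem lift_factor {N l a d : ℕ} (hN : 0 < N) (hl : Spl l N) {η : ℂ}
    (hη : IsPrimitiveRoot η N) (u : ℂˣ) (hu : (u : ℂ) = η) (f : ℤ[X][X])
    (hd : ∀ i, (f.coeff i).natDegree ≤ d) (hl1 : 16 ≤ l) (hl2 : 8 * a * d ≤ l)
    (G H : ℂ[X]) (hG : G.Monic) (hH : H.Monic) (hf : f.map (ev (η ^ a)) = G * H)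
    (hG' : ∀ i, Rep l η (G.coeff i)) (hH' : ∀ i, Rep l η (H.coeff i)) :
    ∃ G' H' : ((Qa (η ^ l))[T;T⁻¹])[X], G'.Monic ∧ H'.Monic ∧ G'.natDegree = G.natDegree ∧
      H'.natDegree = H.natDegree ∧ f.map (tsub (η ^ l) a) = G' * H' := by
  classical
  obtain ⟨G', hG1, hG2, hG3, hG4⟩ := laur_lift u hu G hG hG'
  obtain ⟨H', hH1, hH2, hH3, hH4⟩ := laur_lift u hu H hH hH'
  refine ⟨G', H', hG1, hH1, hG2, hH2, ?_⟩
  rw [← sub_eq_zero]
  refine Polynomial.ext fun k => ?_
  rw [Polynomial.coeff_zero]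
  refine laur_zero hN hl hη u hu hl1 _ ?_ ?_
  · rw [sub_eq_add_neg, Polynomial.coeff_add, Polynomial.coeff_neg, Polynomial.coeff_map,
      Polynomial.coeff_mul]
    refine laur_add (laur_mono (by omega) (laur_tsub _ hl2 _ (hd k))) (laur_neg ?_)
    exact laur_finsum _ _ fun x _ => laur_mul (hG3 _) (hH3 _)
  · rw [← Polynomial.coeff_map, Polynomial.map_sub, Polynomial.map_map, Polynomial.map_mul,
      laur_lev_tsub, hu, hG4, hH4, hf, sub_self, Polynomial.coeff_zero]

end Pool.Agent.CST
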