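import Pool.Agent.CST.Dec

/-!
# Mean squares of a decomposed polynomial, first case

If every prime factor of `l` divides `n / l` then the primitive `n`-th roots of unity are the
`l`-th roots of the primitive `n / l`-th roots of unity.
-/

open scoped BigOperators Polynomial
open Polynomial Finset

namespace Pool.Agent.CST

theorem totient_mul_of {n l : ℕ} (hn : 0 < n) (hl : l ∣ n)
    (hp : ∀ p, p.Prime → p ∣ l → p ∣ n / l) : n.totient = l * (n / l).totient := by
  obtain ⟨m, rfl⟩ := hl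
  have hl0 : 0 < l := Nat.pos_of_mul_pos_right hn
  have hm0 : 0 < m := Nat.pos_of_mul_pos_left hn
  rw [Nat.mul_div_cancel_left m hl0] at hp ⊢
  have h1 : (l * m).primeFactors = m.primeFactors := by
    rw [Nat.primeFactors_mul hl0.ne' hm0.ne']
    refine Finset.union_eq_right.2 fun p hpl => ?_
    rw [Nat.mem_primeFactors] at hpl ⊢
    exact ⟨hpl.1, hp p hpl.1 hpl.2.1, hm0.ne'⟩
  have h2 := Nat.totient_mul_prod_primeFactors (l * m)
  have h3 := Nat.totient_mul_prod_primeFactors m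
  rw [h1] at h2
  have h4 : 0 < ∏ p ∈ m.primeFactors, p :=
    Finset.prod_pos fun p hpm => (Nat.prime_of_mem_primeFactors hpm).pos
  refine Nat.eq_of_mul_eq_mul_right h4 ?_
  rw [h2, mul_assoc l m, ← h3, mul_assoc]

private theorem msb_prim {l m : ℕ} (hl0 : 0 < l) (hm0 : 0 < m)
    (hp : ∀ p, p.Prime → p ∣ l → p ∣ m) {z : ℂ} (h : IsPrimitiveRoot (z ^ l) m) :
    IsPrimitiveRoot z (l * m) := by
  have h1 : z ^ (l * m) = 1 := by rw [pow_mul, h.pow_eq_one]
  have hk : 0 < orderOf z :=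
    orderOf_pos_iff.2 (isOfFinOrder_iff_pow_eq_one.2 ⟨l * m, Nat.mul_pos hl0 hm0, h1⟩)
  obtain ⟨d, hd⟩ := orderOf_dvd_of_pow_eq_one h1
  have h2 : orderOf (z ^ l) = m := h.eq_orderOf.symm
  rw [orderOf_pow' z hl0.ne'] at h2
  have h3 : orderOf z = m * Nat.gcd (orderOf z) l := by
    rw [← h2]
    exact (Nat.div_mul_cancel (Nat.gcd_dvd_left _ _)).symm
  have hg : 0 < Nat.gcd (orderOf z) l := Nat.gcd_pos_of_pos_left _ hk
  obtain ⟨g, hgd⟩ : ∃ g, g = Nat.gcd (orderOf z) l := ⟨_, rfl⟩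
  rw [← hgd] at h3 hg
  have h4 : l = g * d := by
    have h5 : m * l = m * (g * d) := by
      rw [← mul_assoc, ← h3, ← hd, mul_comm]
    exact Nat.eq_of_mul_eq_mul_left hm0 h5
  have h6 : g = g * Nat.gcd m d := by
    refine hgd.trans ?_
    rw [h3, h4, mul_comm m g, Nat.gcd_mul_left]
  have h7 : Nat.gcd m d = 1 := by
    have h8 : g * 1 = g * Nat.gcd m d := by
      rw [mul_one]
      exact h6
    exact (Nat.eq_of_mul_eq_mul_left hg h8).symm
  have h9 : d = 1 := by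
    by_contra hne
    obtain ⟨p, hpp, hpd⟩ := Nat.exists_prime_and_dvd hne
    have h10 : p ∣ l := by
      rw [h4]
      exact hpd.mul_left _
    have h11 := Nat.dvd_gcd (hp p hpp h10) hpd
    rw [h7] at h11
    exact hpp.one_lt.ne' (Nat.dvd_one.1 h11)
  rw [h9, mul_one] at hd
  rw [hd]
  exact IsPrimitiveRoot.orderOf z

private theorem msb_fiber {l m : ℕ} (hl0 : 0 < l) (hm0 : 0 < m)
    (hp : ∀ p, p.Prime → p ∣ l → p ∣ m) {y : ℂ} (hy : y ∈ primitiveRoots m ℂ) :
    (primitiveRoots (l * m) ℂ).filter (fun z => z ^ l = y) = (nthRoots l y).toFinset := by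
  ext z
  rw [Finset.mem_filter, Multiset.mem_toFinset, mem_nthRoots hl0,
    mem_primitiveRoots (Nat.mul_pos hl0 hm0)]
  constructor
  · exact fun h => h.2
  · intro h
    refine ⟨msb_prim hl0 hm0 hp ?_, h⟩
    rw [h]
    exact (mem_primitiveRoots hm0).1 hy

theorem Mn_eq {n l : ℕ} (hn : 0 < n) (hl : l ∣ n) (hp : ∀ p, p.Prime → p ∣ l → p ∣ n / l)
    (P : ℤ[X]) : Mn n P = l * ∑ j ∈ range l, Mn (n / l) (dec l P j) := by
  classical
  obtain ⟨m, rfl⟩ := hl
  have hl0 : 0 < l := Nat.pos_of_mul_pos_right hn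
  have hm0 : 0 < m := Nat.pos_of_mul_pos_left hn
  rw [Nat.mul_div_cancel_left m hl0] at hp ⊢
  unfold Mn
  have hmap : ∀ z ∈ primitiveRoots (l * m) ℂ, z ^ l ∈ primitiveRoots m ℂ := by
    intro z hz
    rw [mem_primitiveRoots hm0]
    exact ((mem_primitiveRoots hn).1 hz).pow hn rfl
  rw [← Finset.sum_fiberwise_of_maps_to hmap, Finset.sum_comm, Finset.mul_sum]
  refine Finset.sum_congr rfl fun y hy => ?_
  rw [msb_fiber hl0 hm0 hp hy]
  have hy1 : ‖y‖ = 1 := ((mem_primitiveRoots hm0).1 hy).norm'_eq_one hm0.ne'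
  rw [← parseval hl0 hy1 (fun j => aeval y (dec l P j))]
  refine Finset.sum_congr rfl fun z hz => ?_
  have h1 : z ^ l = y := by
    rwa [Multiset.mem_toFinset, mem_nthRoots hl0] at hz
  rw [aeval_dec hl0, h1]

end Pool.Agent.CST
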