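import Pool.Agent.ISG.Defs

/-!
# Definitions used in the statement
-/

namespace Pool.Agent.CST

open Pool.Agent.ISG

/-- The elements of `K_2(K) ⊗ ℚ` which for every discrete valuation ring `O` of `K` containing the
rational numbers are combinations of symbols of units of `O`: the elements unramified at all closed
points of the curve with function field `K`. -/
noncomputable def unramifiedK2 (K : Type) [Field K] [CharZero K] : Submodule ℚ (K2Q K) :=
  ⨅ (O : ValuationSubring K) (_ : IsDiscreteValuationRing O) (_ : ∀ q : ℚ, (q : K) ∈ O),
    Submodule.span ℚ {z | ∃ u v : Kˣ, u ∈ O.unitGroup ∧ v ∈ O.unitGroup ∧ z = sb u v}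

/-- The span of the symbols `{g, h}`, `h` an arbitrary element of `Kˣ`. -/
noncomputable def slice {K : Type} [Field K] (g : Kˣ) : Submodule ℚ (K2Q K) :=
  Submodule.span ℚ (Set.range fun h : Kˣ => sb g h)

end Pool.Agent.CST
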